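import Pool.Agent.Lib.MP_94aef8_gt.Ops

/-!
Graded classes of families of functions (level = number of controlled derivatives, order = order
of vanishing), closed under the ring operations and derivatives. All the operators of `Ops` act on
such classes.
-/

open scoped Topology
open Filter Matrix

namespace Pool.Agent.Lib.MP_94aef8_gt

/-- A graded class of families of functions. -/
structure Cls (α : Type) where
  C : ℕ → ℕ → (α → Fn) → Prop
  m0 : ℕ
  pts : α → Set E4
  congr : ∀ {m p : ℕ} {f g : α → Fn}, C m p f → (∀ a, ∀ y ∈ pts a, f a =ᶠ[𝓝 y] g a) → C m p g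
  const : ∀ (m : ℕ) (c : ℝ), C m 0 fun _ _ => c
  zero : ∀ m p : ℕ, C m p fun _ => 0
  add : ∀ {m p : ℕ} {f g : α → Fn}, C m p f → C m p g → C m p fun a => f a + g a
  neg : ∀ {m p : ℕ} {f : α → Fn}, C m p f → C m p fun a => -f a
  mul : ∀ {m l p q : ℕ} {f g : α → Fn}, m0 ≤ m → l ≤ m → C m p f → C l q g →
    C l (p + q) fun a => f a * g a
  der : ∀ {m p : ℕ} {f : α → Fn} (i : Fin 4), C (m + 1) p f → C m p fun a => pd i (f a)
  lev : ∀ {m p : ℕ} {f : α → Fn}, C (m + 1) p f → C m p f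

namespace Cls

variable {α : Type} {S : Cls α} {m l p q n : ℕ} {f g : α → Fn}

theorem levLe (h : S.C m p f) (hl : l ≤ m) : S.C l p f := by
  induction hl with
  | refl => exact h
  | step _ ih => exact ih (S.lev h)

/-- The class decreases with the order. -/
def Ord (S : Cls α) : Prop := ∀ (m p : ℕ) (f : α → Fn), S.C m (p + 1) f → S.C m p f

theorem ordLe (ho : S.Ord) (h : S.C m p f) (hl : q ≤ p) : S.C m q f := by
  induction hl with
  | refl => exact h
  | step _ ih => exact ih (ho _ _ _ h)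

theorem sub (h : S.C m p f) (h' : S.C m p g) : S.C m p fun a => f a - g a := by
  simpa only [sub_eq_add_neg] using S.add h (S.neg h')

theorem mulL (hm : S.m0 ≤ m) (hl : l ≤ m) (h : S.C m 0 f) (h' : S.C l q g) :
    S.C l q fun a => f a * g a := by
  simpa only [zero_add] using S.mul hm hl h h'

theorem mulR (hm : S.m0 ≤ m) (hl : l ≤ m) (h : S.C l q f) (h' : S.C m 0 g) :
    S.C l q fun a => f a * g a := by
  simpa only [mul_comm] using mulL hm hl h' h

theorem cmul (c : ℝ) (h : S.C l q f) : S.C l q fun a y => c * f a y :=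
  mulL (m := max S.m0 l) (le_max_left _ _) (le_max_right _ _) (S.const _ c) h

theorem sum {ι : Type} (s : Finset ι) {F : ι → α → Fn} (h : ∀ i ∈ s, S.C m p (F i)) :
    S.C m p fun a => ∑ i ∈ s, F i a := by
  classical
  induction s using Finset.induction_on with
  | empty => simpa only [Finset.sum_empty] using S.zero m p
  | insert i s hi ih =>
    simp only [Finset.sum_insert hi]
    exact S.add (h i (Finset.mem_insert_self _ _)) (ih fun j hj => h j (Finset.mem_insert_of_mem hj))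

theorem sum' {ι : Type} (s : Finset ι) {F : ι → α → Fn} (h : ∀ i ∈ s, S.C m p (F i)) :
    S.C m p fun a y => ∑ i ∈ s, F i a y := by
  have e : (fun a y => ∑ i ∈ s, F i a y) = fun a => ∑ i ∈ s, F i a := by
    ext a y
    simp
  rw [e]
  exact sum s h

theorem prod {ι : Type} (hm : S.m0 ≤ m) (s : Finset ι) {F : ι → α → Fn}
    (h : ∀ i ∈ s, S.C m 0 (F i)) : S.C m 0 fun a y => ∏ i ∈ s, F i a y := by
  classical
  induction s using Finset.induction_on with
  | empty => simpa only [Finset.prod_empty] using S.const m 1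
  | insert i s hi ih =>
    simp only [Finset.prod_insert hi]
    exact mulL hm le_rfl (h i (Finset.mem_insert_self _ _))
      (ih fun j hj => h j (Finset.mem_insert_of_mem hj))

theorem derW (w : List (Fin 4)) (h : S.C (m + w.length) p f) : S.C m p fun a => pdw w (f a) := by
  induction w generalizing m with
  | nil => exact h
  | cons i w ih =>
    refine S.der i (ih (m := m + 1) ?_)
    rwa [List.length_cons, ← add_assoc, add_right_comm] at h

/-- Matrices of functions with entries in the class. -/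
def R (S : Cls α) (m p : ℕ) (N : α → MA Fn) : Prop := ∀ i j, S.C m p fun a => N a i j

/-- Fields of matrices with entries in the class. -/
def T (S : Cls α) (m p : ℕ) (h : α → Tn) : Prop := ∀ i j, S.C m p fun a y => h a y i j

variable {M N : α → MA Fn} {G h k : α → Tn}

theorem R.levLe (hM : S.R m p M) (hl : l ≤ m) : S.R l p M := fun i j => Cls.levLe (hM i j) hl

theorem R.ordLe (hM : S.R m p M) (ho : S.Ord) (hl : q ≤ p) : S.R m q M :=
  fun i j => Cls.ordLe ho (hM i j) hl

theorem R.add (hM : S.R m p M) (hN : S.R m p N) : S.R m p fun a => M a + N a :=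
  fun i j => S.add (hM i j) (hN i j)

theorem R.sub (hM : S.R m p M) (hN : S.R m p N) : S.R m p fun a => M a - N a :=
  fun i j => Cls.sub (hM i j) (hN i j)

theorem R.neg (hM : S.R m p M) : S.R m p fun a => -M a := fun i j => S.neg (hM i j)

theorem R.tr (hM : S.R m p M) : S.R m p fun a => (M a)ᵀ := fun i j => hM j i

theorem R.mul (hm : S.m0 ≤ m) (hl : l ≤ m) (hM : S.R m p M) (hN : S.R l q N) :
    S.R l (p + q) fun a => M a * N a :=
  fun i j => sum Finset.univ fun e _ => S.mul hm hl (hM i e) (hN e j)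

theorem R.mulL (hm : S.m0 ≤ m) (hl : l ≤ m) (hM : S.R m 0 M) (hN : S.R l q N) :
    S.R l q fun a => M a * N a :=
  fun i j => sum Finset.univ fun e _ => Cls.mulL hm hl (hM i e) (hN e j)

theorem R.mulR (hm : S.m0 ≤ m) (hl : l ≤ m) (hM : S.R l q M) (hN : S.R m 0 N) :
    S.R l q fun a => M a * N a :=
  fun i j => sum Finset.univ fun e _ => Cls.mulR hm hl (hM i e) (hN e j)

theorem R.smul (hm : S.m0 ≤ m) (hl : l ≤ m) (hf : S.C m p f) (hN : S.R l q N) :
    S.R l (p + q) fun a => f a • N a := fun i j => S.mul hm hl hf (hN i j)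

theorem R.smulL (hm : S.m0 ≤ m) (hl : l ≤ m) (hf : S.C m 0 f) (hN : S.R l q N) :
    S.R l q fun a => f a • N a := fun i j => Cls.mulL hm hl hf (hN i j)

theorem R.sum {F : Fin 4 → α → MA Fn} (hF : ∀ i, S.R m p (F i)) :
    S.R m p fun a => ∑ i, F i a := by
  intro i j
  simp only [Matrix.sum_apply]
  exact Cls.sum _ fun e _ => hF e i j

theorem R.dm (hM : S.R (m + 1) p M) (i : Fin 4) : S.R m p fun a => (geo (G a)).dm i (M a) :=
  fun k l => S.der i (hM k l)

theorem R.trace (hM : S.R m p M) : S.C m p fun a => (M a).trace :=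
  Cls.sum Finset.univ fun e _ => hM e e

theorem T.levLe (hh : S.T m p h) (hl : l ≤ m) : S.T l p h := fun i j => Cls.levLe (hh i j) hl

theorem T.ordLe (hh : S.T m p h) (ho : S.Ord) (hl : q ≤ p) : S.T m q h :=
  fun i j => Cls.ordLe ho (hh i j) hl

theorem T.add (hh : S.T m p h) (hk : S.T m p k) : S.T m p fun a => h a + k a :=
  fun i j => S.add (hh i j) (hk i j)

theorem T.sub (hh : S.T m p h) (hk : S.T m p k) : S.T m p fun a => h a - k a :=
  fun i j => Cls.sub (hh i j) (hk i j)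

theorem T.neg (hh : S.T m p h) : S.T m p fun a => -h a := fun i j => S.neg (hh i j)

theorem T.cmul (c : ℝ) (hh : S.T m p h) : S.T m p fun a y => c • h a y :=
  fun i j => Cls.cmul c (hh i j)

theorem T.smulL (hm : S.m0 ≤ m) (hl : l ≤ m) (hf : S.C m 0 f) (hh : S.T l q h) :
    S.T l q fun a y => f a y • h a y := fun i j => Cls.mulL hm hl hf (hh i j)

theorem T.mul (hm : S.m0 ≤ m) (hl : l ≤ m) (hh : S.T m p h) (hk : S.T l q k) :
    S.T l (p + q) fun a y => h a y * k a y :=
  fun i j => sum' Finset.univ fun e _ => S.mul hm hl (hh i e) (hk e j)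

theorem T.mulL (hm : S.m0 ≤ m) (hl : l ≤ m) (hh : S.T m 0 h) (hk : S.T l q k) :
    S.T l q fun a y => h a y * k a y :=
  fun i j => sum' Finset.univ fun e _ => Cls.mulL hm hl (hh i e) (hk e j)

theorem T.mulR (hm : S.m0 ≤ m) (hl : l ≤ m) (hh : S.T l q h) (hk : S.T m 0 k) :
    S.T l q fun a y => h a y * k a y :=
  fun i j => sum' Finset.univ fun e _ => Cls.mulR hm hl (hh i e) (hk e j)

theorem T.congr (hh : S.T m p h) (e : ∀ a, ∀ y ∈ S.pts a, h a =ᶠ[𝓝 y] k a) : S.T m p k :=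
  fun i j => S.congr (hh i j) fun a y hy => (e a y hy).mono fun _ hz => congrFun (congrFun hz i) j

theorem T.det (hm : S.m0 ≤ m) (hh : S.T m 0 h) : S.C m 0 fun a y => (h a y).det := by
  simp only [Matrix.det_apply']
  exact sum' _ fun σ _ => Cls.cmul _ (prod hm _ fun i _ => hh _ _)

/-- The inverse matrix is in the class if the inverse of the determinant is. -/
theorem T.inv (hm : S.m0 ≤ m) (hh : S.T m 0 h) (hd : S.C m 0 fun a y => ((h a y).det)⁻¹) :
    S.T m 0 fun a => inv (h a) := by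
  intro i j
  simp only [MP_94aef8_gt.inv, Matrix.inv_def, Matrix.smul_apply, smul_eq_mul,
    Ring.inverse_eq_inv', Matrix.adjugate_apply]
  refine Cls.mulL hm le_rfl hd (T.det (h := fun a y => (h a y).updateRow j (Pi.single i 1)) hm
    fun k l => ?_)
  by_cases e : k = j
  · subst e
    simp only [Matrix.updateRow_self]
    exact S.const _ _
  · simp only [Matrix.updateRow_ne e]
    exact hh k l

/-- A family of metrics whose curvature has level `n`. -/
structure Mt (S : Cls α) (n : ℕ) (G : α → Tn) : Prop where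
  le : S.m0 ≤ n
  g : S.T (n + 2) 0 G
  h : S.T (n + 2) 0 fun a => inv (G a)

theorem Mt.levLe (hG : S.Mt n G) (h0 : S.m0 ≤ m) (hm : m ≤ n) : S.Mt m G :=
  ⟨h0, hG.g.levLe (by omega), hG.h.levLe (by omega)⟩

theorem Mt.gH (hG : S.Mt n G) : S.R n 0 fun a => (geo (G a)).H :=
  R.levLe (m := n + 2) hG.h (by omega)

theorem Mt.gw (hG : S.Mt n G) (i : Fin 4) : S.R (n + 1) 0 fun a => (geo (G a)).w i := fun k j =>
  have h0 : S.m0 ≤ n + 1 := hG.le.trans (by omega)
  mulL h0 le_rfl (S.const _ _) (sum Finset.univ fun l _ => mulL h0 le_rfl (S.lev (hG.h k l))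
    (sub (S.add (S.der i (hG.g j l)) (S.der j (hG.g i l))) (S.der l (hG.g i j))))

theorem Mt.gw0 (hG : S.Mt n G) (i : Fin 4) : S.R n 0 fun a => (geo (G a)).w i :=
  (hG.gw i).levLe (by omega)

theorem Mt.grm (hG : S.Mt n G) (i j : Fin 4) : S.R n 0 fun a => (geo (G a)).rm i j :=
  ((((hG.gw j).dm i).sub ((hG.gw i).dm j)).add ((hG.gw0 i).mulL hG.le le_rfl (hG.gw0 j))).sub
    ((hG.gw0 j).mulL hG.le le_rfl (hG.gw0 i))

theorem Mt.gric (hG : S.Mt n G) : S.R n 0 fun a => (geo (G a)).ric :=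
  fun j k => sum Finset.univ fun i _ =>
    S.add (sub (S.der i (hG.gw j i k)) (S.der j (hG.gw i i k))) (sum Finset.univ fun e _ =>
      sub (mulL hG.le le_rfl (hG.gw0 i i e) (hG.gw0 j e k))
        (mulL hG.le le_rfl (hG.gw0 j i e) (hG.gw0 i e k)))

theorem Mt.gnab (hG : S.Mt n G) (hl : l ≤ n + 1) (hM : S.R (l + 1) p M) (i : Fin 4) :
    S.R l p fun a => (geo (G a)).nab i (M a) :=
  have h0 : S.m0 ≤ n + 1 := hG.le.trans (by omega)
  ((hM.dm i).sub ((hG.gw i).tr.mulL h0 hl (hM.levLe (by omega)))).sub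
    ((hM.levLe (by omega)).mulR h0 hl (hG.gw i))

theorem Mt.gnab2 (hG : S.Mt n G) (hl : l ≤ n) (hM : S.R (l + 2) p M) (i j : Fin 4) :
    S.R l p fun a => (geo (G a)).nab2 i j (M a) :=
  (hG.gnab (by omega) (hG.gnab (l := l + 1) (by omega) hM j) i).sub
    (R.sum fun e => R.smulL hG.le hl (hG.gw0 i e j) (hG.gnab (by omega) (hM.levLe (by omega)) e))

theorem Mt.grring (hG : S.Mt n G) (hl : l ≤ n) (hM : S.R l p M) :
    S.R l p fun a => (geo (G a)).rring (M a) := fun i j =>
  sum Finset.univ fun e _ => ((hG.gH.mulL hG.le hl hM).mulR hG.le hl (hG.grm e i)) e j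

/-- The part of order zero of the Lichnerowicz Laplacian. -/
theorem Mt.gzero (hG : S.Mt n G) (hl : l ≤ n) (hM : S.R l p M) :
    (S.R l p fun a => (2 : Fn) • (geo (G a)).rring (M a)) ∧
    (S.R l p fun a => (geo (G a)).ric * (geo (G a)).H * M a) ∧
    (S.R l p fun a => M a * (geo (G a)).H * (geo (G a)).ric) :=
  ⟨R.smulL hG.le hl (S.const _ 2) (hG.grring hl hM),
    (hG.gric.mulL hG.le le_rfl hG.gH).mulL hG.le hl hM,
    (hM.mulR hG.le hl hG.gH).mulR hG.le hl hG.gric⟩

theorem Mt.glich (hG : S.Mt n G) (hl : l ≤ n) (hM : S.R (l + 2) p M) :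
    S.R l p fun a => (geo (G a)).lich (M a) := by
  have h1 : S.R l p fun a => (geo (G a)).rough (M a) :=
    (R.sum fun i => R.sum fun j => R.smulL hG.le hl (hG.gH i j) (hG.gnab2 hl hM i j)).neg
  obtain ⟨h2, h3, h4⟩ := hG.gzero hl (hM.levLe (l := l) (by omega))
  exact ((h1.sub h2).add h3).add h4

theorem Mt.gipT (hG : S.Mt n G) (h0 : S.m0 ≤ l) (hl : l ≤ n) (hM : S.R l p M) (hN : S.R l q N) :
    S.C l (p + q) fun a => (geo (G a)).ipT (M a) (N a) :=
  R.trace (((hG.gH.mulL hG.le hl hM).mulR hG.le hl hG.gH).mul h0 le_rfl hN.tr)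

theorem Mt.gipD (hG : S.Mt n G) (h0 : S.m0 ≤ l) (hl : l ≤ n) (hM : S.R (l + 1) p M)
    (hN : S.R (l + 1) q N) : S.C l (p + q) fun a => (geo (G a)).ipD (M a) (N a) :=
  sum Finset.univ fun i _ => sum Finset.univ fun j _ => mulL hG.le hl (hG.gH i j)
    (hG.gipT h0 hl (hG.gnab (by omega) hM i) (hG.gnab (by omega) hN j))

theorem Mt.glow (hG : S.Mt n G) (hl : l ≤ n) (hM : S.R (l + 1) p M) (i : Fin 4) :
    S.R l p fun a => (geo (G a)).low (M a) i := fun e j =>
  have h1 := fun b => hG.gnab (l := l) (by omega) hM b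
  mulL hG.le hl (S.const _ _) (sub (S.add (h1 i j e) (h1 j i e)) (h1 e i j))

theorem Mt.gcu (hG : S.Mt n G) (h0 : S.m0 ≤ l) (hl : l ≤ n) (hN : S.R l q N) (hM : S.R l p M) :
    S.R l (q + p) fun a => (geo (G a)).cu (N a) (M a) := fun j k =>
  have h1 := fun i j => ((hG.grm i j).tr.mulL hG.le hl hM).add (hM.mulR hG.le hl (hG.grm i j))
  mulL hG.le hl (S.const _ _) (sum Finset.univ fun i _ => sum Finset.univ fun e _ =>
    S.mul h0 le_rfl (hN i e) (S.add (h1 i j k e) (h1 i k j e)))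

/-- The first order part of the nonlinear term is quadratic. -/
theorem Mt.gqq (hG : S.Mt n G) (h0 : S.m0 ≤ l) (hl : l ≤ n) (hM : S.R (l + 1) p M)
    (hN : S.R l 0 N) (hD : S.R l p fun a => N a - (geo (G a)).H) :
    S.R l (p + p) fun a => (geo (G a)).qq (M a) (N a) := by
  have h1 := fun b => hG.gnab (l := l) (by omega) hM b
  have h2 := fun b => hG.glow hl hM b
  have h3 : ∀ b, S.R l p fun a => (geo (G a)).cdf (M a) (N a) b :=
    fun b => hN.mulL h0 le_rfl (h2 b)
  have h4 := fun b => hN.mulL h0 le_rfl (h1 b)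
  have h5 : ∀ e, S.C l p fun a => (geo (G a)).wl (M a) (N a) e := fun e =>
    sum Finset.univ fun b _ => sum Finset.univ fun c _ => mulL h0 le_rfl (hN b c) (h2 b e c)
  refine (hG.gcu h0 hl hD (hM.levLe (by omega))).neg.add fun j k => ?_
  refine S.add (S.add (S.add (sum Finset.univ fun i _ => sub
    (((h4 j).mul h0 le_rfl (h3 i)) i k) (((h4 i).mul h0 le_rfl (h3 j)) i k))
    (sum Finset.univ fun i _ => sum Finset.univ fun e _ => sub
      (S.mul h0 le_rfl (h3 i i e) (h3 j e k)) (S.mul h0 le_rfl (h3 j i e) (h3 i e k))))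
    (mulL h0 le_rfl (S.const _ _) (sum Finset.univ fun b _ => sum Finset.univ fun c _ => S.add
      (S.mul h0 le_rfl (((h4 j).mulR h0 le_rfl hN) b c) (h2 b k c))
      (S.mul h0 le_rfl (((h4 k).mulR h0 le_rfl hN) b c) (h2 b j c)))))
    (sum Finset.univ fun e _ => S.mul h0 le_rfl (h3 j e k) (h5 e))

theorem Mt.gQQ (hG : S.Mt n G) (h0 : S.m0 ≤ l) (hl : l ≤ n) (hM : S.R (l + 2) p M)
    (hN : S.R l 0 N) (hD : S.R l p fun a => N a - (geo (G a)).H) :
    S.R l (p + p) fun a => (geo (G a)).QQ (M a) (N a) :=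
  (R.smulL h0 le_rfl (S.const _ _) (R.sum fun i => R.sum fun j =>
    R.smul h0 le_rfl (hD i j) (hG.gnab2 hl hM i j))).neg.add
    (hG.gqq h0 hl (hM.levLe (by omega)) hN hD)

theorem Mt.rm (hG : S.Mt n G) (i j : Fin 4) : S.T n 0 fun a => rm (G a) i j := hG.grm i j

theorem Mt.nab (hG : S.Mt n G) (hl : l ≤ n + 1) (hh : S.T (l + 1) p h) (i : Fin 4) :
    S.T l p fun a => nab (G a) i (h a) := hG.gnab (M := fun a => mf (h a)) hl hh i

theorem Mt.nab2 (hG : S.Mt n G) (hl : l ≤ n) (hh : S.T (l + 2) p h) (i j : Fin 4) :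
    S.T l p fun a => nab2 (G a) i j (h a) := hG.gnab2 (M := fun a => mf (h a)) hl hh i j

theorem Mt.lich (hG : S.Mt n G) (hl : l ≤ n) (hh : S.T (l + 2) p h) :
    S.T l p fun a => lich (G a) (h a) := hG.glich (M := fun a => mf (h a)) hl hh

theorem Mt.trG (hG : S.Mt n G) (hl : l ≤ n) (hh : S.T l p h) :
    S.C l p fun a => trG (G a) (h a) :=
  sum' Finset.univ fun e _ => ((hG.h.levLe (l := n) (by omega)).mulL hG.le hl hh) e e

theorem Mt.ipT (hG : S.Mt n G) (h0 : S.m0 ≤ l) (hl : l ≤ n) (hh : S.T l p h) (hk : S.T l q k) :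
    S.C l (p + q) fun a => ipT (G a) (h a) (k a) :=
  have h1 := hG.h.levLe (l := n) (by omega)
  sum' Finset.univ fun e _ => (((h1.mulL hG.le hl hh).mulR hG.le hl h1).mul h0 le_rfl
    (k := fun a y => (k a y)ᵀ) fun i j => hk j i) e e

theorem Mt.ipD (hG : S.Mt n G) (h0 : S.m0 ≤ l) (hl : l ≤ n) (hh : S.T (l + 1) p h)
    (hk : S.T (l + 1) q k) : S.C l (p + q) fun a => ipD (G a) (h a) (k a) :=
  hG.gipD (M := fun a => mf (h a)) (N := fun a => mf (k a)) h0 hl hh hk

theorem Mt.qq (hG : S.Mt n G) (h0 : S.m0 ≤ l) (hl : l ≤ n) (hh : S.T (l + 1) p h)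
    (hN : S.T l 0 fun a => inv (G a + h a))
    (hD : S.T l p fun a => inv (G a + h a) - inv (G a)) : S.T l (p + p) fun a => qq (G a) (h a) :=
  hG.gqq (M := fun a => mf (h a)) (N := fun a => mf (inv (G a + h a))) h0 hl hh hN hD

theorem Mt.QQ (hG : S.Mt n G) (h0 : S.m0 ≤ l) (hl : l ≤ n) (hh : S.T (l + 2) p h)
    (hN : S.T l 0 fun a => inv (G a + h a))
    (hD : S.T l p fun a => inv (G a + h a) - inv (G a)) : S.T l (p + p) fun a => QQ (G a) (h a) :=
  hG.gQQ (M := fun a => mf (h a)) (N := fun a => mf (inv (G a + h a))) h0 hl hh hN hD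

/-- The difference of the inverses has the order of the perturbation. -/
theorem Mt.invDiff (hG : S.Mt n G) (h0 : S.m0 ≤ l) (hl : l ≤ n) (hh : S.T l p h)
    (hN : S.T l 0 fun a => inv (G a + h a))
    (hu : ∀ a, ∀ y ∈ S.pts a, ∀ᶠ z in 𝓝 y, (G a z).det ≠ 0 ∧ (G a z + h a z).det ≠ 0) :
    S.T l p fun a => inv (G a + h a) - inv (G a) := by
  have h1 := (((hG.h.levLe (l := n) (by omega)).mulL hG.le hl hh).mulR h0 le_rfl hN).neg
  refine h1.congr fun a y hy => (hu a y hy).mono fun z hz => ?_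
  have e1 := Matrix.nonsing_inv_mul (G a z) hz.1.isUnit
  have e2 := Matrix.mul_nonsing_inv (G a z + h a z) hz.2.isUnit
  change -((G a z)⁻¹ * h a z * (G a z + h a z)⁻¹) = (G a z + h a z)⁻¹ - (G a z)⁻¹
  calc -((G a z)⁻¹ * h a z * (G a z + h a z)⁻¹)
      = (G a z)⁻¹ * G a z * (G a z + h a z)⁻¹ - (G a z)⁻¹ * ((G a z + h a z) * (G a z + h a z)⁻¹) := by
        noncomm_ring
    _ = _ := by rw [e1, e2, Matrix.one_mul, Matrix.mul_one]

end Cls

end Pool.Agent.Lib.MP_94aef8_gt
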