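import Pool.Agent.Lib.MP_94aef8_gt.F.Hs2

/-! Commutators and cut-off functions. -/

open scoped ContDiff Topology
open Matrix Filter Set MeasureTheory

namespace Pool.Agent.Lib.MP_94aef8_gt.FL

open E2

theorem boot1_term {r : ℝ} (hr : 0 < r) {m l : ℕ} (hm : 8 ≤ m) (hl : l + 1 ≤ m) (i : Fin 4) :
    ∃ C, 0 ≤ C ∧ ∀ (R : ℝ) (a v : Fn), r < R → ContDiffOn ℝ ∞ a (Q R) → ContDiffOn ℝ ∞ v (Q R) →
      hs l (Q r) (pd i a * v) ≤ C * hs m (Q r) a * hs l (Q r) v := by
  obtain ⟨m, rfl⟩ : ∃ n, m = n + 1 := ⟨m - 1, by omega⟩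
  obtain ⟨C, hC, h⟩ := xD2 hr (l := l) (m := m) (by omega) (by omega)
  refine ⟨C, hC, fun R a v hR ha hv => (h R _ v hR (sm_pd (isOpen_Q R) ha i) hv).trans ?_⟩
  exact mul_le_mul_of_nonneg_right (mul_le_mul_of_nonneg_left (hs_pd _ _ _ _) hC) (hs_nonneg _ _ _)

/-- Induction on `w` (all `l`, `i`). For `w = []` the difference is `pd i a * z`. For
`w = k :: w'` the difference is `pd i (difference for k :: w') + pd i a * pdw (k :: w') z` on the
cube; use `hs_pd`, the induction hypothesis at level `l + 1`, and `xD2` with `m - 1`. -/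
theorem hs_comm {r : ℝ} (hr : 0 < r) {m : ℕ} (hm : 8 ≤ m) (w : List (Fin 4)) (i : Fin 4) (l : ℕ)
    (hl : l + w.length + 1 ≤ m) : ∃ C, 0 ≤ C ∧ ∀ (R : ℝ) (a z : Fn), r < R →
      ContDiffOn ℝ ∞ a (Q R) → ContDiffOn ℝ ∞ z (Q R) →
      hs l (Q r) (pdw (i :: w) (a * z) - a * pdw (i :: w) z) ≤
        C * hs m (Q r) a * hs (l + w.length) (Q r) z := by
  induction w generalizing i l with
  | nil =>
    obtain ⟨C, hC, h⟩ := boot1_term hr hm (l := l) hl i
    refine ⟨C, hC, fun R a z hR ha hz => (hs_congr (isOpen_Q r) l fun y hy => ?_).trans_le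
      (h R a z hR ha hz)⟩
    have hy' := Q_mono hR.le hy
    simp only [pdw, Pi.sub_apply, Pi.mul_apply,
      pd_mul (sm_diff (isOpen_Q R) ha hy') (sm_diff (isOpen_Q R) hz hy'), add_sub_cancel_right]
  | cons k w ih =>
    rw [List.length_cons] at hl
    obtain ⟨C1, hC1, h1⟩ := ih k (l + 1) (by omega)
    obtain ⟨C2, hC2, h2⟩ := boot1_term hr hm (l := l) (by omega) i
    refine ⟨2 * C1 + 2 * C2, by positivity, fun R a z hR ha hz => ?_⟩
    have hP := sm_pdw (isOpen_Q R) hz (k :: w)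
    have hD : ContDiffOn ℝ ∞ (pdw (k :: w) (a * z) - a * pdw (k :: w) z) (Q R) :=
      (sm_pdw (isOpen_Q R) (ha.mul hz) (k :: w)).sub (ha.mul hP)
    have e : EqOn (pdw (i :: k :: w) (a * z) - a * pdw (i :: k :: w) z)
        (pd i (pdw (k :: w) (a * z) - a * pdw (k :: w) z) + pd i a * pdw (k :: w) z) (Q r) := by
      intro y hy
      have hy' := Q_mono hR.le hy
      have h3 := pd_add (sm_diff (isOpen_Q R) hD hy') (sm_diff (isOpen_Q R) (ha.mul hP) hy') i
      have h4 := pd_mul (sm_diff (isOpen_Q R) ha hy') (sm_diff (isOpen_Q R) hP hy') i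
      change pd i (_ - a * pdw (k :: w) z + a * pdw (k :: w) z) y =
        _ + pd i (a * pdw (k :: w) z) y at h3
      rw [sub_add_cancel, h4] at h3
      change pd i (pdw (k :: w) (a * z)) y - a y * pd i (pdw (k :: w) z) y = _ + _ * _
      linarith
    have h3 := hs_add2 hR l (sm_pd (isOpen_Q R) hD i) ((sm_pd (isOpen_Q R) ha i).mul hP)
    have h4 := (hs_pd l _ _ i).trans (h1 R a z hR ha hz)
    have h5 := (h2 R a _ hR ha hP).trans (mul_le_mul_of_nonneg_left (hs_pdw l _ z (k :: w))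
      (mul_nonneg hC2 (hs_nonneg _ _ _)))
    rw [hs_congr (isOpen_Q r) l e]
    rw [show l + 1 + w.length = l + (k :: w).length by rw [List.length_cons]; omega] at h4
    refine h3.trans ?_
    change 2 * _ + 2 * hs l (Q r) (pd i a * pdw (k :: w) z) ≤ _
    linarith

/-- Derivatives of smooth functions commute (`ContDiffAt.isSymmSndFDerivAt`). -/
theorem pd_comm {U : Set E4} (hU : IsOpen U) {z : Fn} (hz : ContDiffOn ℝ ∞ z U) (i k : Fin 4) :
    EqOn (pd i (pd k z)) (pd k (pd i z)) U := by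
  intro y hy
  have h1 : ContDiffAt ℝ ∞ z y := hz.contDiffAt (hU.mem_nhds hy)
  have h2 : DifferentiableAt ℝ (fderiv ℝ z) y :=
    (h1.fderiv_right (m := 1) (by norm_cast)).differentiableAt one_ne_zero
  have h3 : ∀ a b, pd a (pd b z) y = fderiv ℝ (fderiv ℝ z) y (bas a) (bas b) := fun a b => by
    have h4 := fderiv_clm_apply h2 (differentiableAt_const (bas b))
    change fderiv ℝ (fun p => fderiv ℝ z p (bas b)) y (bas a) = _
    rw [h4]
    simp
  rw [h3, h3]
  exact h1.isSymmSndFDerivAt (by simp; norm_cast) _ _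

theorem pdw_pd {U : Set E4} (hU : IsOpen U) {z : Fn} (hz : ContDiffOn ℝ ∞ z U) (i : Fin 4)
    (w : List (Fin 4)) : EqOn (pdw w (pd i z)) (pd i (pdw w z)) U := by
  induction w with
  | nil => exact fun _ _ => rfl
  | cons k w ih => exact (pd_congr_on hU ih k).trans (pd_comm hU (sm_pdw hU hz w) k i)

/-- `exists_contDiff_tsupport_subset` is for points; use `exists_contMDiff_zero_iff_one_iff` or a
product of four one variable bumps (`ContDiffBump`), or
`exists_smooth_zero_one_of_isClosed` with the closed sets `Kc r'` and the complement of a cube. -/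
theorem exists_cut {r' r : ℝ} (h0 : 0 < r') (h : r' < r) : ∃ η : Fn, ContDiff ℝ ∞ η ∧
    HasCompactSupport η ∧ tsupport η ⊆ Q r ∧ ∀ y ∈ Q r', η y = 1 := by
  let β : ContDiffBump (0 : ℝ) := ⟨r', (r' + r) / 2, h0, by linarith⟩
  have h1 : ∀ y ∉ Kc ((r' + r) / 2), ∏ i : Fin 4, β (y i) = 0 := fun y hy => by
    obtain ⟨i, hi⟩ := not_forall.1 hy
    exact Finset.prod_eq_zero (Finset.mem_univ i)
      (β.zero_of_le_dist (by rw [Real.dist_0_eq_abs]; exact (not_le.1 hi).le))
  refine ⟨fun y => ∏ i : Fin 4, β (y i),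
    contDiff_prod fun i _ => β.contDiff.comp (by fun_prop),
    HasCompactSupport.intro (isCompact_Kc _) h1, ?_, fun y hy => ?_⟩
  · refine (closure_minimal (fun y hy => ?_) (isClosed_Kc ((r' + r) / 2))).trans
      (Kc_sub_Q (by linarith))
    by_contra h2
    exact hy (h1 y h2)
  · exact Finset.prod_eq_one fun i _ => β.one_of_mem_closedBall
      (by rw [Metric.mem_closedBall, Real.dist_0_eq_abs]; exact (hy i).le)

theorem cut_smooth {η z : Fn} {U : Set E4} (hU : IsOpen U) (hη : ContDiff ℝ ∞ η)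
    (hs : tsupport η ⊆ U) (hz : ContDiffOn ℝ ∞ z U) : ContDiff ℝ ∞ (η * z) := by
  refine contDiff_iff_contDiffAt.2 fun y => ?_
  by_cases hy : y ∈ U
  · exact hη.contDiffAt.mul (hz.contDiffAt (hU.mem_nhds hy))
  · refine (contDiffAt_const (c := (0 : ℝ))).congr_of_eventuallyEq ?_
    filter_upwards [notMem_tsupport_iff_eventuallyEq.1 fun h => hy (hs h)] with x hx
    rw [Pi.mul_apply, hx, Pi.zero_apply, zero_mul]

end Pool.Agent.Lib.MP_94aef8_gt.FL
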