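import Pool.Agent.Lib.MP_94aef8_gt.F.Boot1

/-! Second derivatives of a cut-off derivative. -/

open scoped ContDiff Topology
open Matrix Filter Set MeasureTheory

namespace Pool.Agent.Lib.MP_94aef8_gt.FL

open E2

variable {η : Fn} {r R : ℝ}

theorem boot2_red {F : Fn} (h : ∀ y, y ∉ Q r → F y = 0) : ∫ y, F y ^ 2 = hs 0 (Q r) F :=
  (setIntegral_eq_integral_of_forall_compl_eq_zero fun y hy => by simp [h y hy]).symm

theorem boot2_mul (hR : r < R) {φ z : Fn} (hφ : ContDiffOn ℝ ∞ φ (Q R))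
    (hz : ContDiffOn ℝ ∞ z (Q R)) {B : ℝ} (hB : ∀ y ∈ Q r, φ y ^ 2 ≤ B) :
    hs 0 (Q r) (φ * z) ≤ B * hs 0 (Q r) z := by
  simp only [hs]
  rw [← integral_const_mul]
  refine setIntegral_mono_on (integrableOn_Q hR ((hφ.mul hz).continuousOn.pow 2))
    ((integrableOn_Q hR (hz.continuousOn.pow 2)).const_mul B) (isOpen_Q r).measurableSet
    fun y hy => ?_
  rw [Pi.mul_apply, mul_pow]
  exact mul_le_mul_of_nonneg_right (hB y hy) (sq_nonneg _)

theorem boot2_cut (hη : ContDiff ℝ ∞ η) (hR : r < R) : ∃ C, 0 ≤ C ∧ ∀ z : Fn,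
    ContDiffOn ℝ ∞ z (Q R) → hs 0 (Q r) (η * z) ≤ C * hs 0 (Q r) z := by
  obtain ⟨B, hB⟩ := (isCompact_Kc r).exists_bound_of_continuousOn
    (f := fun y => η y ^ 2) (hη.continuous.pow 2).continuousOn
  exact ⟨max B 0, le_max_right _ _, fun z hz => boot2_mul hR hη.contDiffOn hz fun y hy =>
    ((le_abs_self _).trans (hB y (Q_sub_Kc r hy))).trans (le_max_left _ _)⟩

theorem boot2_pd (hη : ContDiff ℝ ∞ η) (i : Fin 4) : ContDiff ℝ ∞ (pd i η) :=
  contDiffOn_univ.1 (sm_pd isOpen_univ hη.contDiffOn i)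

theorem boot2_ev0 (hs' : tsupport η ⊆ Q r) {y : E4} (hy : y ∉ Q r) (z : Fn) :
    η * z =ᶠ[𝓝 y] 0 := by
  filter_upwards [notMem_tsupport_iff_eventuallyEq.1 fun h => hy (hs' h)] with x hx
  simp [hx]

theorem boot2_ev {f : Fn} {y : E4} (h : f =ᶠ[𝓝 y] 0) (i : Fin 4) : pd i f =ᶠ[𝓝 y] 0 :=
  h.eventuallyEq_nhds.mono fun x hx => (pd_congr hx i).trans (congrFun (pd_const 0 i) x)

theorem boot2_leib {f g : Fn} (hf : ContDiffOn ℝ ∞ f (Q R)) (hg : ContDiffOn ℝ ∞ g (Q R))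
    (i : Fin 4) : EqOn (pd i (f * g)) (pd i f * g + f * pd i g) (Q R) := fun _ hy =>
  pd_mul (sm_diff (isOpen_Q R) hf hy) (sm_diff (isOpen_Q R) hg hy) i

theorem boot2_term (hη : ContDiff ℝ ∞ η) (hr : 0 < r) (hR : r < R) {m : ℕ} (hm : 4 ≤ m) :
    ∃ C, 0 ≤ C ∧ ∀ (a u : Fn) (X : ℝ), ContDiffOn ℝ ∞ a (Q R) → ContDiffOn ℝ ∞ u (Q R) →
      hs 0 (Q r) u ≤ X → hs 0 (Q r) (a * (η * u)) ≤ C * (hs m (Q r) a * X) := by
  obtain ⟨C, hC0, hC⟩ := boot2_cut hη hR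
  obtain ⟨D, hD0, hD⟩ := xD1 hr
  refine ⟨D * C, mul_nonneg hD0 hC0, fun a u X ha hu hX => ?_⟩
  have h1 := boot2_mul hR ha (hη.contDiffOn.mul hu) fun y hy =>
    (hD R a hR ha y hy).trans (mul_le_mul_of_nonneg_left (hs_mono hm _ _) hD0)
  have h2 := (hC u hu).trans (mul_le_mul_of_nonneg_left hX hC0)
  refine (h1.trans (mul_le_mul_of_nonneg_left h2 (mul_nonneg hD0 (hs_nonneg _ _ _)))).trans_eq ?_
  ring

/-- The integrand vanishes outside `tsupport η ⊆ Q r`; `η` is bounded. -/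
theorem cut_int0 (hη : ContDiff ℝ ∞ η) (hc : HasCompactSupport η) (hs' : tsupport η ⊆ Q r)
    (hR : r < R) : ∃ C, 0 ≤ C ∧ ∀ z : Fn, ContDiffOn ℝ ∞ z (Q R) →
      ∫ y, (η * z) y ^ 2 ≤ C * hs 0 (Q r) z := by
  obtain ⟨C, h0, hC⟩ := boot2_cut hη hR
  refine ⟨C, h0, fun z hz => ?_⟩
  rw [boot2_red fun y hy => (boot2_ev0 hs' hy z).eq_of_nhds]
  exact hC z hz

/-- `pd i (η z) = pd i η * z + η * pd i z`; `pd i η` has the same properties as `η`. -/
theorem cut_int1 (hη : ContDiff ℝ ∞ η) (hc : HasCompactSupport η) (hs' : tsupport η ⊆ Q r)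
    (hR : r < R) (i : Fin 4) : ∃ C, 0 ≤ C ∧ ∀ z : Fn, ContDiffOn ℝ ∞ z (Q R) →
      ∫ y, pd i (η * z) y ^ 2 ≤ C * hs 1 (Q r) z := by
  obtain ⟨C, h0, hC⟩ := boot2_cut hη hR
  obtain ⟨D, h1, hD⟩ := boot2_cut (boot2_pd hη i) hR
  refine ⟨2 * D + 2 * C, by positivity, fun z hz => ?_⟩
  have hz' := sm_pd (isOpen_Q R) hz i
  rw [boot2_red fun y hy => (boot2_ev (boot2_ev0 hs' hy z) i).eq_of_nhds,
    hs_congr (isOpen_Q r) 0 ((boot2_leib hη.contDiffOn hz i).mono (Q_mono hR.le))]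
  have e1 := hs_add2 hR 0 (f := pd i η * z) (g := η * pd i z)
    ((boot2_pd hη i).contDiffOn.mul hz) (hη.contDiffOn.mul hz')
  have e2 := (hD z hz).trans (mul_le_mul_of_nonneg_left (hs_le_succ 0 _ _) h1)
  have e3 := (hC _ hz').trans (mul_le_mul_of_nonneg_left (hs_pd 0 _ z i) h0)
  rw [zero_add] at e2 e3
  linarith

/-- On `Q R`, with `v = pdw w z`: `pd i (pd k (η v)) = η pd i (pd k v) + pd i η pd k v +
pd k η pd i v + pd i (pd k η) v`, `pd i (pd k v) = pdw w (pd i (pd k z))` (`pdw_pd`), and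
`a pdw w z2 - pdw w (a z2)` is bounded by `hs_comm` with `l = 0`, `m = w.length + 1`
(`w` is nonempty, `z2 = pd i (pd k z)`, `hs_pd` twice). The factor `a` of the other terms is bounded
on `Q r` by `xD1`. Outside `tsupport η` the integrand vanishes. -/
theorem cut_comm (hη : ContDiff ℝ ∞ η) (hc : HasCompactSupport η) (hs' : tsupport η ⊆ Q r)
    (hr : 0 < r) (hR : r < R) (w : List (Fin 4)) (hw : 7 ≤ w.length) (i k : Fin 4) :
    ∃ C, 0 ≤ C ∧ ∀ a z : Fn, ContDiffOn ℝ ∞ a (Q R) → ContDiffOn ℝ ∞ z (Q R) →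
      ∫ y, (a y * pd i (pd k (η * pdw w z)) y - η y * pdw w (a * pd i (pd k z)) y) ^ 2 ≤
        C * hs (w.length + 1) (Q r) a * hs (w.length + 1) (Q r) z := by
  obtain ⟨j, w', rfl⟩ : ∃ j w', w = j :: w' := by
    cases w with
    | nil => simp at hw
    | cons j w' => exact ⟨j, w', rfl⟩
  have hl : (j :: w').length = w'.length + 1 := rfl
  obtain ⟨C, h0, hC⟩ := boot2_cut hη hR
  obtain ⟨D, h1, hD⟩ := hs_comm hr (m := (j :: w').length + 1) (by omega) w' j 0 (by omega)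
  obtain ⟨C1, h2, hC1⟩ := boot2_term (boot2_pd hη i) hr hR (m := (j :: w').length + 1) (by omega)
  obtain ⟨C2, h3, hC2⟩ := boot2_term (boot2_pd hη k) hr hR (m := (j :: w').length + 1) (by omega)
  obtain ⟨C3, h4, hC3⟩ := boot2_term (boot2_pd (boot2_pd hη k) i) hr hR
    (m := (j :: w').length + 1) (by omega)
  refine ⟨4 * (C1 + C2 + C3 + C * D), by positivity, fun a z ha hz => ?_⟩
  have hO := isOpen_Q R
  have hz2 := sm_pd hO (sm_pd hO hz k) i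
  have hD' := hD R a _ hR ha hz2
  have b0 : hs (0 + w'.length) (Q r) (pd i (pd k z)) ≤ hs ((j :: w').length + 1) (Q r) z :=
    ((hs_pd _ _ _ i).trans (hs_pd _ _ _ k)).trans (hs_mono (by omega) _ _)
  have b1 : hs 1 (Q r) (pdw (j :: w') z) ≤ hs ((j :: w').length + 1) (Q r) z :=
    (hs_pdw 1 _ _ _).trans (hs_mono (by omega) _ _)
  have e0 : EqOn (pdw (j :: w') (pd i (pd k z))) (pd i (pd k (pdw (j :: w') z))) (Q R) :=
    (pdw_pd hO (sm_pd hO hz k) i _).trans (pd_congr_on hO (pdw_pd hO hz k _) i)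
  have hv := sm_pdw hO hz (j :: w')
  have hu := sm_pdw hO (ha.mul hz2) (j :: w')
  have hu2 := sm_pdw hO hz2 (j :: w')
  generalize hs ((j :: w').length + 1) (Q r) z = Z at b0 b1 ⊢
  have t5 : 0 ≤ D * hs ((j :: w').length + 1) (Q r) a := mul_nonneg h1 (hs_nonneg _ _ _)
  generalize hs ((j :: w').length + 1) (Q r) = H at hD' hC1 hC2 hC3 t5 ⊢
  generalize pdw (j :: w') z = v at b1 e0 hv ⊢
  generalize pdw (j :: w') (pd i (pd k z)) = u2 at hD' e0 hu2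
  change ContDiffOn ℝ ∞ (pdw (j :: w') (a * pd i (pd k z))) (Q R) at hu
  generalize pdw (j :: w') (a * pd i (pd k z)) = u at hD' hu ⊢
  have hη0 : ContDiffOn ℝ ∞ η (Q R) := hη.contDiffOn
  have hvk := sm_pd hO hv k
  have hvi := sm_pd hO hv i
  have hηk := sm_pd hO hη0 k
  have hηi := sm_pd hO hη0 i
  have e1 : EqOn (fun y => a y * pd i (pd k (η * v)) y - η y * u y)
      ((a * (pd i η * pd k v) + a * (pd k η * pd i v)) +
        (a * (pd i (pd k η) * v) - η * (u - a * u2))) (Q R) := fun y hy => by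
    have e2 := pd_congr_on hO (boot2_leib hη0 hv k) i hy
    rw [pd_add (f := pd k η * v) (g := η * pd k v) (sm_diff hO (hηk.mul hv) hy)
      (sm_diff hO (hη0.mul hvk) hy), boot2_leib hηk hv i hy, boot2_leib hη0 hvk i hy] at e2
    simp only [e2, Pi.add_apply, Pi.mul_apply, Pi.sub_apply, e0 hy]
    ring
  rw [boot2_red (r := r) (F := fun y => a y * pd i (pd k (η * v)) y - η y * u y) fun y hy => by
    have e2 := (boot2_ev (boot2_ev (boot2_ev0 hs' hy v) k) i).eq_of_nhds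
    have e3 := (boot2_ev0 hs' hy u).eq_of_nhds
    simp only [Pi.mul_apply, Pi.zero_apply] at e2 e3
    simp only [e2, e3, mul_zero, sub_zero], hs_congr (isOpen_Q r) 0 (e1.mono (Q_mono hR.le))]
  have s1 : ContDiffOn ℝ ∞ (a * (pd i η * pd k v)) (Q R) := ha.mul (hηi.mul hvk)
  have s2 : ContDiffOn ℝ ∞ (a * (pd k η * pd i v)) (Q R) := ha.mul (hηk.mul hvi)
  have s3 : ContDiffOn ℝ ∞ (a * (pd i (pd k η) * v)) (Q R) := ha.mul ((sm_pd hO hηk i).mul hv)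
  have s5 : ContDiffOn ℝ ∞ (u - a * u2) (Q R) := hu.sub (ha.mul hu2)
  have s4 : ContDiffOn ℝ ∞ (η * (u - a * u2)) (Q R) := hη0.mul s5
  have t1 := hC1 a _ Z ha hvk ((hs_pd 0 _ v k).trans b1)
  have t2 := hC2 a _ Z ha hvi ((hs_pd 0 _ v i).trans b1)
  have t3 := hC3 a _ Z ha hv ((hs_le_succ 0 _ v).trans b1)
  have t4 := (hC _ s5).trans (mul_le_mul_of_nonneg_left
    (hD'.trans (mul_le_mul_of_nonneg_left b0 t5)) h0)
  have t8 := hs_add2 hR 0 (f := a * (pd i η * pd k v) + a * (pd k η * pd i v))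
    (g := a * (pd i (pd k η) * v) - η * (u - a * u2)) (s1.add s2) (s3.sub s4)
  have t9 := hs_add2 hR 0 s1 s2
  have t10 := hs_sub2 hR 0 s3 s4
  refine t8.trans ?_
  linarith

end Pool.Agent.Lib.MP_94aef8_gt.FL
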