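import Pool.Agent.Lib.MP_94aef8_gt.F.LinA

/-! Uniformly elliptic matrices and their small perturbations. -/

open scoped ContDiff Topology
open Matrix Filter Set MeasureTheory

namespace Pool.Agent.Lib.MP_94aef8_gt.FL

variable {G h : Mat} {C : ℝ}

theorem linb_sq_le (u : Fin 4 → ℝ) (i : Fin 4) : u i ^ 2 ≤ u ⬝ᵥ u := by
  have h1 : u i * u i ≤ ∑ k, u k * u k :=
    Finset.single_le_sum (f := fun k => u k * u k) (fun k _ => mul_self_nonneg _)
      (Finset.mem_univ i)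
  rw [sq]
  exact h1

theorem linb_mul {X Y : Mat} {a b : ℝ} (hX : ∀ i j, |X i j| ≤ a) (hY : ∀ i j, |Y i j| ≤ b)
    (i j : Fin 4) : |(X * Y) i j| ≤ 4 * (a * b) := by
  have ha : 0 ≤ a := (abs_nonneg _).trans (hX 0 0)
  rw [Matrix.mul_apply]
  refine (Finset.abs_sum_le_sum_abs _ _).trans ?_
  refine (Finset.sum_le_sum (g := fun _ => a * b) fun k _ => ?_).trans (by simp)
  rw [abs_mul]
  exact mul_le_mul (hX _ _) (hY _ _) (abs_nonneg _) ha

theorem linb_unit (hG : G.PosDef) : IsUnit G.det :=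
  isUnit_iff_ne_zero.2 hG.det_pos.ne'

theorem linb_abs_le_sqrt (h : Mat) (i j : Fin 4) : |h i j| ≤ Real.sqrt (fro h) :=
  Real.abs_le_sqrt (sq_le_fro h i j)

/-- With `u = G⁻¹ v`: `|u|^2 ≤ C u ⬝ G u = C u ⬝ v ≤ C |u| |v|`; take `v` a basis vector. -/
theorem inv_bound (hG : G.PosDef) (hC : Ell C G) (i j : Fin 4) : |G⁻¹ i j| ≤ C := by
  have hp := Ell.pos hG hC
  obtain ⟨u, hu⟩ : ∃ u : Fin 4 → ℝ, u = G⁻¹ *ᵥ Pi.single j 1 := ⟨_, rfl⟩
  have h1 : G *ᵥ u = Pi.single j 1 := by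
    rw [hu, Matrix.mulVec_mulVec, Matrix.mul_nonsing_inv _ (linb_unit hG), Matrix.one_mulVec]
  have h2 : u ⬝ᵥ u ≤ C * u j := by
    have := hC u
    rwa [h1, dotProduct_single, mul_one] at this
  have h3 : u i = G⁻¹ i j := by simp [hu]
  have h4 := linb_sq_le u j
  have h5 := linb_sq_le u i
  have h6 : u j ≤ C := by nlinarith
  rw [← h3]
  exact abs_le_of_sq_le_sq' (by nlinarith) hp.le |> abs_le.2

/-- The eigenvalues are at least `C⁻¹` (`Matrix.IsHermitian.det_eq_prod_eigenvalues`, test `Ell`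
on `eigenvectorBasis`). -/
theorem det_lower (hG : G.PosDef) (hC : Ell C G) : (C ^ 4)⁻¹ ≤ G.det := by
  have hp := Ell.pos hG hC
  have hH := hG.isHermitian
  have h1 : ∀ j, C⁻¹ ≤ hH.eigenvalues j := by
    intro j
    have h2 := hC (hH.eigenvectorBasis j).ofLp
    have h3 : (hH.eigenvectorBasis j).ofLp ⬝ᵥ (hH.eigenvectorBasis j).ofLp = 1 := by
      have h4 := hH.eigenvectorBasis.orthonormal.1 j
      have h5 := EuclideanSpace.real_norm_sq_eq (hH.eigenvectorBasis j)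
      rw [h4] at h5
      simp only [dotProduct, ← sq]
      rw [← h5]
      norm_num
    rw [hH.mulVec_eigenvectorBasis, dotProduct_smul, h3, smul_eq_mul, mul_one] at h2
    rw [inv_le_iff_one_le_mul₀' hp]
    exact h2
  rw [hH.det_eq_prod_eigenvalues]
  calc (C ^ 4)⁻¹ = ∏ _j : Fin 4, C⁻¹ := by simp
    _ ≤ ∏ j, hH.eigenvalues j :=
        Finset.prod_le_prod (fun _ _ => (inv_pos.2 hp).le) fun j _ => h1 j
    _ = _ := by simp

theorem linb_quad {e : ℝ} (he : ∀ i j, |h i j| ≤ e) (v : Fin 4 → ℝ) :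
    -(4 * e * (v ⬝ᵥ v)) ≤ v ⬝ᵥ h *ᵥ v := by
  have h1 : ∀ i j, -(e * ((v i * v i + v j * v j) / 2)) ≤ v i * (h i j * v j) := by
    intro i j
    have h2 := abs_le.1 (he i j)
    nlinarith [mul_nonneg (sub_nonneg.2 h2.2) (sq_nonneg (v i - v j)),
      mul_nonneg (sub_nonneg.2 h2.1) (sq_nonneg (v i + v j))]
  have h3 : ∑ i, ∑ j, -(e * ((v i * v i + v j * v j) / 2)) ≤ ∑ i, ∑ j, v i * (h i j * v j) :=
    Finset.sum_le_sum fun i _ => Finset.sum_le_sum fun j _ => h1 i j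
  simp only [dotProduct, Matrix.mulVec, Fin.sum_univ_four] at h3 ⊢
  linarith

/-- `|v ⬝ h v| ≤ 4 e |v|^2` if all entries are bounded by `e`. -/
theorem posDef_add (hG : G.PosDef) (hC : Ell C G) (hs : hᵀ = h)
    (he : ∀ i j, |h i j| ≤ 1 / (8 * C)) : (G + h).PosDef ∧ Ell (2 * C) (G + h) := by
  have hp := Ell.pos hG hC
  have hE : Ell (2 * C) (G + h) := by
    intro v
    have h1 := hC v
    have h2 := mul_le_mul_of_nonneg_left (linb_quad he v) hp.le
    have h3 : C * -(4 * (1 / (8 * C)) * (v ⬝ᵥ v)) = -(v ⬝ᵥ v) / 2 := by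
      field_simp
      ring
    rw [Matrix.add_mulVec, dotProduct_add]
    rw [h3] at h2
    linarith
  refine ⟨Matrix.PosDef.of_dotProduct_mulVec_pos (hG.isHermitian.add ?_) fun v hv => ?_, hE⟩
  · rw [Matrix.IsHermitian, Matrix.conjTranspose_eq_transpose_of_trivial, hs]
  · have h1 := hE v
    obtain ⟨i, hi⟩ := Function.ne_iff.1 hv
    have h2 : 0 < v ⬝ᵥ v := lt_of_lt_of_le (sq_pos_of_ne_zero hi) (linb_sq_le v i)
    rw [star_trivial]
    exact (mul_pos_iff_of_pos_left (by positivity)).1 (h2.trans_le h1)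

/-- `(G + h)⁻¹ - G⁻¹ = - G⁻¹ h (G + h)⁻¹`, sixteen terms. -/
theorem inv_diff_bound (hG : G.PosDef) (hC : Ell C G) (hs : hᵀ = h) {e : ℝ} (he1 : e ≤ 1 / (8 * C))
    (he : ∀ i j, |h i j| ≤ e) (i j : Fin 4) : |((G + h)⁻¹ - G⁻¹) i j| ≤ 32 * C ^ 2 * e := by
  obtain ⟨h1, h2⟩ := posDef_add hG hC hs fun i j => (he i j).trans he1
  have h3 : (G + h)⁻¹ - G⁻¹ = -(G⁻¹ * h * (G + h)⁻¹) := by
    have h4 : G⁻¹ * h = G⁻¹ * (G + h) - 1 := by
      rw [mul_add, Matrix.nonsing_inv_mul _ (linb_unit hG)]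
      abel
    rw [h4, sub_mul, mul_assoc, Matrix.mul_nonsing_inv _ (linb_unit h1), mul_one, one_mul]
    abel
  rw [h3, Matrix.neg_apply, abs_neg]
  refine (linb_mul (linb_mul (inv_bound hG hC) he) (inv_bound h1 h2) i j).trans (le_of_eq ?_)
  ring

/-- Upper bound: expand the trace and use `inv_bound`. Lower bound: with `B` of `ipM_eq` and
`A = B h Bᵀ` one has `h = (G Bᵀ) A (G Bᵀ)ᵀ`, and `(G Bᵀ) (G Bᵀ)ᵀ = G`, so that the entries of
`G Bᵀ` have squares at most `C0`. -/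
theorem ipM_cmp (C0 : ℝ) : ∃ K > 0, ∀ G h : Mat, G.PosDef → Ell C0 G → (∀ i j, |G i j| ≤ C0) →
    ipM G h h ≤ K * fro h ∧ fro h ≤ K * ipM G h h := by
  refine ⟨4096 * C0 ^ 2 + 1, by positivity, fun G h hG hC hB => ⟨?_, ?_⟩⟩
  · have h0 := fro_nonneg h
    have h1 := linb_mul (linb_mul (linb_mul (inv_bound hG hC) (linb_abs_le_sqrt h))
      (inv_bound hG hC)) (Y := hᵀ) fun i j => linb_abs_le_sqrt h j i
    have h2 : 4 * (4 * (4 * (C0 * √(fro h)) * C0) * √(fro h)) = 64 * C0 ^ 2 * fro h := by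
      have := Real.mul_self_sqrt h0
      linear_combination 64 * C0 ^ 2 * this
    rw [h2] at h1
    have h3 : ipM G h h ≤ ∑ _i : Fin 4, 64 * C0 ^ 2 * fro h := by
      unfold ipM Matrix.trace
      exact Finset.sum_le_sum fun i _ => (le_abs_self _).trans (h1 i i)
    simp only [Fin.sum_univ_four] at h3
    nlinarith [mul_nonneg (sq_nonneg C0) h0]
  · have hp := Ell.pos hG hC
    obtain ⟨B, -, h1, h2⟩ := ipM_eq hG
    have hT : Gᵀ = G := by
      have := hG.isHermitian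
      rwa [Matrix.IsHermitian, Matrix.conjTranspose_eq_transpose_of_trivial] at this
    have hA : ipM G h h = fro (B * h * Bᵀ) := by
      rw [h2, fro]
      simp only [sq]
    have h3 : G * Bᵀ * B = 1 := by
      rw [mul_assoc, ← h1, Matrix.mul_nonsing_inv _ (linb_unit hG)]
    have h4 : Bᵀ * (G * Bᵀ)ᵀ = 1 := by
      rw [Matrix.transpose_mul, Matrix.transpose_transpose, hT, ← mul_assoc, ← h1,
        Matrix.nonsing_inv_mul _ (linb_unit hG)]
    have h5 : G * Bᵀ * (G * Bᵀ)ᵀ = G := by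
      rw [mul_assoc, h4, mul_one]
    have h6 : G * Bᵀ * (B * h * Bᵀ) * (G * Bᵀ)ᵀ = h := by
      calc _ = G * Bᵀ * B * h * (Bᵀ * (G * Bᵀ)ᵀ) := by simp only [mul_assoc]
        _ = h := by rw [h3, h4, one_mul, mul_one]
    have h7 : ∀ i a, |(G * Bᵀ) i a| ≤ √C0 := by
      intro i a
      refine Real.abs_le_sqrt ((linb_sq_le (fun a => (G * Bᵀ) i a) a).trans ?_)
      have h8 : (fun a => (G * Bᵀ) i a) ⬝ᵥ (fun a => (G * Bᵀ) i a) = G i i := by
        conv_rhs => rw [← h5]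
        rw [Matrix.mul_apply]
        rfl
      rw [h8]
      exact (le_abs_self _).trans (hB i i)
    have h0 := fro_nonneg (B * h * Bᵀ)
    have h9 := linb_mul (linb_mul h7 (linb_abs_le_sqrt (B * h * Bᵀ))) (Y := (G * Bᵀ)ᵀ)
      fun i j => h7 j i
    rw [h6] at h9
    have h10 : ∀ i j, h i j ^ 2 ≤ 256 * C0 ^ 2 * fro (B * h * Bᵀ) := by
      intro i j
      have h11 := pow_le_pow_left₀ (abs_nonneg _) (h9 i j) 2
      rw [sq_abs] at h11
      refine h11.trans (le_of_eq ?_)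
      calc _ = 256 * (√C0 ^ 2) ^ 2 * √(fro (B * h * Bᵀ)) ^ 2 := by ring
        _ = _ := by rw [Real.sq_sqrt hp.le, Real.sq_sqrt h0]
    have h12 : fro h ≤ ∑ _i : Fin 4, ∑ _j : Fin 4, 256 * C0 ^ 2 * fro (B * h * Bᵀ) :=
      Finset.sum_le_sum fun i _ => Finset.sum_le_sum fun j _ => h10 i j
    simp only [Fin.sum_univ_four] at h12
    rw [hA]
    nlinarith

end Pool.Agent.Lib.MP_94aef8_gt.FL
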