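import Pool.Agent.Lib.MP_94aef8_gt.F.Boot2
import Pool.Agent.Lib.MP_94aef8_gt.F.LinB

/-! Bounds for all derivatives of the iteration. -/

open scoped ContDiff Topology
open Matrix Filter Set MeasureTheory

namespace Pool.Agent.Lib.MP_94aef8_gt.FL

open E2

/-- The principal part with coefficients `a`. -/
noncomputable def prin (a u : Tn) : Tn :=
  fun y => Matrix.of fun i j => ∑ b, ∑ c, a y b c * pd b (pd c fun z => u z i j) y

theorem boot_seq {x : ℕ → ℝ} {K : ℝ} (h : ∀ k, x (k + 1) ≤ x k / 2 + K) :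
    ∃ B, ∀ k, x k ≤ B := by
  refine ⟨max (x 0) (2 * K), fun k => ?_⟩
  induction k with
  | zero => exact le_max_left _ _
  | succ k ih => linarith [h k, le_max_right (x 0) (2 * K)]

theorem boot3_congr {U : Set E4} (hU : IsOpen U) {f g : Fn} (h : EqOn f g U) (w : List (Fin 4)) :
    EqOn (pdw w f) (pdw w g) U := by
  induction w with
  | nil => exact h
  | cons i w ih => exact pd_congr_on hU ih i

theorem boot3_add {U : Set E4} (hU : IsOpen U) {f g : Fn} (hf : ContDiffOn ℝ ∞ f U)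
    (hg : ContDiffOn ℝ ∞ g U) (w : List (Fin 4)) :
    EqOn (pdw w (f + g)) (pdw w f + pdw w g) U := by
  induction w with
  | nil => exact fun _ _ => rfl
  | cons i w ih =>
    exact (pd_congr_on hU ih i).trans fun y hy =>
      pd_add (sm_diff hU (sm_pdw hU hf w) hy) (sm_diff hU (sm_pdw hU hg w) hy) i

theorem boot3_zero (w : List (Fin 4)) : pdw w (0 : Fn) = 0 := by
  induction w with
  | nil => rfl
  | cons i w ih =>
    rw [pdw, ih]
    exact pd_const 0 i

theorem boot3_sm {U : Set E4} {ι : Type} (s : Finset ι) {g : ι → Fn}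
    (hg : ∀ i, ContDiffOn ℝ ∞ (g i) U) : ContDiffOn ℝ ∞ (∑ i ∈ s, g i) U := by
  rw [Finset.sum_fn]
  exact ContDiffOn.sum fun i _ => hg i

theorem boot3_sum {U : Set E4} (hU : IsOpen U) {ι : Type} (s : Finset ι) {g : ι → Fn}
    (hg : ∀ i, ContDiffOn ℝ ∞ (g i) U) (w : List (Fin 4)) :
    ∀ y ∈ U, pdw w (∑ i ∈ s, g i) y = ∑ i ∈ s, pdw w (g i) y := by
  classical
  induction s using Finset.induction_on with
  | empty => simp [boot3_zero]
  | insert i s hi ih =>
    intro y hy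
    rw [Finset.sum_insert hi, Finset.sum_insert hi, boot3_add hU (hg i) (boot3_sm s hg) w hy,
      Pi.add_apply, ih y hy]

theorem boot3_det {U : Set E4} {h : Tn} (hh : SmT h U) : ContDiffOn ℝ ∞ (fun y => (h y).det) U := by
  simp only [Matrix.det_apply']
  exact ContDiffOn.sum fun σ _ => contDiffOn_const.mul (contDiffOn_prod fun i _ => hh _ _)

theorem boot3_inv {U : Set E4} {G : Tn} (hG : Good G U) (i j : Fin 4) :
    ContDiffOn ℝ ∞ (fun y => (G y)⁻¹ i j) U := by
  simp only [Matrix.inv_def, Matrix.smul_apply, smul_eq_mul, Ring.inverse_eq_inv',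
    Matrix.adjugate_apply]
  refine ((boot3_det hG.smooth).inv fun y hy => (hG.pos y hy).det_pos.ne').mul
    (boot3_det (h := fun y => (G y).updateRow j (Pi.single i 1)) fun k l => ?_)
  by_cases e : k = j
  · subst e
    simp only [Matrix.updateRow_self]
    exact contDiffOn_const
  · simp only [Matrix.updateRow_ne e]
    exact hG.smooth k l

theorem boot3_int {S U : Set E4} (hS : IsCompact S) (hU : S ⊆ U) {f : Fn} (hf : ContinuousOn f U)
    (h0 : ∀ y ∉ S, f y = 0) : Integrable fun y => f y ^ 2 :=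
  (((hf.mono hU).pow 2).integrableOn_compact hS).integrable_of_forall_notMem_eq_zero
    fun y hy => by simp [h0 y hy]

theorem boot3_off {η : Fn} (z : Fn) (i j : Fin 4) {y : E4} (hy : y ∉ tsupport η) :
    pd i (pd j (η * z)) y = 0 := by
  have h1 : EqOn (η * z) (fun _ => 0) (tsupport η)ᶜ := fun x hx => by
    rw [Pi.mul_apply, image_eq_zero_of_notMem_tsupport hx, zero_mul]
  have hU : IsOpen (tsupport η)ᶜ := (isClosed_tsupport η).isOpen_compl
  have h2 := pd_congr_on hU h1 j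
  rw [pd_const] at h2
  have h3 := pd_congr_on hU h2 i hy
  rw [h3]
  exact congrFun (pd_const 0 i) y

theorem boot3_sq (t : Fin 4 → Fin 4 → ℝ) : (∑ i, ∑ j, t i j) ^ 2 ≤ 16 * ∑ i, ∑ j, t i j ^ 2 := by
  have h := sq_sum_le_card_mul_sum_sq (s := (Finset.univ : Finset (Fin 4 × Fin 4)))
    (f := fun p => t p.1 p.2)
  rw [Fintype.sum_prod_type, Fintype.sum_prod_type] at h
  norm_num at h
  exact h

/-- The integral of the square of a sum of four groups of terms. -/
theorem boot3_main {L f : Fn} {A M B p : Fin 4 → Fin 4 → Fn} {e : ℝ}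
    (hL : ∀ y, L y = (∑ i, ∑ j, A i j y) + f y - (∑ i, ∑ j, M i j y) + ∑ i, ∑ j, B i j y)
    (hM : ∀ i j y, M i j y ^ 2 ≤ e ^ 2 * p i j y ^ 2)
    (iA : ∀ i j, Integrable fun y => A i j y ^ 2) (iB : ∀ i j, Integrable fun y => B i j y ^ 2)
    (ip : ∀ i j, Integrable fun y => p i j y ^ 2) (jf : Integrable fun y => f y ^ 2) :
    ∫ y, L y ^ 2 ≤ 64 * (∑ i, ∑ j, ∫ y, A i j y ^ 2) + 4 * (∫ y, f y ^ 2) +
      64 * e ^ 2 * (∑ i, ∑ j, ∫ y, p i j y ^ 2) + 64 * ∑ i, ∑ j, ∫ y, B i j y ^ 2 := by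
  have h1 : ∀ {T : Fin 4 → Fin 4 → Fn}, (∀ i j, Integrable fun y => T i j y ^ 2) →
      (Integrable fun y => ∑ i, ∑ j, T i j y ^ 2) ∧
        ∫ y, ∑ i, ∑ j, T i j y ^ 2 = ∑ i, ∑ j, ∫ y, T i j y ^ 2 := by
    intro T hT
    have h2 := fun i => integrable_finsetSum Finset.univ fun j _ => hT i j
    refine ⟨integrable_finsetSum _ fun i _ => h2 i, ?_⟩
    rw [integral_finsetSum _ fun i _ => h2 i]
    exact Finset.sum_congr rfl fun i _ => integral_finsetSum _ fun j _ => hT i j
  have j1 := (h1 iA).1.const_mul 64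
  have j2 := jf.const_mul 4
  have j3 := (h1 ip).1.const_mul (64 * e ^ 2)
  have j4 := (h1 iB).1.const_mul 64
  rw [← (h1 iA).2, ← (h1 iB).2, ← (h1 ip).2, ← integral_const_mul, ← integral_const_mul,
    ← integral_const_mul, ← integral_const_mul, ← integral_add' j1 j2,
    ← integral_add' (j1.add j2) j3, ← integral_add' ((j1.add j2).add j3) j4]
  refine integral_mono_of_nonneg (Eventually.of_forall fun y => sq_nonneg _)
    (((j1.add j2).add j3).add j4) (Eventually.of_forall fun y => ?_)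
  have q1 := boot3_sq fun i j => A i j y
  have q2 := boot3_sq fun i j => M i j y
  have q3 := boot3_sq fun i j => B i j y
  have q4 : ∑ i, ∑ j, M i j y ^ 2 ≤ e ^ 2 * ∑ i, ∑ j, p i j y ^ 2 := by
    simp only [Finset.mul_sum]
    exact Finset.sum_le_sum fun i _ => Finset.sum_le_sum fun j _ => hM i j y
  have q5 : ∀ a b c d : ℝ, (a + b - c + d) ^ 2 ≤ 4 * (a ^ 2 + b ^ 2 + c ^ 2 + d ^ 2) := by
    intro a b c d
    nlinarith [sq_nonneg (a - b), sq_nonneg (a + c), sq_nonneg (a - d), sq_nonneg (b + c),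
      sq_nonneg (b - d), sq_nonneg (c + d)]
  have q6 := q5 (∑ i, ∑ j, A i j y) (f y) (∑ i, ∑ j, M i j y) (∑ i, ∑ j, B i j y)
  simp only [Pi.add_apply]
  rw [hL]
  linarith

/-- One scalar component, one word. With `v k = η * pdw w (z k)` and
`x k = ∑ b c, ∫ (pd b (pd c (v k))) ^ 2`, `xD4` bounds `x (k + 1)` by the integral of
`(∑ G⁻¹ b c * pd b (pd c (v (k + 1)))) ^ 2` and `cut_int1`. By `cut_comm` (for the entries of
`G⁻¹`, one fixed smooth field on `Q R`, and for those of `b k`) and the equation differentiated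
along `w` (`pdw` is additive on smooth functions), this function is
`η * pdw w (F k) - ∑ b k b c * pd b (pd c (v k))` up to terms with bounded integrals of squares. All
functions are continuous with compact support. With `|b k| ≤ e` on the support the main term is
at most `16 e ^ 2 x k` (Cauchy-Schwarz); choose `e` with `64 C e ^ 2 ≤ 1 / 2` or so; `boot_seq`. -/
theorem boot_word (C0 : ℝ) : ∃ e > 0, ∀ (G : Tn) (b : ℕ → Tn) (z F : ℕ → Fn) (η : Fn) (r R K : ℝ)
    (w : List (Fin 4)), GoodB C0 G → 0 < r → r < R → R ≤ 3 → 7 ≤ w.length →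
    ContDiff ℝ ∞ η → HasCompactSupport η → tsupport η ⊆ Q r →
    (∀ k, SmT (b k) (Q R)) → (∀ k, ContDiffOn ℝ ∞ (z k) (Q R)) →
    (∀ k, ContDiffOn ℝ ∞ (F k) (Q R)) →
    (∀ k, ∀ y ∈ Q R, ∑ i, ∑ j, (G y)⁻¹ i j * pd i (pd j (z (k + 1))) y =
      F k y - ∑ i, ∑ j, b k y i j * pd i (pd j (z k)) y) →
    (∀ k, ∀ y ∈ Q R, ∀ i j, |b k y i j| ≤ e) →
    (∀ k, hs (w.length + 1) (Q r) (z k) ≤ K ∧ hsM (w.length + 1) (Q r) (b k) ≤ K ∧
      hs w.length (Q r) (F k) ≤ K) →
    ∃ B, ∀ k i j, ∫ y, pd i (pd j (η * pdw w (z k))) y ^ 2 ≤ B := by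
  obtain ⟨C, hC, hD⟩ := xD4 C0
  refine ⟨1 / (12 * (C + 1)), by positivity, ?_⟩
  intro G b z F η r R K w hG hr hR h3 hw hη hc hs' hb hz hF heq hbe hK
  have he : C * (64 * (1 / (12 * (C + 1))) ^ 2) ≤ 1 / 2 := by
    rw [div_pow, mul_pow, ← mul_div_assoc, ← mul_div_assoc, div_le_iff₀ (by positivity)]
    nlinarith
  generalize 1 / (12 * (C + 1)) = e at he hbe
  have hU := isOpen_Q R
  have hsR : tsupport η ⊆ Q R := hs'.trans (Q_mono hR.le)
  have hK0 : 0 ≤ K := (hs_nonneg _ _ _).trans (hK 0).1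
  have hH : ∀ i j, ContDiffOn ℝ ∞ (fun y => (G y)⁻¹ i j) (Q R) := fun i j =>
    (boot3_inv hG.good i j).mono (Q_mono h3)
  choose C1 hC1 h1 using cut_comm hη hc hs' hr hR w hw
  obtain ⟨C2, hC2, h2⟩ := cut_int0 hη hc hs' hR
  choose C3 hC3 h3' using cut_int1 hη hc hs' hR
  have hv : ∀ k, ContDiff ℝ ∞ (η * pdw w (z k)) := fun k =>
    cut_smooth hU hη hsR (sm_pdw hU (hz k) w)
  have hpp : ∀ k i j, ContDiffOn ℝ ∞ (pd i (pd j (η * pdw w (z k)))) (Q R) := fun k i j =>
    sm_pd hU (sm_pd hU (hv k).contDiffOn j) i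
  have hzz : ∀ k i j, ContDiffOn ℝ ∞ (pd i (pd j (z k))) (Q R) := fun k i j =>
    sm_pd hU (sm_pd hU (hz k) j) i
  have icomm : ∀ (a : Fn) k i j, ContDiffOn ℝ ∞ a (Q R) → Integrable fun y =>
      (a y * pd i (pd j (η * pdw w (z k))) y - η y * pdw w (a * pd i (pd j (z k))) y) ^ 2 := by
    intro a k i j ha
    refine boot3_int hc.isCompact hsR ((ha.mul (hpp k i j)).sub
      (hη.contDiffOn.mul (sm_pdw hU (ha.mul (hzz k i j)) w))).continuousOn fun y hy => ?_
    rw [boot3_off _ i j hy, image_eq_zero_of_notMem_tsupport hy, mul_zero, zero_mul, sub_zero]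
  have ipp : ∀ k i j, Integrable fun y => pd i (pd j (η * pdw w (z k))) y ^ 2 := fun k i j =>
    boot3_int hc.isCompact hsR (hpp k i j).continuousOn fun y hy => boot3_off _ i j hy
  obtain ⟨B, hB⟩ := boot_seq (x := fun k => ∑ i, ∑ j, ∫ y, pd i (pd j (η * pdw w (z k))) y ^ 2)
    (K := C * (64 * (∑ i, ∑ j, C1 i j * hs (w.length + 1) (Q r) (fun y => (G y)⁻¹ i j) * K) +
      4 * (C2 * K) + 64 * (∑ i, ∑ j, C1 i j * K * K) + ∑ i, C3 i * K)) fun k => by
    have a0 := hD G _ hG (hv (k + 1)) hc.mul_right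
      ((tsupport_mul_subset_left.trans hsR).trans (Q_mono h3))
    have a1 := boot3_main (L := fun y => ∑ i, ∑ j,
        (G y)⁻¹ i j * pd i (pd j (η * pdw w (z (k + 1)))) y) (f := η * pdw w (F k))
      (M := fun i j y => b k y i j * pd i (pd j (η * pdw w (z k))) y) (e := e) (fun y => ?_)
      (fun i j y => ?_) (fun i j => icomm _ (k + 1) i j (hH i j))
      (fun i j => icomm _ k i j (hb k i j)) (ipp k) (boot3_int hc.isCompact hsR
        (hη.contDiffOn.mul (sm_pdw hU (hF k) w)).continuousOn fun y hy => by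
          rw [Pi.mul_apply, image_eq_zero_of_notMem_tsupport hy, zero_mul])
    · have a2 : ∑ i, ∑ j, ∫ y, ((G y)⁻¹ i j * pd i (pd j (η * pdw w (z (k + 1)))) y -
          η y * pdw w ((fun y => (G y)⁻¹ i j) * pd i (pd j (z (k + 1)))) y) ^ 2 ≤
          ∑ i, ∑ j, C1 i j * hs (w.length + 1) (Q r) (fun y => (G y)⁻¹ i j) * K :=
        Finset.sum_le_sum fun i _ => Finset.sum_le_sum fun j _ =>
          (h1 i j _ _ (hH i j) (hz (k + 1))).trans (mul_le_mul_of_nonneg_left (hK _).1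
            (mul_nonneg (hC1 i j) (hs_nonneg _ _ _)))
      have a3 : ∑ i, ∑ j, ∫ y, (b k y i j * pd i (pd j (η * pdw w (z k))) y -
          η y * pdw w ((fun y => b k y i j) * pd i (pd j (z k))) y) ^ 2 ≤
          ∑ i, ∑ j, C1 i j * K * K :=
        Finset.sum_le_sum fun i _ => Finset.sum_le_sum fun j _ =>
          (h1 i j _ _ (hb k i j) (hz k)).trans (mul_le_mul (mul_le_mul_of_nonneg_left
            ((hs_le_hsM _ _ _ i j).trans (hK k).2.1) (hC1 i j)) (hK k).1 (hs_nonneg _ _ _)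
            (mul_nonneg (hC1 i j) hK0))
      have a4 : ∫ y, (η * pdw w (F k)) y ^ 2 ≤ C2 * K :=
        (h2 _ (sm_pdw hU (hF k) w)).trans (mul_le_mul_of_nonneg_left
          ((hs_pdw 0 _ _ w).trans (by rw [zero_add]; exact (hK k).2.2)) hC2)
      have a5 : ∑ i, ∫ y, pd i (η * pdw w (z (k + 1))) y ^ 2 ≤ ∑ i, C3 i * K :=
        Finset.sum_le_sum fun i _ => (h3' i _ (sm_pdw hU (hz (k + 1)) w)).trans
          (mul_le_mul_of_nonneg_left ((hs_pdw 1 _ _ w).trans
            (by rw [add_comm]; exact (hK _).1)) (hC3 i))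
      have a6 : 0 ≤ ∑ i, ∑ j, ∫ y, pd i (pd j (η * pdw w (z k))) y ^ 2 :=
        Finset.sum_nonneg fun i _ => Finset.sum_nonneg fun j _ => integral_nonneg fun _ => sq_nonneg _
      have a7 := mul_le_mul_of_nonneg_right he a6
      refine a0.trans ((mul_le_mul_of_nonneg_left (add_le_add (a1.trans (add_le_add (add_le_add
        (add_le_add (mul_le_mul_of_nonneg_left a2 (by norm_num))
        (mul_le_mul_of_nonneg_left a4 (by norm_num))) le_rfl)
        (mul_le_mul_of_nonneg_left a3 (by norm_num)))) a5) hC).trans ?_)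
      linarith
    · have b1 : η y * pdw w (F k) y = η y * ∑ i, ∑ j,
          (pdw w ((fun y => (G y)⁻¹ i j) * pd i (pd j (z (k + 1)))) y +
            pdw w ((fun y => b k y i j) * pd i (pd j (z k))) y) := by
        by_cases hy : y ∈ Q R
        · have c1 := fun i j => (hH i j).mul (hzz (k + 1) i j)
          have c2 := fun i j => (hb k i j).mul (hzz k i j)
          have c3 : EqOn (F k) (∑ i, ∑ j, ((fun y => (G y)⁻¹ i j) * pd i (pd j (z (k + 1))) +
              (fun y => b k y i j) * pd i (pd j (z k)))) (Q R) := fun x hx => by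
            simp only [Finset.sum_apply, Pi.add_apply, Pi.mul_apply, Finset.sum_add_distrib]
            linarith [heq k x hx]
          exact congrArg _ ((boot3_congr hU c3 w hy).trans ((boot3_sum hU _
            (fun i => boot3_sm _ fun j => (c1 i j).add (c2 i j)) w y hy).trans
            (Finset.sum_congr rfl fun i _ => (boot3_sum hU _ (fun j => (c1 i j).add (c2 i j))
              w y hy).trans (Finset.sum_congr rfl fun j _ => boot3_add hU (c1 i j) (c2 i j) w hy))))
        · rw [image_eq_zero_of_notMem_tsupport fun h => hy (hsR h), zero_mul, zero_mul]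
      simp only [Pi.mul_apply, b1, Finset.sum_sub_distrib, Finset.sum_add_distrib, mul_add,
        ← Finset.mul_sum]
      ring
    · by_cases hy : y ∈ Q R
      · rw [mul_pow]
        exact mul_le_mul_of_nonneg_right (sq_le_sq' (abs_le.1 (hbe k y hy i j)).1
          (abs_le.1 (hbe k y hy i j)).2) (sq_nonneg _)
      · simp [boot3_off _ i j fun h => hy (hsR h)]
  refine ⟨B, fun k i j => le_trans ?_ (hB k)⟩
  have n1 : ∀ i j, 0 ≤ ∫ y, pd i (pd j (η * pdw w (z k))) y ^ 2 := fun i j =>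
    integral_nonneg fun _ => sq_nonneg _
  exact (Finset.single_le_sum (fun j _ => n1 i j) (Finset.mem_univ j)).trans
    (Finset.single_le_sum (fun i _ => Finset.sum_nonneg fun j _ => n1 i j) (Finset.mem_univ i))

theorem boot3_fin {n : ℕ} {S : Set E4} {z : ℕ → Fn}
    (h : ∀ w : List (Fin 4), w.length ≤ n → ∃ B, ∀ k, hs 0 S (pdw w (z k)) ≤ B) :
    ∃ B, ∀ k, hs n S (z k) ≤ B := by
  obtain ⟨C, -, hC⟩ := hs_words n
  choose! B hB using h
  obtain ⟨M, hM⟩ := ((List.finite_length_le (Fin 4) n).image B).bddAbove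
  exact ⟨C * M, fun k => hC S (z k) M fun w hw => (hB w hw k).trans (hM ⟨w, hw, rfl⟩)⟩

theorem boot3_cut {η z : Fn} {r R : ℝ} (hη : ContDiff ℝ ∞ η) (hc : HasCompactSupport η)
    (hs' : tsupport η ⊆ Q R) (h1 : ∀ y ∈ Q r, η y = 1) (hz : ContDiffOn ℝ ∞ z (Q R))
    (i j : Fin 4) : hs 0 (Q r) (pd i (pd j z)) ≤ ∫ y, pd i (pd j (η * z)) y ^ 2 := by
  have e : EqOn z (η * z) (Q r) := fun y hy => by rw [Pi.mul_apply, h1 y hy, one_mul]
  rw [hs_congr (isOpen_Q r) 0 (pd_congr_on (isOpen_Q r) (pd_congr_on (isOpen_Q r) e j) i)]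
  have s := sm_pd isOpen_univ (sm_pd isOpen_univ
    (cut_smooth (isOpen_Q R) hη hs' hz).contDiffOn j) i
  have c : HasCompactSupport (pd i (pd j (η * z))) :=
    ((hc.mul_right (f' := z)).fderiv_apply ℝ (bas j)).fderiv_apply ℝ (bas i)
  have s' := (contDiffOn_univ.1 s).continuous
  generalize pd i (pd j (η * z)) = f at s' c ⊢
  have c2 : HasCompactSupport fun y => f y ^ 2 := c.comp_left (g := fun t : ℝ => t ^ 2) (by simp)
  have s2 : Continuous fun y => f y ^ 2 := s'.pow 2
  exact setIntegral_le_integral (s2.integrable_of_hasCompactSupport c2)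
    (.of_forall fun y => sq_nonneg _)

/-- Induction on `j ≥ 10` for the statement: there is `r` with `1 < r ≤ 3 / 2` and a bound of
`hsM j (Q r) (u k)`. Step: `r' = (1 + r) / 2`, `exists_cut`, `hs_words`; words of length at most
`j` by `hs_pdw`, `hs_cube`; a word of length `j + 1` is `i :: i' :: w`, and
`pdw (i :: i' :: w) z = pd i (pd i' (η * pdw w z))` on the open cube `Q r'`; finitely many words
and components (`List.finite_length_eq`, `fam_fin` style). -/
theorem boot (C0 : ℝ) : ∃ e > 0, ∀ (G : Tn) (u b F : ℕ → Tn), GoodB C0 G →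
    (∀ k, SmT (u k) (Q (7 / 4))) → (∀ k, SmT (b k) (Q (7 / 4))) → (∀ k, SmT (F k) (Q (7 / 4))) →
    (∀ k, ∀ y ∈ Q (7 / 4), prin (inv G) (u (k + 1)) y = F k y - prin (b k) (u k) y) →
    (∀ k, ∀ y ∈ Q (7 / 4), ∀ i j, |b k y i j| ≤ e) →
    (∃ K, ∀ k, hsM 10 (Q (3 / 2)) (u k) ≤ K) →
    (∀ j r, 1 < r → r ≤ 3 / 2 → 9 ≤ j → (∃ K, ∀ k, hsM (j + 1) (Q r) (u k) ≤ K) →
      ∃ K, ∀ k, hsM (j + 1) (Q r) (b k) ≤ K ∧ hsM j (Q r) (F k) ≤ K) →
    ∀ j, ∃ K, ∀ k, hsM j (Q 1) (u k) ≤ K := by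
  obtain ⟨e, he, hw⟩ := boot_word C0
  refine ⟨e, he, fun G u b F hG hu hb hF heq hbe h0 hstep j => ?_⟩
  have key : ∀ n : ℕ, ∃ r : ℝ, 1 < r ∧ r ≤ 3 / 2 ∧ ∃ K, ∀ k, hsM (n + 10) (Q r) (u k) ≤ K := by
    intro n
    induction n with
    | zero => exact ⟨3 / 2, by norm_num, le_rfl, h0⟩
    | succ n ih =>
      obtain ⟨r, h1, h2, K, hK⟩ := ih
      obtain ⟨K', hK'⟩ := hstep (n + 9) r h1 h2 (by omega) ⟨K, hK⟩
      have hr : r < 7 / 4 := by linarith
      have hr' : (1 + r) / 2 < r := by linarith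
      obtain ⟨η, hη, hc, hs', hη1⟩ := exists_cut (r' := (1 + r) / 2) (by linarith) hr'
      refine ⟨(1 + r) / 2, by linarith, by linarith, ?_⟩
      have : ∀ p q : Fin 4, ∃ B, ∀ k, hs (n + 1 + 10) (Q ((1 + r) / 2)) (fun y => u k y p q) ≤ B := by
        intro p q
        refine boot3_fin fun w hl => ?_
        rcases hl.lt_or_eq with hl | hl
        · refine ⟨K, fun k => (hs_pdw _ _ _ _).trans ((hs_mono (k := n + 10) (by omega) _ _).trans
            ((hs_cube hr'.le hr _ (hu k p q)).trans ((hs_le_hsM _ _ _ p q).trans (hK k))))⟩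
        · match w, hl with
          | i :: i' :: w, hl =>
            have hl' : w.length = n + 9 := by simp only [List.length_cons] at hl; omega
            obtain ⟨B, hB⟩ := hw G b (fun k y => u k y p q) (fun k y => F k y p q) η r (7 / 4)
              (max K K') w hG (by linarith) hr (by norm_num) (by omega) hη hc hs' hb
              (fun k => hu k p q) (fun k => hF k p q)
              (fun k y hy => congrFun (congrFun (heq k y hy) p) q) hbe fun k => by
                rw [hl']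
                exact ⟨(hs_le_hsM _ _ _ p q).trans ((hK k).trans (le_max_left _ _)),
                  (hK' k).1.trans (le_max_right _ _),
                  (hs_le_hsM _ _ _ p q).trans ((hK' k).2.trans (le_max_right _ _))⟩
            exact ⟨B, fun k => (boot3_cut hη hc (hs'.trans (Q_mono hr.le)) hη1
              (sm_pdw (isOpen_Q _) (hu k p q) w) i i').trans (hB k i i')⟩
      choose B hB using this
      exact ⟨∑ p, ∑ q, B p q, fun k =>
        Finset.sum_le_sum fun p _ => Finset.sum_le_sum fun q _ => hB p q k⟩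
  obtain ⟨r, h1, h2, K, hK⟩ := key j
  exact ⟨K, fun k => (hsM_mono (Nat.le_add_right j 10) _ _).trans
    ((hsM_cube h1.le (by linarith) _ (hu k)).trans (hK k))⟩

end Pool.Agent.Lib.MP_94aef8_gt.FL
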