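import Pool.Agent.Lib.MP_94aef8_gt.F.Patch
import Pool.Agent.Lib.MP_94aef8_gt.E2.Hs

/-! The properties of a patch system for real integrals. -/

open scoped Manifold ContDiff Topology ENNReal
open Matrix Filter Set MeasureTheory

namespace Pool.Agent.Lib.MP_94aef8_gt.FL

variable {M : Type} [TopologicalSpace M] [T2Space M] [CompactSpace M] [ChartedSpace E4 M]
  [IsManifold (𝓡 4) ∞ M] [MeasurableSpace M] [BorelSpace M]

open E2

variable {g : M → Mat} {s : M → ℝ} {ϱ C : ℝ} {A : Type} {Θ : A → E4 → M} {σ : A → ℝ}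

theorem gpt (h : PSys g s ϱ C Θ σ) (a : A) : GPt g s C (Θ a) (σ a) :=
  ⟨h.pt a, h.σpos a, h.σle a, h.good a, h.sle a, h.sge a⟩

theorem zero_mem_Q {r : ℝ} (hr : 0 < r) : (0 : E4) ∈ Q r := fun i => by simpa using hr

theorem s_le (h : PSys g s ϱ C Θ σ) (x : M) : s x ≤ max C 1 := by
  obtain ⟨a, rfl⟩ := h.cover x
  refine (h.sle a 0 (zero_mem_Q (by norm_num))).trans
    ((mul_le_mul_of_nonneg_right (le_max_left C 1) (h.σpos a).le).trans ?_)
  exact mul_le_of_le_one_right (zero_le_one.trans (le_max_right C 1)) (h.σle a)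

/-- `ofReal_integral_eq_lintegral_ofReal`, `integrableOn_Q`. -/
theorem ofReal_patch {π : E4 → M} (hπ : Pt π (Q 3)) {F : M → ℝ} (hF : Continuous F)
    (h0 : ∀ x, 0 ≤ F x) {r : ℝ} (hr : r < 3) :
    ENNReal.ofReal (∫ y in Q r, F (π y)) = ∫⁻ y in Q r, ENNReal.ofReal (F (π y)) :=
  ofReal_integral_eq_lintegral_ofReal
    (integrableOn_Q hr (hF.comp_continuousOn hπ.smooth.continuousOn))
    (Eventually.of_forall fun _ => h0 _)

theorem chain_int (hg : GoodT g) {F : M → ℝ} (c : Continuous F) (p : ∀ x, 0 ≤ F x) :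
    ENNReal.ofReal (∫ x, F x ∂volT g) = ∫⁻ x, ENNReal.ofReal (F x) ∂volT g := by
  simpa only [Measure.restrict_univ] using hg.ofReal_int c p univ

theorem chain_real (h : PSys g s ϱ C Θ σ) (hg : GoodT g) {F₁ F₂ : M → ℝ} (c₁ : Continuous F₁)
    (c₂ : Continuous F₂) (p₁ : ∀ x, 0 ≤ F₁ x) (p₂ : ∀ x, 0 ≤ F₂ x) {L : ℝ} (hL : 0 ≤ L)
    (e : ∀ a, ∫ y in Q 1, F₁ (Θ a y) ≤ L * ∫ y in Q 2, F₂ (Θ a y)) :
    ∫ x, F₁ x ∂volT g ≤ max C 1 * L * ∫ x, F₂ x ∂volT g := by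
  have h0 : 0 ≤ max C 1 := zero_le_one.trans (le_max_right C 1)
  have h1 := h.chain _ _ c₁.measurable.ennreal_ofReal c₂.measurable.ennreal_ofReal
    (ENNReal.ofReal L) fun a => by
      rw [← ofReal_patch (h.pt a) c₁ p₁ (by norm_num), ← ofReal_patch (h.pt a) c₂ p₂ (by norm_num),
        ← ENNReal.ofReal_mul hL]
      exact ENNReal.ofReal_le_ofReal (e a)
  rw [← chain_int hg c₁ p₁, ← chain_int hg c₂ p₂] at h1
  refine (ENNReal.ofReal_le_ofReal_iff (mul_nonneg (mul_nonneg h0 hL) (integral_nonneg p₂))).1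
    (h1.trans ?_)
  rw [ENNReal.ofReal_mul (mul_nonneg h0 hL), ENNReal.ofReal_mul h0]
  gcongr
  exact le_max_left _ _

theorem mult_real (h : PSys g s ϱ C Θ σ) (hg : GoodT g) {F : M → ℝ} (c : Continuous F)
    (p : ∀ x, 0 ≤ F x) (a : A) :
    ∫ y in Q 2, F (Θ a y) ≤ max C 1 * ((ϱ * σ a) ^ 2)⁻¹ * ∫ x, F x ∂volT g := by
  have h0 : 0 ≤ max C 1 * ((ϱ * σ a) ^ 2)⁻¹ :=
    mul_nonneg (zero_le_one.trans (le_max_right C 1)) (by positivity)
  have h1 := h.mult _ c.measurable.ennreal_ofReal a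
  rw [← ofReal_patch (h.pt a) c p (by norm_num), ← chain_int hg c p] at h1
  refine (ENNReal.ofReal_le_ofReal_iff (mul_nonneg h0 (integral_nonneg p))).1 (h1.trans ?_)
  rw [ENNReal.ofReal_mul h0]
  gcongr
  exact le_max_left _ _

/-- `lintegral_liminf_le` for `ENNReal.ofReal (F k x)`, `GoodT.ofReal_int`. -/
theorem fatou (hg : GoodT g) {F : ℕ → M → ℝ} {F₀ : M → ℝ} (c : ∀ k, Continuous (F k))
    (c₀ : Continuous F₀) (p : ∀ k x, 0 ≤ F k x) (e : ∀ x, Tendsto (fun k => F k x) atTop (𝓝 (F₀ x)))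
    {B : ℝ} (hB : ∀ k, ∫ x, F k x ∂volT g ≤ B) : ∫ x, F₀ x ∂volT g ≤ B := by
  have p₀ : ∀ x, 0 ≤ F₀ x := fun x => ge_of_tendsto' (e x) fun k => p k x
  refine (ENNReal.ofReal_le_ofReal_iff ((integral_nonneg (p 0)).trans (hB 0))).1 ?_
  have h1 : ∀ x, ENNReal.ofReal (F₀ x) = liminf (fun k => ENNReal.ofReal (F k x)) atTop :=
    fun x => ((ENNReal.continuous_ofReal.tendsto _).comp (e x)).liminf_eq.symm
  rw [chain_int hg c₀ p₀]
  simp only [h1]
  refine (lintegral_liminf_le fun k => (c k).measurable.ennreal_ofReal).trans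
    (liminf_le_of_frequently_le' (Frequently.of_forall fun k => ?_))
  rw [← chain_int hg (c k) (p k)]
  exact ENNReal.ofReal_le_ofReal (hB k)

/-- `n0 ≤ (max C 1) ^ 2 (s ^ 2)⁻¹ n0`. -/
theorem n0_le_NX2 (h : PSys g s ϱ C Θ σ) (hg : GoodT g) {u : M → Mat} (hu : SmG u) :
    ∫ x, n0 g u x ∂volT g ≤ max C 1 ^ 2 * NX2 g s u := by
  have c1 := (sm_n0 hg hu).continuous
  have c2 : Continuous fun x => (s x ^ 2)⁻¹ * n0 g u x :=
    ((h.cont.pow 2).inv₀ fun x => pow_ne_zero 2 (h.pos x).ne').mul c1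
  have h1 : ∫ x, n0 g u x ∂volT g ≤ max C 1 ^ 2 * ∫ x, (s x ^ 2)⁻¹ * n0 g u x ∂volT g := by
    rw [← integral_const_mul]
    refine integral_mono (hg.integrable c1) ((hg.integrable c2).const_mul _) fun x => ?_
    have h2 : s x ^ 2 ≤ max C 1 ^ 2 := pow_le_pow_left₀ (h.pos x).le (s_le h x) 2
    have h3 : 1 ≤ max C 1 ^ 2 * (s x ^ 2)⁻¹ := by
      rw [← div_eq_mul_inv, one_le_div (pow_pos (h.pos x) 2)]
      exact h2
    simp only [← mul_assoc]
    exact le_mul_of_one_le_left (n0_nonneg hg u x) h3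
  exact h1.trans (mul_le_mul_of_nonneg_left
    (le_add_of_nonneg_right (NY2_nonneg hg h.pos _)) (sq_nonneg _))

/-- `s ^ (4 i + 2) ≤ (max C 1) ^ 18`. -/
theorem NY2_le (h : PSys g s ϱ C Θ σ) (hg : GoodT g) {u : M → Mat} (hu : SmG u) :
    NY2 g s (GP g u) ≤
      max C 1 ^ 18 * ∑ i ∈ Finset.range 5, ∫ x, n0 g ((GP g)^[i + 1] u) x ∂volT g := by
  rw [NY2, Finset.mul_sum]
  refine Finset.sum_le_sum fun i hi => ?_
  have c1 := (sm_n0 hg (smG_iter hg hu (i + 1))).continuous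
  rw [← integral_const_mul, ← Function.iterate_succ_apply]
  refine integral_mono (hg.integrable ((h.cont.pow _).mul c1)) ((hg.integrable c1).const_mul _)
    fun x => mul_le_mul_of_nonneg_right ?_ (n0_nonneg hg _ x)
  have h1 := Finset.mem_range.1 hi
  exact (pow_le_pow_left₀ (h.pos x).le (s_le h x) _).trans
    (pow_le_pow_right₀ (le_max_right C 1) (by omega))

end Pool.Agent.Lib.MP_94aef8_gt.FL
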