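import Pool.Agent.Lib.MP_94aef8_gt.F.Cls
import Pool.Agent.Lib.MP_94aef8_gt.E2.Hs

/-! The class of families whose jets converge at a point. -/

open scoped ContDiff Topology
open Matrix Filter Set MeasureTheory

namespace Pool.Agent.Lib.MP_94aef8_gt.FL

open E2

variable {ι : Type}

/-- The jets of order `m` at `x` of `f (some i)` converge to the jet of `f none`. -/
def CvC (l : Filter ι) (x : E4) (m : ℕ) (f : Option ι → Fn) : Prop :=
  (∀ᶠ i in l, ContDiffAt ℝ m (f (some i)) x) ∧ ContDiffAt ℝ m (f none) x ∧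
    ∀ w : List (Fin 4), w.length ≤ m →
      Tendsto (fun i => pdw w (f (some i)) x) l (𝓝 (pdw w (f none) x))

variable {l : Filter ι} {x : E4} {m n : ℕ} {f g : Option ι → Fn}

theorem pdw_congr {u v : Fn} (e : u =ᶠ[𝓝 x] v) (w : List (Fin 4)) :
    pdw w u =ᶠ[𝓝 x] pdw w v := by
  induction w with
  | nil => exact e
  | cons i w ih => exact ih.eventually_nhds.mono fun y hy => pd_congr hy i

theorem pdw_concat (w : List (Fin 4)) (i : Fin 4) (u : Fn) :
    pdw (w ++ [i]) u = pdw w (pd i u) := by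
  induction w with
  | nil => rfl
  | cons k w ih => exact congrArg (pd k) ih

theorem cv_cd_pd {u : Fn} (h : ContDiffAt ℝ (m + 1 : ℕ) u x) (k : Fin 4) :
    ContDiffAt ℝ m (pd k u) x :=
  (h.fderiv_right (m := m) (by push_cast; exact le_rfl)).clm_apply contDiffAt_const

theorem cv_cd_diff {u : Fn} (h : ContDiffAt ℝ (m + 1 : ℕ) u x) :
    ∀ᶠ y in 𝓝 x, DifferentiableAt ℝ u y :=
  (h.eventually (by simp)).mono fun _ hy => hy.differentiableAt (by simp)

theorem cv_cd_le {u : Fn} (h : ContDiffAt ℝ (m + 1 : ℕ) u x) : ContDiffAt ℝ m u x :=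
  h.of_le (by exact_mod_cast Nat.le_succ m)

theorem cv_pd_add {u v : Fn} (h : ContDiffAt ℝ (m + 1 : ℕ) u x) (h' : ContDiffAt ℝ (m + 1 : ℕ) v x)
    (k : Fin 4) : pd k u + pd k v =ᶠ[𝓝 x] pd k (u + v) := by
  filter_upwards [cv_cd_diff h, cv_cd_diff h'] with y h1 h2
  exact (pd_add h1 h2 k).symm

theorem cv_pd_mul {u v : Fn} (h : ContDiffAt ℝ (m + 1 : ℕ) u x) (h' : ContDiffAt ℝ (m + 1 : ℕ) v x)
    (k : Fin 4) : pd k u * v + u * pd k v =ᶠ[𝓝 x] pd k (u * v) := by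
  filter_upwards [cv_cd_diff h, cv_cd_diff h'] with y h1 h2
  exact (pd_mul h1 h2 k).symm

theorem cv_pd_inv {u : Fn} (h : ContDiffAt ℝ (m + 1 : ℕ) u x) (h0 : u x ≠ 0) (k : Fin 4) :
    -(pd k u * (fun y => (u y)⁻¹) * fun y => (u y)⁻¹) =ᶠ[𝓝 x] pd k fun y => (u y)⁻¹ := by
  filter_upwards [cv_cd_diff h, h.continuousAt.eventually_ne h0] with y h1 h2
  have h3 : HasFDerivAt (fun y => (u y)⁻¹) (-(u y ^ 2)⁻¹ • fderiv ℝ u y) y :=
    (hasDerivAt_inv h2).comp_hasFDerivAt y h1.hasFDerivAt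
  simp only [pd, h3.fderiv, Pi.neg_apply, Pi.mul_apply, _root_.smul_apply, smul_eq_mul]
  field_simp

/-- Only agreement for the members with large index is needed. -/
theorem cv_congr' (h : CvC l x m f) (e : ∀ᶠ i in l, f (some i) =ᶠ[𝓝 x] g (some i))
    (e0 : f none =ᶠ[𝓝 x] g none) : CvC l x m g := by
  refine ⟨?_, h.2.1.congr_of_eventuallyEq e0.symm, fun w hw => ?_⟩
  · filter_upwards [h.1, e] with i h1 h2
    exact h1.congr_of_eventuallyEq h2.symm
  · rw [← (pdw_congr e0 w).self_of_nhds]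
    exact (h.2.2 w hw).congr' (e.mono fun i hi => (pdw_congr hi w).self_of_nhds)

theorem cv_zero_iff : CvC l x 0 f ↔ (∀ᶠ i in l, ContDiffAt ℝ (0 : ℕ) (f (some i)) x) ∧
    ContDiffAt ℝ (0 : ℕ) (f none) x ∧ Tendsto (fun i => f (some i) x) l (𝓝 (f none x)) := by
  refine ⟨fun h => ⟨h.1, h.2.1, h.2.2 [] le_rfl⟩, fun h => ⟨h.1, h.2.1, fun w hw => ?_⟩⟩
  obtain rfl : w = [] := List.length_eq_zero_iff.1 (Nat.le_zero.1 hw)
  exact h.2.2

/-- Every nonempty word is `w ++ [i]` (`List.eq_nil_or_concat`). -/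
theorem cv_succ_iff : CvC l x (m + 1) f ↔ (∀ᶠ i in l, ContDiffAt ℝ (m + 1 : ℕ) (f (some i)) x) ∧
    ContDiffAt ℝ (m + 1 : ℕ) (f none) x ∧ Tendsto (fun i => f (some i) x) l (𝓝 (f none x)) ∧
    ∀ k, CvC l x m fun a => pd k (f a) := by
  refine ⟨fun h => ⟨h.1, h.2.1, h.2.2 [] (Nat.zero_le _), fun k =>
    ⟨h.1.mono fun i hi => cv_cd_pd hi k, cv_cd_pd h.2.1 k, fun w hw => ?_⟩⟩,
    fun h => ⟨h.1, h.2.1, fun w hw => ?_⟩⟩
  · have h1 := h.2.2 (w ++ [k]) (by simpa using hw)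
    simpa only [pdw_concat] using h1
  · rcases List.eq_nil_or_concat' w with rfl | ⟨w, k, rfl⟩
    · exact h.2.2.1
    · simpa only [pdw_concat] using (h.2.2.2 k).2.2 w (by simpa using hw)

theorem cv_lev (h : CvC l x (m + 1) f) : CvC l x m f := by
  exact ⟨h.1.mono fun _ hi => cv_cd_le hi, cv_cd_le h.2.1,
    fun w hw => h.2.2 w (hw.trans (Nat.le_succ m))⟩

theorem cv_const (m : ℕ) (c : ℝ) : CvC l x m fun _ _ => c := by
  exact ⟨Eventually.of_forall fun _ => contDiffAt_const, contDiffAt_const,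
    fun _ _ => tendsto_const_nhds⟩

/-- Induction on `m` with `cv_succ_iff` and `cv_congr'`: a function of class `m + 1` at `x` is
differentiable near `x`. -/
theorem cv_add (h : CvC l x m f) (h' : CvC l x m g) : CvC l x m fun a => f a + g a := by
  induction m generalizing f g with
  | zero =>
    rw [cv_zero_iff] at h h' ⊢
    exact ⟨(h.1.and h'.1).mono fun _ hi => hi.1.add hi.2, h.2.1.add h'.2.1, h.2.2.add h'.2.2⟩
  | succ m ih =>
    rw [cv_succ_iff] at h h' ⊢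
    refine ⟨(h.1.and h'.1).mono fun _ hi => hi.1.add hi.2, h.2.1.add h'.2.1,
      h.2.2.1.add h'.2.2.1, fun k => ?_⟩
    exact cv_congr' (ih (h.2.2.2 k) (h'.2.2.2 k))
      ((h.1.and h'.1).mono fun _ hi => cv_pd_add hi.1 hi.2 k) (cv_pd_add h.2.1 h'.2.1 k)

theorem cv_neg (h : CvC l x m f) : CvC l x m fun a => -f a := by
  induction m generalizing f with
  | zero =>
    rw [cv_zero_iff] at h ⊢
    exact ⟨h.1.mono fun _ hi => hi.neg, h.2.1.neg, h.2.2.neg⟩
  | succ m ih =>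
    rw [cv_succ_iff] at h ⊢
    refine ⟨h.1.mono fun _ hi => hi.neg, h.2.1.neg, h.2.2.1.neg, fun k => ?_⟩
    simpa only [pd_neg] using ih (h.2.2.2 k)

theorem cv_mul (h : CvC l x m f) (h' : CvC l x m g) : CvC l x m fun a => f a * g a := by
  induction m generalizing f g with
  | zero =>
    rw [cv_zero_iff] at h h' ⊢
    exact ⟨(h.1.and h'.1).mono fun _ hi => hi.1.mul hi.2, h.2.1.mul h'.2.1, h.2.2.mul h'.2.2⟩
  | succ m ih =>
    have h1 := cv_lev h
    have h2 := cv_lev h'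
    rw [cv_succ_iff] at h h' ⊢
    refine ⟨(h.1.and h'.1).mono fun _ hi => hi.1.mul hi.2, h.2.1.mul h'.2.1,
      h.2.2.1.mul h'.2.2.1, fun k => ?_⟩
    exact cv_congr' (cv_add (ih (h.2.2.2 k) h2) (ih h1 (h'.2.2.2 k)))
      ((h.1.and h'.1).mono fun _ hi => cv_pd_mul hi.1 hi.2 k) (cv_pd_mul h.2.1 h'.2.1 k)

/-- `pd k f⁻¹ = - pd k f * f⁻¹ * f⁻¹` near `x`. -/
theorem cv_inv (h : CvC l x m f) (h0 : f none x ≠ 0) : CvC l x m fun a y => (f a y)⁻¹ := by
  have h1 : ∀ᶠ i in l, f (some i) x ≠ 0 := (h.2.2 [] (Nat.zero_le _)).eventually_ne h0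
  induction m with
  | zero =>
    rw [cv_zero_iff] at h ⊢
    exact ⟨(h.1.and h1).mono fun _ hi => hi.1.inv hi.2, h.2.1.inv h0, h.2.2.inv₀ h0⟩
  | succ m ih =>
    have h2 := ih (cv_lev h)
    rw [cv_succ_iff] at h ⊢
    refine ⟨(h.1.and h1).mono fun _ hi => hi.1.inv hi.2, h.2.1.inv h0, h.2.2.1.inv₀ h0,
      fun k => ?_⟩
    exact cv_congr' (cv_neg (cv_mul (cv_mul (h.2.2.2 k) h2) h2))
      ((h.1.and h1).mono fun _ hi => cv_pd_inv hi.1 hi.2 k) (cv_pd_inv h.2.1 h0 k)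

theorem cv_le (h : CvC l x m f) (hn : n ≤ m) : CvC l x n f := by
  induction hn with
  | refl => exact h
  | step _ ih => exact ih (cv_lev h)

/-- The graded class; the order plays no role. -/
def cv (l : Filter ι) (x : E4) : Cls (Option ι) where
  C := fun m _ f => CvC l x m f
  m0 := 0
  pts := fun _ => {x}
  congr := fun h e => cv_congr' h (Eventually.of_forall fun i => e (some i) x rfl) (e none x rfl)
  const := cv_const
  zero := fun m _ => cv_const m 0
  add := cv_add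
  neg := cv_neg
  mul := fun _ hl h h' => cv_mul (cv_le h hl) h'
  der := fun i h => (cv_succ_iff.1 h).2.2.2 i
  lev := cv_lev

theorem cv_invT {G : Option ι → Tn} (hG : (cv l x).T m 0 G) (h0 : (G none x).det ≠ 0) :
    (cv l x).T m 0 fun a => inv (G a) :=
  hG.inv (Nat.zero_le _) (cv_inv (l := l) (x := x) (m := m) (f := fun a y => (G a y).det)
    (hG.det (Nat.zero_le _)) h0)

theorem cv_mt {G : Option ι → Tn} (hG : (cv l x).T (n + 2) 0 G) (h0 : (G none x).det ≠ 0) :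
    (cv l x).Mt n G := ⟨Nat.zero_le _, hG, cv_invT hG h0⟩

theorem cv_lim {p : ℕ} (h : (cv l x).C m p f) :
    Tendsto (fun i => f (some i) x) l (𝓝 (f none x)) := h.2.2 [] (Nat.zero_le _)

theorem cv_limT {p : ℕ} {h : Option ι → Tn} (hh : (cv l x).T m p h) :
    Tendsto (fun i => h (some i) x) l (𝓝 (h none x)) :=
  tendsto_pi_nhds.2 fun i => tendsto_pi_nhds.2 fun j => cv_lim (hh i j)

theorem cv_fix {u : Fn} (hu : ContDiffAt ℝ m u x) : CvC l x m fun _ => u :=
  ⟨Eventually.of_forall fun _ => hu, hu, fun _ _ => tendsto_const_nhds⟩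

/-- Real numbers that converge. -/
theorem cv_num {c : Option ι → ℝ} (hc : Tendsto (fun i => c (some i)) l (𝓝 (c none))) (m : ℕ) :
    CvC l x m fun a _ => c a := by
  refine ⟨Eventually.of_forall fun _ => contDiffAt_const, contDiffAt_const, fun w _ => ?_⟩
  rcases List.eq_nil_or_concat' w with rfl | ⟨w, k, rfl⟩
  · exact hc
  · simp only [pdw_concat, pd_const]
    exact tendsto_const_nhds

end Pool.Agent.Lib.MP_94aef8_gt.FL
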