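import Pool.Agent.Lib.MP_94aef8_gt.E2.Hs
import Pool.Agent.Lib.MP_94aef8_gt.D.IntM

/-! The estimates on cubes that are used in the blocks F and L. -/

open scoped ContDiff Topology
open Matrix Filter Set MeasureTheory

namespace Pool.Agent.Lib.MP_94aef8_gt.FL

theorem xD1 {r : ℝ} (hr : 0 < r) : ∃ C, 0 ≤ C ∧ ∀ (r' : ℝ) (f : Fn), r < r' →
    ContDiffOn ℝ ∞ f (Q r') → ∀ y ∈ Q r, f y ^ 2 ≤ C * hs 4 (Q r) f := by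
  obtain ⟨C, h0, h⟩ := D.sob_js 0 hr
  exact ⟨C, h0, fun r' f h1 hf y hy => h f (D.so_Kc h1 hf) y (D.Q_sub_Kc r hy)⟩

theorem xD2 {r : ℝ} (hr : 0 < r) {l m : ℕ} (hl : l ≤ m) (hm : 7 ≤ m) : ∃ C, 0 ≤ C ∧ ∀ (r' : ℝ)
    (f k : Fn), r < r' → ContDiffOn ℝ ∞ f (Q r') → ContDiffOn ℝ ∞ k (Q r') →
    hs l (Q r) (f * k) ≤ C * hs m (Q r) f * hs l (Q r) k := by
  obtain ⟨C, h0, h⟩ := D.hs_mul_gen hr l m l hl le_rfl (by omega)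
  exact ⟨C, h0, fun r' f k h1 hf hk => h f k (D.so_Kc h1 hf) (D.so_Kc h1 hk)⟩

theorem xD3 (C0 : ℝ) {m : ℕ} (hm : m ≤ 5) {r r' : ℝ} (_hr : 0 < r) (hr' : r < r') (h3 : r' < 3) :
    ∃ C, 0 ≤ C ∧ ∀ (G h : Tn) (μ : ℝ), GoodB C0 G → 0 ≤ μ → μ ≤ 3 → SmT h (Q 3) →
      hsM (2 * m) (Q r) h ≤ C * ∑ j ∈ Finset.range (m + 1), hsM 0 (Q r') ((Pop μ G)^[j] h) := by
  obtain ⟨C1, h1, h2⟩ := D.co_of_goodB C0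
  obtain ⟨C, h0, h⟩ := D.intK m C1 hr'
  exact ⟨C, h0, fun G u μ hG a b hu => h G u μ
    ((h2 G hG).mono (by omega) (D.Kc_sub_Q h3) le_rfl)
    (abs_le.2 ⟨by linarith, by linarith⟩) (D.soM_Kc h3 hu)⟩

theorem xD4 (C0 : ℝ) : ∃ C, 0 ≤ C ∧ ∀ (G : Tn) (v : Fn), GoodB C0 G →
    ContDiff ℝ ∞ v → HasCompactSupport v → tsupport v ⊆ Q 3 →
    ∑ i, ∑ j, ∫ y, pd i (pd j v) y ^ 2 ≤
      C * ((∫ y, (∑ i, ∑ j, (G y)⁻¹ i j * pd i (pd j v) y) ^ 2) + ∑ i, ∫ y, pd i v y ^ 2) := by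
  obtain ⟨C1, _, h2⟩ := D.co_of_goodB C0
  obtain ⟨C2, h3⟩ := D.co_inv 1 C1
  obtain ⟨C, h0, h⟩ := D.h2 C2
  exact ⟨C, h0.le, fun G v hG a b c => h (Q 3) (inv G) v
    (h3 _ G ((h2 G hG).mono (by omega) Subset.rfl le_rfl)) a b c⟩

end Pool.Agent.Lib.MP_94aef8_gt.FL
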