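import Pool.Agent.Lib.MP_94aef8_gt.E.Main

/-! The solvability theorem that is used in block F. -/

open scoped Manifold ContDiff Topology ENNReal
open Matrix Filter Set MeasureTheory

namespace Pool.Agent.Lib.MP_94aef8_gt.FL

variable {M : Type} [TopologicalSpace M] [T2Space M] [CompactSpace M] [ChartedSpace E4 M]
  [IsManifold (𝓡 4) ∞ M] [MeasurableSpace M] [BorelSpace M]

theorem xE {g : M → Mat} (hg : GoodT g) {S : Set (M → M)} (hS : ∀ F ∈ S, IsoM g F) {Λ : ℝ}
    (hap : ∀ h, InvT S h → ∫ x, n0 g h x ∂volT g ≤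
      Λ * ∑ i ∈ Finset.range 5, ∫ x, n0 g ((GP g)^[i + 1] h) x ∂volT g)
    {f : M → Mat} (hf : InvT S f) : ∃ h, InvT S h ∧ GP g h = f := thmE hg hS hap hf

end Pool.Agent.Lib.MP_94aef8_gt.FL
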