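import Pool.Agent.Lib.MP_94aef8_gt.Cube

/-! The scalar product of bilinear forms defined by a positive definite matrix. -/

open scoped ContDiff Topology
open Matrix Filter Set MeasureTheory

namespace Pool.Agent.Lib.MP_94aef8_gt.FL

/-- The sum of the squares of the entries. -/
def fro (h : Mat) : ℝ := ∑ i, ∑ j, h i j ^ 2

/-- Ellipticity with constant `C`. -/
def Ell (C : ℝ) (G : Mat) : Prop := ∀ v : Fin 4 → ℝ, v ⬝ᵥ v ≤ C * (v ⬝ᵥ G *ᵥ v)

variable {G h k J : Mat} {C : ℝ}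

theorem fro_nonneg (h : Mat) : 0 ≤ fro h :=
  Finset.sum_nonneg fun _ _ => Finset.sum_nonneg fun _ _ => sq_nonneg _

theorem sq_le_fro (h : Mat) (i j : Fin 4) : h i j ^ 2 ≤ fro h := by
  have h1 : h i j ^ 2 ≤ ∑ j, h i j ^ 2 :=
    Finset.single_le_sum (f := fun j => h i j ^ 2) (fun _ _ => sq_nonneg _) (Finset.mem_univ j)
  have h2 : ∑ j, h i j ^ 2 ≤ ∑ i, ∑ j, h i j ^ 2 :=
    Finset.single_le_sum (f := fun i => ∑ j, h i j ^ 2)
      (fun _ _ => Finset.sum_nonneg fun _ _ => sq_nonneg _) (Finset.mem_univ i)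
  exact h1.trans h2

theorem fro_smul (c : ℝ) (h : Mat) : fro (c • h) = c ^ 2 * fro h := by
  simp only [fro, Matrix.smul_apply, smul_eq_mul, mul_pow, Finset.mul_sum]

theorem Ell.pos (hG : G.PosDef) (hC : Ell C G) : 0 < C := by
  have h1 := hC fun _ => 1
  have h2 : (0 : ℝ) ≤ (fun _ : Fin 4 => (1 : ℝ)) ⬝ᵥ G *ᵥ fun _ => 1 := by
    simpa using hG.posSemidef.dotProduct_mulVec_nonneg fun _ => 1
  have h3 : (fun _ : Fin 4 => (1 : ℝ)) ⬝ᵥ (fun _ => 1) = 4 := by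
    simp [dotProduct]
  rw [h3] at h1
  by_contra hn
  have := mul_nonpos_of_nonpos_of_nonneg (not_lt.1 hn) h2
  linarith

open scoped MatrixOrder in
theorem lina_sqrt (hG : G.PosDef) : ∃ B : Mat, B.det ≠ 0 ∧ G = Bᵀ * B := by
  obtain ⟨B, hB⟩ := CStarAlgebra.nonneg_iff_eq_star_mul_self.mp hG.posSemidef.nonneg
  have hB' : G = Bᵀ * B := by
    rw [hB, star_eq_conjTranspose, conjTranspose_eq_transpose_of_trivial]
  refine ⟨B, fun h => ?_, hB'⟩
  have := hG.det_pos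
  rw [hB', det_mul, h, mul_zero] at this
  exact lt_irrefl _ this

theorem lina_tr (X Y : Mat) : (X * Yᵀ).trace = ∑ i, ∑ j, X i j * Y i j := by
  simp only [Matrix.trace, Matrix.diag, Matrix.mul_apply, Matrix.transpose_apply]

/-- Write `G⁻¹ = Bᵀ * B`;
then `ipM G h k = trace ((B h Bᵀ) (B k Bᵀ)ᵀ)`. -/
theorem ipM_eq (hG : G.PosDef) : ∃ B : Mat, B.det ≠ 0 ∧ G⁻¹ = Bᵀ * B ∧
    ∀ h k : Mat, ipM G h k = ∑ i, ∑ j, (B * h * Bᵀ) i j * (B * k * Bᵀ) i j := by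
  obtain ⟨B, hB, hGB⟩ := lina_sqrt hG.inv
  refine ⟨B, hB, hGB, fun h k => ?_⟩
  rw [← lina_tr, ipM, hGB]
  simp only [transpose_mul, transpose_transpose, Matrix.mul_assoc]
  rw [trace_mul_comm]
  simp only [Matrix.mul_assoc]

theorem ipM_nonneg (hG : G.PosDef) (h : Mat) : 0 ≤ ipM G h h := by
  obtain ⟨B, -, -, hB⟩ := ipM_eq hG
  rw [hB]
  exact Finset.sum_nonneg fun _ _ => Finset.sum_nonneg fun _ _ => mul_self_nonneg _

theorem ipM_add_le (hG : G.PosDef) (h k : Mat) :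
    ipM G (h + k) (h + k) ≤ 2 * ipM G h h + 2 * ipM G k k := by
  obtain ⟨B, -, -, hB⟩ := ipM_eq hG
  rw [hB, hB, hB, Matrix.mul_add, Matrix.add_mul]
  generalize B * h * Bᵀ = X
  generalize B * k * Bᵀ = Y
  simp only [Finset.mul_sum, ← Finset.sum_add_distrib, Matrix.add_apply]
  refine Finset.sum_le_sum fun i _ => Finset.sum_le_sum fun j _ => ?_
  nlinarith [sq_nonneg (X i j - Y i j)]

theorem ipM_abs_le (hG : G.PosDef) (h k : Mat) {t : ℝ} (ht : 0 < t) :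
    |ipM G h k| ≤ (t * ipM G h h + t⁻¹ * ipM G k k) / 2 := by
  obtain ⟨B, -, -, hB⟩ := ipM_eq hG
  rw [hB, hB, hB]
  generalize B * h * Bᵀ = X
  generalize B * k * Bᵀ = Y
  simp only [Finset.mul_sum, ← Finset.sum_add_distrib, Finset.sum_div]
  refine (Finset.abs_sum_le_sum_abs _ _).trans (Finset.sum_le_sum fun i _ => ?_)
  refine (Finset.abs_sum_le_sum_abs _ _).trans (Finset.sum_le_sum fun j _ => ?_)
  generalize X i j = x
  generalize Y i j = y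
  have hti : 0 < t⁻¹ := inv_pos.2 ht
  have h1 : t * t⁻¹ = 1 := mul_inv_cancel₀ ht.ne'
  have e1 : t⁻¹ * (t * x - y) ^ 2 = t * (x * x) + t⁻¹ * (y * y) - 2 * (x * y) := by
    linear_combination (t * x * x - 2 * x * y) * h1
  have e2 : t⁻¹ * (t * x + y) ^ 2 = t * (x * x) + t⁻¹ * (y * y) + 2 * (x * y) := by
    linear_combination (t * x * x + 2 * x * y) * h1
  have p1 := mul_nonneg hti.le (sq_nonneg (t * x - y))
  have p2 := mul_nonneg hti.le (sq_nonneg (t * x + y))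
  rw [abs_le]
  constructor <;> linarith

theorem ipM_smul (G : Mat) (c d : ℝ) (h k : Mat) :
    ipM G (c • h) (d • k) = c * d * ipM G h k := by
  simp only [ipM, transpose_smul, Matrix.mul_smul, Matrix.smul_mul, trace_smul, smul_eq_mul]
  ring

theorem ipM_zero (G k : Mat) : ipM G 0 k = 0 := by
  simp [ipM]

/-- Also true for singular `G`. -/
theorem inv_smul' (G : Mat) {c : ℝ} (hc : c ≠ 0) : (c • G)⁻¹ = c⁻¹ • G⁻¹ := by
  by_cases hG : IsUnit G.det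
  · refine Matrix.inv_eq_left_inv ?_
    rw [Matrix.smul_mul, Matrix.mul_smul, nonsing_inv_mul G hG, smul_smul, inv_mul_cancel₀ hc,
      one_smul]
  · have h0 : G.det = 0 := by simpa using hG
    have h1 : ¬ IsUnit (c • G).det := by
      rw [det_smul, h0, mul_zero]
      exact not_isUnit_zero
    rw [nonsing_inv_apply_not_isUnit _ hG, nonsing_inv_apply_not_isUnit _ h1, smul_zero]

theorem ipM_scale (G h k : Mat) {c : ℝ} (hc : c ≠ 0) :
    ipM (c • G) (c • h) (c • k) = ipM G h k := by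
  simp only [ipM, inv_smul' G hc, transpose_smul, Matrix.mul_smul, Matrix.smul_mul, trace_smul,
    smul_eq_mul]
  field_simp

theorem tr_scale (G h : Mat) {c : ℝ} (hc : c ≠ 0) :
    ((c • G)⁻¹ * (c • h)).trace = (G⁻¹ * h).trace := by
  simp only [inv_smul' G hc, Matrix.mul_smul, Matrix.smul_mul, trace_smul, smul_eq_mul]
  field_simp

theorem lina_conj (hJ : J.det ≠ 0) (G h : Mat) :
    (Jᵀ * G * J)⁻¹ * (Jᵀ * h * J) = J⁻¹ * (G⁻¹ * h) * J := by
  have hT : IsUnit Jᵀ.det := by rw [det_transpose]; exact isUnit_iff_ne_zero.2 hJ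
  rw [Matrix.mul_inv_rev, Matrix.mul_inv_rev]
  simp only [Matrix.mul_assoc]
  rw [← Matrix.mul_assoc Jᵀ⁻¹ Jᵀ, nonsing_inv_mul _ hT, Matrix.one_mul]

theorem ipM_conj (hJ : J.det ≠ 0) (G h k : Mat) :
    ipM (Jᵀ * G * J) (Jᵀ * h * J) (Jᵀ * k * J) = ipM G h k := by
  have hU : IsUnit J.det := isUnit_iff_ne_zero.2 hJ
  have e : (Jᵀ * k * J)ᵀ = Jᵀ * kᵀ * J := by
    simp only [transpose_mul, transpose_transpose, Matrix.mul_assoc]
  rw [ipM, ipM, e, Matrix.mul_assoc _ (Jᵀ * G * J)⁻¹, lina_conj hJ, lina_conj hJ]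
  have e2 : J⁻¹ * (G⁻¹ * h) * J * (J⁻¹ * (G⁻¹ * kᵀ) * J) = J⁻¹ * (G⁻¹ * h * G⁻¹ * kᵀ) * J := by
    simp only [Matrix.mul_assoc]
    rw [← Matrix.mul_assoc J J⁻¹, mul_nonsing_inv J hU, Matrix.one_mul]
  rw [e2, trace_mul_cycle, mul_nonsing_inv J hU, Matrix.one_mul]

theorem tr_conj (hJ : J.det ≠ 0) (G h : Mat) :
    ((Jᵀ * G * J)⁻¹ * (Jᵀ * h * J)).trace = (G⁻¹ * h).trace := by
  rw [lina_conj hJ, trace_mul_cycle, mul_nonsing_inv J (isUnit_iff_ne_zero.2 hJ), Matrix.one_mul]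

/-- The trace is the trace of `B h Bᵀ`; Cauchy-Schwarz on the diagonal. -/
theorem tr_sq_le (hG : G.PosDef) (h : Mat) : (G⁻¹ * h).trace ^ 2 ≤ 4 * ipM G h h := by
  obtain ⟨B, -, hGB, hB⟩ := ipM_eq hG
  have e : (G⁻¹ * h).trace = (B * h * Bᵀ).trace := by
    rw [hGB, trace_mul_cycle B h Bᵀ]
  rw [hB, e]
  generalize B * h * Bᵀ = X
  have h1 : ∑ i, X i i * X i i ≤ ∑ i, ∑ j, X i j * X i j :=
    Finset.sum_le_sum fun i _ => Finset.single_le_sum (f := fun j => X i j * X i j)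
      (fun _ _ => mul_self_nonneg _) (Finset.mem_univ i)
  refine le_trans ?_ (mul_le_mul_of_nonneg_left h1 (by norm_num))
  simp only [Matrix.trace, Matrix.diag, Fin.sum_univ_four]
  nlinarith [sq_nonneg (X 0 0 - X 1 1), sq_nonneg (X 0 0 - X 2 2), sq_nonneg (X 0 0 - X 3 3),
    sq_nonneg (X 1 1 - X 2 2), sq_nonneg (X 1 1 - X 3 3), sq_nonneg (X 2 2 - X 3 3)]

end Pool.Agent.Lib.MP_94aef8_gt.FL
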