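import Pool.Agent.Lib.MP_94aef8_gt.F.ExtD
import Pool.Agent.Lib.MP_94aef8_gt.F.LinA

/-! More properties of the Sobolev norms on cubes; inverses. -/

open scoped ContDiff Topology
open Matrix Filter Set MeasureTheory

namespace Pool.Agent.Lib.MP_94aef8_gt.FL

open E2

theorem hs_zero (j : ℕ) (S : Set E4) : hs j S 0 = 0 := by
  have h := hs_smul j S 0 0
  simpa using h

theorem hs_neg (j : ℕ) (S : Set E4) (f : Fn) : hs j S (-f) = hs j S f := by
  have h := hs_smul j S (-1) f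
  simpa using h

theorem hs_add2 {r R : ℝ} (h : r < R) (j : ℕ) {f g : Fn} (hf : ContDiffOn ℝ ∞ f (Q R))
    (hg : ContDiffOn ℝ ∞ g (Q R)) :
    hs j (Q r) (f + g) ≤ 2 * hs j (Q r) f + 2 * hs j (Q r) g := by
  have h1 := hs_add_le h one_pos j hf hg
  norm_num at h1
  exact h1

theorem hs_sub2 {r R : ℝ} (h : r < R) (j : ℕ) {f g : Fn} (hf : ContDiffOn ℝ ∞ f (Q R))
    (hg : ContDiffOn ℝ ∞ g (Q R)) :
    hs j (Q r) (f - g) ≤ 2 * hs j (Q r) f + 2 * hs j (Q r) g := by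
  have h1 := hs_add2 h j hf (g := -g) hg.neg
  rwa [hs_neg, ← sub_eq_add_neg] at h1

theorem hs_cube {r r' R : ℝ} (h : r ≤ r') (h' : r' < R) (j : ℕ) {f : Fn}
    (hf : ContDiffOn ℝ ∞ f (Q R)) : hs j (Q r) f ≤ hs j (Q r') f := by
  have h0 : ∀ {f : Fn}, ContDiffOn ℝ ∞ f (Q R) →
      ∫ y in Q r, f y ^ 2 ≤ ∫ y in Q r', f y ^ 2 := fun hf =>
    setIntegral_mono_set (integrableOn_Q h' (hf.continuousOn.pow 2))
      (Eventually.of_forall fun y => sq_nonneg _) (Q_mono h).eventuallyLE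
  induction j generalizing f with
  | zero => exact h0 hf
  | succ j ih =>
    exact add_le_add (h0 hf) (Finset.sum_le_sum fun i _ => ih (sm_pd (isOpen_Q R) hf i))

theorem hs2_pdw_pd (w : List (Fin 4)) (i : Fin 4) (f : Fn) :
    pdw w (pd i f) = pdw (w ++ [i]) f := by
  induction w with
  | nil => rfl
  | cons a w ih => simp only [pdw, List.cons_append, ih]

theorem hs2_words (j : ℕ) : ∃ C, 0 ≤ C ∧ ∀ (S : Set E4) (f : Fn) (B : ℝ),
    (∀ w : List (Fin 4), w.length ≤ j → hs 0 S (pdw w f) ≤ B) → hs j S f ≤ C * B := by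
  induction j with
  | zero => exact ⟨1, zero_le_one, fun S f B h => by simpa [pdw] using h [] le_rfl⟩
  | succ j ih =>
    obtain ⟨C, hC, h⟩ := ih
    refine ⟨1 + 4 * C, by positivity, fun S f B hB => ?_⟩
    have h0 : ∫ y in S, f y ^ 2 ≤ B := hB [] (Nat.zero_le _)
    have h1 : ∀ i, hs j S (pd i f) ≤ C * B := fun i => h S _ B fun w hw => by
      rw [hs2_pdw_pd]
      exact hB _ (by simpa using hw)
    have h2 := Finset.sum_le_sum fun i (_ : i ∈ Finset.univ) => h1 i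
    simp only [Finset.sum_const, Finset.card_univ, Fintype.card_fin, nsmul_eq_mul] at h2
    simp only [hs]
    push_cast at h2
    linarith

/-- The cube has finite volume; induction on `j`, `pdw w (pd i f) = pdw (w ++ [i]) f`. -/
theorem hs_Cb (j : ℕ) (r : ℝ) : ∃ C, 0 ≤ C ∧ ∀ (f : Fn) (B : ℝ), Cb j (Q r) f B →
    hs j (Q r) f ≤ C * B ^ 2 := by
  obtain ⟨C, hC, h⟩ := hs2_words j
  have hv : volume (Q r) < ⊤ :=
    (measure_mono (Q_sub_Kc r)).trans_lt (isCompact_Kc r).measure_lt_top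
  refine ⟨C * volume.real (Q r), mul_nonneg hC measureReal_nonneg, fun f B hB => ?_⟩
  have h1 := h (Q r) f (B ^ 2 * volume.real (Q r)) fun w hw => by
    refine (le_abs_self _).trans ?_
    refine norm_setIntegral_le_of_norm_le_const (f := fun y => pdw w f y ^ 2) hv fun y hy => ?_
    rw [Real.norm_eq_abs, abs_pow]
    exact pow_le_pow_left₀ (abs_nonneg _) (hB w hw y hy) 2
  linarith

/-- A bound of the integrals of all `pdw w f ^ 2` bounds the norm. -/
theorem hs_words (j : ℕ) : ∃ C, 0 ≤ C ∧ ∀ (S : Set E4) (f : Fn) (B : ℝ),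
    (∀ w : List (Fin 4), w.length ≤ j → hs 0 S (pdw w f) ≤ B) → hs j S f ≤ C * B :=
  hs2_words j

theorem sob_pdw {r : ℝ} (hr : 0 < r) : ∃ C, 0 ≤ C ∧ ∀ (R : ℝ) (f : Fn) (w : List (Fin 4)), r < R →
    ContDiffOn ℝ ∞ f (Q R) → ∀ y ∈ Q r, pdw w f y ^ 2 ≤ C * hs (4 + w.length) (Q r) f := by
  obtain ⟨C, hC, h⟩ := xD1 hr
  refine ⟨C, hC, fun R f w hR hf y hy => ?_⟩
  exact (h R _ hR (sm_pdw (isOpen_Q R) hf w) y hy).trans
    (mul_le_mul_of_nonneg_left (hs_pdw 4 _ f w) hC)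

theorem hsM_nonneg (j : ℕ) (S : Set E4) (h : Tn) : 0 ≤ hsM j S h :=
  Finset.sum_nonneg fun _ _ => Finset.sum_nonneg fun _ _ => hs_nonneg _ _ _

theorem hs_le_hsM (j : ℕ) (S : Set E4) (h : Tn) (a b : Fin 4) :
    hs j S (fun y => h y a b) ≤ hsM j S h :=
  (Finset.single_le_sum (f := fun b => hs j S fun y => h y a b) (fun _ _ => hs_nonneg _ _ _)
    (Finset.mem_univ b)).trans
    (Finset.single_le_sum (f := fun a => ∑ b, hs j S fun y => h y a b)
      (fun _ _ => Finset.sum_nonneg fun _ _ => hs_nonneg _ _ _) (Finset.mem_univ a))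

theorem hsM_mono {j k : ℕ} (e : j ≤ k) (S : Set E4) (h : Tn) : hsM j S h ≤ hsM k S h :=
  Finset.sum_le_sum fun _ _ => Finset.sum_le_sum fun _ _ => hs_mono e _ _

theorem hsM_cube {r r' R : ℝ} (e : r ≤ r') (e' : r' < R) (j : ℕ) {h : Tn} (hh : SmT h (Q R)) :
    hsM j (Q r) h ≤ hsM j (Q r') h :=
  Finset.sum_le_sum fun a _ => Finset.sum_le_sum fun b _ => hs_cube e e' j (hh a b)

theorem hsM_congr {U : Set E4} (hU : IsOpen U) (j : ℕ) {h k : Tn} (e : EqOn h k U) :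
    hsM j U h = hsM j U k :=
  Finset.sum_congr rfl fun a _ => Finset.sum_congr rfl fun b _ =>
    hs_congr hU j fun y hy => by simp only [e hy]

theorem hsM_smul (j : ℕ) (S : Set E4) (c : ℝ) (h : Tn) :
    hsM j S (fun y => c • h y) = c ^ 2 * hsM j S h := by
  simp only [hsM, Finset.mul_sum]
  exact Finset.sum_congr rfl fun a _ => Finset.sum_congr rfl fun b _ =>
    hs_smul j S c fun y => h y a b

theorem hsM_zero_eq {r R : ℝ} (e : r < R) {h : Tn} (hh : SmT h (Q R)) :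
    hsM 0 (Q r) h = ∫ y in Q r, fro (h y) := by
  have hi : ∀ a b, IntegrableOn (fun y => h y a b ^ 2) (Q r) := fun a b =>
    integrableOn_Q e ((hh a b).continuousOn.pow 2)
  simp only [hsM, fro, hs]
  rw [integral_finsetSum _ fun a _ => integrable_finsetSum _ fun b _ => hi a b]
  exact Finset.sum_congr rfl fun a _ => (integral_finsetSum _ fun b _ => hi a b).symm

theorem sobM {r : ℝ} (hr : 0 < r) : ∃ C, 0 < C ∧ ∀ (R : ℝ) (h : Tn), r < R → SmT h (Q R) →
    ∀ y ∈ Q r, fro (h y) ≤ C * hsM 4 (Q r) h := by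
  obtain ⟨C, hC, h1⟩ := xD1 hr
  refine ⟨C + 1, by positivity, fun R h hR hh y hy => ?_⟩
  have h2 : fro (h y) ≤ C * hsM 4 (Q r) h := by
    simp only [hsM, fro, Finset.mul_sum]
    exact Finset.sum_le_sum fun a _ => Finset.sum_le_sum fun b _ => h1 R _ hR (hh a b) y hy
  have h3 := hsM_nonneg 4 (Q r) h
  linarith

/-- Induction on `l`: `f * pd i v = pd i (f * v) - pd i f * v` on the cube, and `xD2` with
`m - 1` in place of `m` for the last product. -/
theorem hs_div {r c : ℝ} (hr : 0 < r) (hc : 0 < c) {l m : ℕ} (hl : l ≤ m) (hm : 8 ≤ m) (B : ℝ) :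
    ∃ C, 0 ≤ C ∧ ∀ (R : ℝ) (f v : Fn), r < R → ContDiffOn ℝ ∞ f (Q R) → ContDiffOn ℝ ∞ v (Q R) →
      (∀ y ∈ Q R, c ≤ |f y|) → hs m (Q r) f ≤ B → hs l (Q r) v ≤ C * hs l (Q r) (f * v) := by
  induction l with
  | zero =>
    refine ⟨(c ^ 2)⁻¹, by positivity, fun R f v h hf hv hb _ => ?_⟩
    simp only [hs]
    rw [← integral_const_mul]
    refine setIntegral_mono_on (integrableOn_Q h (hv.continuousOn.pow 2))
      ((integrableOn_Q h ((hf.mul hv).continuousOn.pow 2)).const_mul _)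
      (isOpen_Q r).measurableSet fun y hy => ?_
    have h1 : c ^ 2 ≤ f y ^ 2 := by
      rw [← sq_abs (f y)]
      exact pow_le_pow_left₀ hc.le (hb y (Q_mono h.le hy)) 2
    rw [Pi.mul_apply, mul_pow, ← mul_assoc]
    refine le_mul_of_one_le_left (sq_nonneg _) ?_
    rw [inv_mul_eq_div, le_div_iff₀ (by positivity), one_mul]
    exact h1
  | succ l ih =>
    obtain ⟨C, hC, H⟩ := ih (by omega)
    obtain ⟨D, hD, K⟩ := xD2 hr (l := l) (m := m - 1) (by omega) (by omega)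
    refine ⟨C + 4 * (C * (2 + 2 * (D * |B| * C))), by positivity, fun R f v h hf hv hb hB => ?_⟩
    have hO := isOpen_Q R
    have hfv : ContDiffOn ℝ ∞ (f * v) (Q R) := hf.mul hv
    have hX0 := hs_nonneg (l + 1) (Q r) (f * v)
    have h0 : hs l (Q r) v ≤ C * hs (l + 1) (Q r) (f * v) :=
      (H R f v h hf hv hb hB).trans (mul_le_mul_of_nonneg_left (hs_le_succ _ _ _) hC)
    have h1 : ∀ i, hs l (Q r) (pd i v) ≤
        C * (2 + 2 * (D * |B| * C)) * hs (l + 1) (Q r) (f * v) := fun i => by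
      have e : hs l (Q r) (f * pd i v) = hs l (Q r) (pd i (f * v) - pd i f * v) :=
        hs_congr (isOpen_Q r) l fun y hy => by
          simp only [Pi.mul_apply, Pi.sub_apply,
            pd_mul (sm_diff hO hf (Q_mono h.le hy)) (sm_diff hO hv (Q_mono h.le hy)) i]
          ring
      have a1 := H R f (pd i v) h hf (sm_pd hO hv i) hb hB
      have a2 := hs_sub2 h l (sm_pd hO hfv i) (g := pd i f * v) ((sm_pd hO hf i).mul hv)
      have a3 := hs_pd l (Q r) (f * v) i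
      have a4 := K R (pd i f) v h (sm_pd hO hf i) hv
      have a5 : hs (m - 1) (Q r) (pd i f) ≤ |B| := by
        refine (hs_pd _ _ _ i).trans ?_
        rw [show m - 1 + 1 = m by omega]
        exact hB.trans (le_abs_self B)
      have a6 : hs l (Q r) (pd i f * v) ≤ D * |B| * (C * hs (l + 1) (Q r) (f * v)) :=
        a4.trans (mul_le_mul (mul_le_mul_of_nonneg_left a5 hD) h0 (hs_nonneg _ _ _)
          (by positivity))
      rw [e] at a1
      refine a1.trans ?_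
      rw [mul_assoc]
      refine mul_le_mul_of_nonneg_left ?_ hC
      linarith
    have h2 : ∫ y in Q r, v y ^ 2 ≤ C * hs (l + 1) (Q r) (f * v) :=
      (hs_mono (Nat.zero_le l) (Q r) v).trans h0
    have h3 : hs (l + 1) (Q r) v = (∫ y in Q r, v y ^ 2) + ∑ i, hs l (Q r) (pd i v) := rfl
    rw [h3, Fin.sum_univ_four]
    linarith [h1 0, h1 1, h1 2, h1 3]

/-- `hs_div` with `v = f⁻¹`. -/
theorem hs_inv {r c : ℝ} (hr : 0 < r) (hc : 0 < c) {m : ℕ} (hm : 8 ≤ m) (B : ℝ) :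
    ∃ C, 0 ≤ C ∧ ∀ (R : ℝ) (f : Fn), r < R → ContDiffOn ℝ ∞ f (Q R) →
      (∀ y ∈ Q R, c ≤ |f y|) → hs m (Q r) f ≤ B → hs m (Q r) (fun y => (f y)⁻¹) ≤ C := by
  obtain ⟨C, hC, H⟩ := hs_div hr hc (l := m) le_rfl hm B
  refine ⟨C * hs m (Q r) fun _ => 1, mul_nonneg hC (hs_nonneg _ _ _), fun R f h hf hb hB => ?_⟩
  have hne : ∀ y ∈ Q R, f y ≠ 0 := fun y hy => abs_pos.1 (hc.trans_le (hb y hy))
  have h1 := H R f (fun y => (f y)⁻¹) h hf (hf.inv hne) hb hB
  rwa [hs_congr (isOpen_Q r) m (f := f * fun y => (f y)⁻¹) (g := fun _ => 1) fun y hy =>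
    mul_inv_cancel₀ (hne y (Q_mono h.le hy))] at h1

end Pool.Agent.Lib.MP_94aef8_gt.FL
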