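import Pool.Agent.Lib.MP_94aef8_gt.F.Quad
import Pool.Agent.Lib.MP_94aef8_gt.F.ExtE

/-! The iteration. -/

open scoped Manifold ContDiff Topology ENNReal
open Matrix Filter Set MeasureTheory

namespace Pool.Agent.Lib.MP_94aef8_gt.FL

/-- The properties of the iteration. -/
structure Itr {Z : CM} (g : Z.M → Mat) (s : Z.M → ℝ) (S : Set (Z.M → Z.M)) (b : ℝ)
    (u : ℕ → Z.M → Mat) : Prop where
  inv : ∀ k, InvT S (u k)
  good : ∀ k, GoodT (g + u k)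
  bdd : ∀ k, NX2 g s (u k) ≤ b
  eq : ∀ k, GP g (u (k + 1)) = (-2 : ℝ) • (GE g + GQ g (u k))
  cau : ∃ B, ∀ k, NX2 g s (u (k + 1) - u k) ≤ B * (1 / 4) ^ k

/-- Let `c1`, `K` come from `quad`, `β = min β1 (min c1 (1 / (16 K + 1)))`, `c = β / 16`,
`b = β / Λ * ϱ ^ 2`. `xE` applies by `n0_le_NX2`, the linear estimate and `NY2_le`. If `InvT S h`
and `NX2 h ≤ b` solve `GP g h' = -2 (GE g + GQ g h)` (`invT_GE`, `InvT.GQ`); then
`NX2 h' ≤ 8 Λ NY2 (GE g) + 8 K β NX2 h ≤ b` (`quad` with `β / Λ`, `NY2_smul`, `NY2_add_le`). Iterate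
the chosen map on the subtype, starting at `0` (`NX2_zero`). By `GP_sub` the differences satisfy
`x (k + 1) ≤ 4 K β x k ≤ x k / 4`. -/
theorem iter (C0 β1 : ℝ) (h1 : 0 < β1) : ∃ c > 0, ∀ (Z : CM) (g : Z.M → Mat) (s : Z.M → ℝ)
    (S : Set (Z.M → Z.M)) (ϱ Λ : ℝ) (A : Type) (Θ : A → E4 → Z.M) (σ : A → ℝ),
    GoodT g → (∀ F ∈ S, IsoM g F) → 0 < ϱ → PSys g s ϱ C0 Θ σ → 1 ≤ Λ →
    (∀ h, InvT S h → NX2 g s h ≤ Λ * NY2 g s (GP g h)) → Λ ^ 2 * NY2 g s (GE g) ≤ c * ϱ ^ 2 →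
    ∃ u, Itr g s S (β1 * ϱ ^ 2) u := by
  obtain ⟨c1, hc1, K, hK, hq⟩ := quad C0
  obtain ⟨β, β0, βb, βc, βK⟩ : ∃ β, 0 < β ∧ β ≤ β1 ∧ β ≤ c1 ∧ 16 * K * β ≤ 1 := by
    refine ⟨min β1 (min c1 (1 / (16 * K + 1))), by positivity, min_le_left _ _,
      (min_le_right _ _).trans (min_le_left _ _), ?_⟩
    refine (mul_le_mul_of_nonneg_left ((min_le_right _ _).trans (min_le_right _ _))
      (by positivity)).trans ?_
    rw [mul_one_div, div_le_one (by positivity)]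
    linarith
  refine ⟨β / 16, by positivity, fun Z g s S ϱ Λ A Θ σ hg hS hϱ hP hΛ hlin hE => ?_⟩
  have Λ0 : 0 < Λ := by linarith
  obtain ⟨γ, γ0, rfl⟩ : ∃ γ, 0 < γ ∧ β = Λ * γ := ⟨β / Λ, by positivity, by field_simp⟩
  have γβ : γ ≤ Λ * γ := le_mul_of_one_le_left γ0.le hΛ
  have hq' := fun h h' i i' b b' => hq Z g h h' s S ϱ γ A Θ σ hg hϱ hP i i' γ0 (γβ.trans βc) b b'
  have hE' : Λ * NY2 g s (GE g) ≤ γ * ϱ ^ 2 / 16 := le_of_mul_le_mul_left (by linarith) Λ0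
  have hap : ∀ h, InvT S h → ∫ x, n0 g h x ∂volT g ≤ max C0 1 ^ 2 * (Λ * max C0 1 ^ 18) *
      ∑ i ∈ Finset.range 5, ∫ x, n0 g ((GP g)^[i + 1] h) x ∂volT g := fun h hh => by
    rw [mul_assoc, mul_assoc]
    exact (n0_le_NX2 hP hg hh.smooth).trans (mul_le_mul_of_nonneg_left ((hlin h hh).trans
      (mul_le_mul_of_nonneg_left (NY2_le hP hg hh.smooth) Λ0.le)) (sq_nonneg _))
  have step : ∀ h : {h // InvT S h ∧ NX2 g s h ≤ γ * ϱ ^ 2},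
      ∃ h' : {h // InvT S h ∧ NX2 g s h ≤ γ * ϱ ^ 2},
        GP g h'.1 = (-2 : ℝ) • (GE g + GQ g h.1) := by
    rintro ⟨h, hi, hb⟩
    obtain ⟨q1, q2, -⟩ := hq' h h hi hi hb hb
    have i1 := invT_GE hg hS
    have i2 := hi.GQ hg hS q1
    obtain ⟨k, k1, k2⟩ := xE hg hS hap ((i1.add i2).smul (-2))
    refine ⟨⟨k, k1, (hlin k k1).trans ?_⟩, k2⟩
    rw [k2, NY2_smul]
    have e1 := mul_le_mul_of_nonneg_left (NY2_add_le hg hP.cont hP.pos i1.smooth i2.smooth) Λ0.le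
    have e2 := mul_le_mul_of_nonneg_left q2 Λ0.le
    have e3 := mul_le_mul_of_nonneg_right βK (NX2_nonneg hg hP.pos h)
    linarith
  choose T hT using step
  obtain ⟨v, hv⟩ : ∃ v : ℕ → {h // InvT S h ∧ NX2 g s h ≤ γ * ϱ ^ 2},
      ∀ k, GP g (v (k + 1)).1 = (-2 : ℝ) • (GE g + GQ g (v k).1) :=
    ⟨fun k => T^[k] ⟨0, invT_zero S, by rw [NX2_zero]; positivity⟩, fun k => by
      simp only [Function.iterate_succ_apply', hT]⟩
  refine ⟨fun k => (v k).1, fun k => (v k).2.1,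
    fun k => (hq' _ _ (v k).2.1 (v k).2.1 (v k).2.2 (v k).2.2).1,
    fun k => (v k).2.2.trans (mul_le_mul_of_nonneg_right (γβ.trans βb) (sq_nonneg _)), hv,
    NX2 g s ((v 1).1 - (v 0).1), fun k => ?_⟩
  induction k with
  | zero => simp
  | succ k ih =>
    refine (hlin _ ((v _).2.1.sub (v _).2.1)).trans ?_
    rw [GP_sub hg (v _).2.1.smooth (v _).2.1.smooth, hv, hv, ← smul_sub, add_sub_add_left_eq_sub,
      NY2_smul, pow_succ (1 / 4 : ℝ)]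
    have e2 := mul_le_mul_of_nonneg_left
      (hq' _ _ (v (k + 1)).2.1 (v k).2.1 (v (k + 1)).2.2 (v k).2.2).2.2 Λ0.le
    have e3 := mul_le_mul_of_nonneg_right βK (NX2_nonneg hg hP.pos ((v (k + 1)).1 - (v k).1))
    linarith

end Pool.Agent.Lib.MP_94aef8_gt.FL
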