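import Pool.Agent.Lib.MP_94aef8_gt.E2.Hs

/-! Limits of families of functions with bounded derivatives. -/

open scoped ContDiff Topology
open Matrix Filter Set MeasureTheory

namespace Pool.Agent.Lib.MP_94aef8_gt.FL

open E2

/-- The linear form with given coefficients. -/
noncomputable def lim_L (a : Fin 4 → ℝ) : E4 →L[ℝ] ℝ :=
  ∑ k, a k • (EuclideanSpace.proj k : E4 →L[ℝ] ℝ)

theorem lim_bas (a : Fin 4 → ℝ) (j : Fin 4) : lim_L a (bas j) = a j := by
  simp [lim_L, bas]

theorem lim_fd (f : Fn) (y : E4) : fderiv ℝ f y = lim_L fun k => pd k f y := by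
  refine ContinuousLinearMap.coe_injective
    ((EuclideanSpace.basisFun (Fin 4) ℝ).toBasis.ext fun j => ?_)
  rw [OrthonormalBasis.coe_toBasis, EuclideanSpace.basisFun_apply]
  exact (lim_bas (fun k => pd k f y) j).symm

theorem lim_dist (a b : Fin 4 → ℝ) : dist (lim_L a) (lim_L b) ≤ ∑ k, dist (a k) (b k) := by
  refine (dist_sum_sum_le _ _ _).trans (Finset.sum_le_sum fun k _ => ?_)
  rw [dist_eq_norm, dist_eq_norm]
  refine ContinuousLinearMap.opNorm_le_bound _ (norm_nonneg _) fun x => ?_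
  change ‖a k * x k - b k * x k‖ ≤ _
  rw [← sub_mul, norm_mul]
  exact mul_le_mul_of_nonneg_left (PiLp.norm_apply_le x k) (norm_nonneg _)

theorem lim_lip {V : Set E4} (hV : IsOpen V) {f : Fn} (hf : ContDiffOn ℝ ∞ f V) {m : ℕ} {B : ℝ}
    (hB : Cb (m + 1) V f B) {w : List (Fin 4)} (hw : w.length ≤ m) {x : E4} {r : ℝ}
    (hr : Metric.ball x r ⊆ V) {y : E4} (hy : y ∈ Metric.ball x r) :
    dist (pdw w f y) (pdw w f x) ≤ 4 * |B| * dist y x := by
  rw [dist_eq_norm, dist_eq_norm]
  refine (convex_ball x r).norm_image_sub_le_of_norm_fderiv_le (𝕜 := ℝ)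
    (fun z hz => sm_diff hV (sm_pdw hV hf w) (hr hz)) (fun z hz => ?_)
    (Metric.mem_ball_self (Metric.pos_of_mem_ball hy)) hy
  have h1 := lim_dist (fun k => pd k (pdw w f) z) 0
  rw [show lim_L 0 = 0 by simp [lim_L], dist_zero_right] at h1
  rw [lim_fd]
  refine h1.trans ((Finset.sum_le_card_nsmul _ _ |B| fun k _ => ?_).trans_eq (by simp))
  rw [Pi.zero_apply, dist_zero_right]
  exact (hB (k :: w) (Nat.succ_le_succ hw) z (hr hz)).trans (le_abs_self B)

theorem lim_sum {ι : Type} {l : Filter ι} {U : Set E4} {F : Fin 4 → ι → Fn} {f : Fin 4 → Fn}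
    (h : ∀ k, TendstoLocallyUniformlyOn (F k) (f k) l U) :
    TendstoLocallyUniformlyOn (fun i y => lim_L fun k => F k i y) (fun y => lim_L fun k => f k y)
      l U := by
  refine Metric.tendstoLocallyUniformlyOn_iff.2 fun ε hε x hx => ?_
  choose t ht ht' using fun k =>
    Metric.tendstoLocallyUniformlyOn_iff.1 (h k) (ε / 4) (by positivity) x hx
  refine ⟨⋂ k, t k, iInter_mem.2 ht, (eventually_all.2 ht').mono fun i hi y hy => ?_⟩
  refine (lim_dist _ _).trans_lt ((Finset.sum_lt_sum_of_nonempty Finset.univ_nonempty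
    fun k _ => hi k y (mem_iInter.1 hy k)).trans_eq ?_)
  rw [Fin.sum_const, nsmul_eq_mul]
  ring

theorem lim_congr {U : Set E4} (hU : IsOpen U) {f g : Fn} (h : EqOn f g U) (w : List (Fin 4)) :
    EqOn (pdw w f) (pdw w g) U := by
  induction w with
  | nil => exact h
  | cons i w ih => exact pd_congr_on hU ih i

/-- Let `Hw w x` be the limit of the bounded family `pdw w (u i) x` along the ultrafilter
(`|w| ≤ m`; `isCompact_Icc.ultrafilter_le_nhds` or `Ultrafilter.lim`). On a small ball the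
functions `pdw w (u i)` are eventually Lipschitz with one constant (mean value inequality,
`fderiv ℝ f y v = ∑ k, v k * pd k f y`), so is `Hw w`, hence the convergence is locally uniform
(`Metric.tendstoLocallyUniformlyOn_iff`: the neighbourhood may depend on `ε`; three `ε / 3`).
`hasFDerivAt_of_tendstoLocallyUniformlyOn` (its hypothesis is eventual in `i`; work on the small
ball) gives `pd k (Hw w) = Hw (k :: w)` on `U`; then `pdw w (Hw []) = Hw w` on `U`, and
`ContDiffOn ℝ n (Hw w) U` for `|w| + n ≤ m` by induction on `n`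
(`contDiffOn_succ_iff_fderiv_of_isOpen`). -/
theorem limU {ι : Type} (l : Ultrafilter ι) {U : Set E4} (hU : IsOpen U) (m : ℕ) (u : ι → Fn)
    (hb : ∀ x ∈ U, ∃ V, IsOpen V ∧ x ∈ V ∧ ∃ B, ∀ᶠ i in (l : Filter ι),
      ContDiffOn ℝ ∞ (u i) V ∧ Cb (m + 1) V (u i) B) :
    ∃ H : Fn, ContDiffOn ℝ m H U ∧ ∀ w : List (Fin 4), w.length ≤ m →
      TendstoLocallyUniformlyOn (fun i => pdw w (u i)) (pdw w H) (l : Filter ι) U := by
  have h1 : ∀ w : List (Fin 4), ∃ g : Fn, w.length ≤ m → ∀ x ∈ U,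
      Tendsto (fun i => pdw w (u i) x) l (𝓝 (g x)) := fun w => by
    refine ⟨fun x => limUnder l fun i => pdw w (u i) x, fun hw x hx => tendsto_nhds_limUnder ?_⟩
    obtain ⟨V, -, hxV, B, h⟩ := hb x hx
    obtain ⟨a, -, ha⟩ := (isCompact_Icc (a := -B) (b := B)).ultrafilter_le_nhds
      (l.map fun i => pdw w (u i) x) (le_principal_iff.2 (mem_map.2 (h.mono fun i hi =>
        abs_le.1 (hi.2 w (Nat.le_succ_of_le hw) x hxV))))
    exact ⟨a, ha⟩
  choose G hG using h1
  have h2 : ∀ w : List (Fin 4), w.length ≤ m →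
      TendstoLocallyUniformlyOn (fun i => pdw w (u i)) (G w) (l : Filter ι) U := fun w hw => by
    refine Metric.tendstoLocallyUniformlyOn_iff.2 fun ε hε x hx => ?_
    obtain ⟨V, hV, hxV, B, h⟩ := hb x hx
    obtain ⟨r, hr, h3⟩ := Metric.mem_nhds_iff.1 (inter_mem ((hV.inter hU).mem_nhds ⟨hxV, hx⟩)
      ((continuous_const.mul (continuous_id.dist continuous_const)).continuousAt.eventually_lt
        continuousAt_const (show 4 * |B| * dist x x < ε / 3 by rw [dist_self, mul_zero]; positivity)))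
    have h4 := h.mono fun i hi y (hy : y ∈ Metric.ball x r) =>
      lim_lip hV hi.1 hi.2 hw (fun z hz => (h3 hz).1.1) hy
    refine ⟨_, mem_nhdsWithin_of_mem_nhds (Metric.ball_mem_nhds x hr), ?_⟩
    filter_upwards [h4, Metric.tendsto_nhds.1 (hG w hw x hx) (ε / 3) (by positivity)]
      with i h5 h6 y hy
    have h7 : dist (G w y) (G w x) ≤ 4 * |B| * dist y x :=
      le_of_tendsto ((hG w hw y (h3 hy).1.2).dist (hG w hw x hx)) (h4.mono fun i hi => hi y hy)
    have h8 : 4 * |B| * dist y x < ε / 3 := (h3 hy).2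
    have h10 := dist_triangle4 (G w y) (G w x) (pdw w (u i) x) (pdw w (u i) y)
    rw [dist_comm (G w x), dist_comm (pdw w (u i) x) (pdw w (u i) y)] at h10
    linarith [h5 y hy]
  have h3 : ∀ w : List (Fin 4), w.length < m → ∀ x ∈ U,
      HasFDerivAt (G w) (lim_L fun k => G (k :: w) x) x := fun w hw x hx => by
    obtain ⟨V, hV, hxV, B, h⟩ := hb x hx
    refine hasFDerivAt_of_tendstoUniformlyOnFilter (l := (l : Filter ι))
      (f := fun i => pdw w (u i)) (f' := fun i y => lim_L fun k => pdw (k :: w) (u i) y)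
      (g' := fun y => lim_L fun k => G (k :: w) y) ?_ ?_
      (eventually_of_mem (hU.mem_nhds hx) (hG w hw.le))
    · rw [← hU.nhdsWithin_eq hx]
      exact tendstoLocallyUniformlyOn_iff_filter.1 (lim_sum fun k => h2 (k :: w) hw) x hx
    · refine eventually_of_mem (prod_mem_prod h (hV.mem_nhds hxV)) fun p hp => ?_
      exact (lim_fd _ _ ▸ (sm_diff hV (sm_pdw hV hp.1.1 w) hp.2).hasFDerivAt :
        HasFDerivAt _ (lim_L fun k => pd k (pdw w (u p.1)) p.2) _)
  have h4 : ∀ (n : ℕ) (w : List (Fin 4)), w.length + n ≤ m → ContDiffOn ℝ n (G w) U := by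
    intro n
    induction n with
    | zero =>
      refine fun w hw => contDiffOn_zero.2 fun x hx => ContinuousAt.continuousWithinAt ?_
      obtain ⟨V, hV, hxV, B, h⟩ := hb x hx
      exact (((h2 w hw).mono inter_subset_right).continuousOn (h.mono fun i hi =>
        (sm_pdw hV hi.1 w).continuousOn.mono inter_subset_left).frequently).continuousAt
        ((hV.inter hU).mem_nhds ⟨hxV, hx⟩)
    | succ n ih =>
      intro w hw
      rw [Nat.cast_succ, contDiffOn_succ_iff_fderiv_of_isOpen hU]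
      refine ⟨fun x hx => (h3 w (by omega) x hx).differentiableAt.differentiableWithinAt,
        fun h => absurd h (by simp), ContDiffOn.congr ?_ fun x hx => (h3 w (by omega) x hx).fderiv⟩
      exact ContDiffOn.sum fun k _ =>
        (ih (k :: w) (by rw [List.length_cons]; omega)).smul contDiffOn_const
  have h5 : ∀ w : List (Fin 4), w.length ≤ m → EqOn (G w) (pdw w (G [])) U := by
    intro w
    induction w with
    | nil => exact fun _ _ _ => rfl
    | cons k w ih =>
      refine fun hw x hx => Eq.trans ?_ (pd_congr_on hU (ih (Nat.le_of_succ_le hw)) k hx)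
      rw [pd, (h3 w hw x hx).fderiv, lim_bas]
  exact ⟨G [], h4 m [] (Nat.zero_add m).le, fun w hw => (h2 w hw).congr_right (h5 w hw)⟩

/-- For every ultrafilter finer than `l` the function given by `limU` agrees with `H` on `U`;
`contDiffOn_infty`, `tendsto_iff_ultrafilter`. -/
theorem limF {ι : Type} (l : Filter ι) [l.NeBot] {U : Set E4} (hU : IsOpen U) (u : ι → Fn) (H : Fn)
    (hH : ∀ x ∈ U, Tendsto (fun i => u i x) l (𝓝 (H x))) (hu : ∀ i, ContDiffOn ℝ ∞ (u i) U)
    (hb : ∀ m, ∃ B, ∀ i, Cb m U (u i) B) :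
    ContDiffOn ℝ ∞ H U ∧ ∀ w : List (Fin 4), ∀ x ∈ U,
      Tendsto (fun i => pdw w (u i) x) l (𝓝 (pdw w H x)) := by
  have key : ∀ g : Ultrafilter ι, ↑g ≤ l → ∀ m : ℕ, ContDiffOn ℝ m H U ∧
      ∀ w : List (Fin 4), w.length ≤ m → ∀ x ∈ U,
        Tendsto (fun i => pdw w (u i) x) g (𝓝 (pdw w H x)) := fun g hg m => by
    obtain ⟨B, hB⟩ := hb (m + 1)
    obtain ⟨H', h1, h2⟩ := limU g hU m u fun x hx =>
      ⟨U, hU, hx, B, Eventually.of_forall fun i => ⟨hu i, hB i⟩⟩
    have h3 : EqOn H H' U := fun x hx => tendsto_nhds_unique ((hH x hx).mono_left hg)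
      ((h2 [] m.zero_le).tendsto_at hx)
    exact ⟨h1.congr h3, fun w hw x hx => lim_congr hU h3 w hx ▸ (h2 w hw).tendsto_at hx⟩
  exact ⟨contDiffOn_infty.2 fun m => (key _ (Ultrafilter.of_le l) m).1, fun w x hx =>
    (tendsto_iff_ultrafilter _ _ _).2 fun g hg => (key g hg _).2 w le_rfl x hx⟩

end Pool.Agent.Lib.MP_94aef8_gt.FL
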