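import Pool.Agent.Lib.MP_94aef8_gt.F.QLoc
import Pool.Agent.Lib.MP_94aef8_gt.F.Lim

/-! All derivatives of the iteration are bounded on a cube. -/

open scoped ContDiff Topology
open Matrix Filter Set MeasureTheory

namespace Pool.Agent.Lib.MP_94aef8_gt.FL

open E2

/-- The right hand side of the iteration without its principal part. -/
noncomputable def qboot_F (G E : Tn) (μ : ℝ) (u : ℕ → Tn) (k : ℕ) : Tn :=
  lowL G (u (k + 1)) + (fun y => (2 * μ) • u (k + 1) y) + (fun y => (2 : ℝ) • E y) +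
    fun y => (2 : ℝ) • lowQ G (u k) y

theorem qboot_cls {C0 C μ r : ℝ} {G E : Tn} {u : ℕ → Tn} {j : ℕ} (hG : GoodB C0 G)
    (hE : SmT E (Q (7 / 4))) (hu : ∀ k, SmT (u k) (Q (7 / 4)))
    (hp : ∀ k, ∀ y ∈ Q (7 / 4), (G y + u k y).PosDef ∧ Ell C (G y + u k y)) (hj : 9 ≤ j)
    (h0 : 0 < r) (h1 : r < 7 / 4) (hK : ∃ K, ∀ k, hsM (j + 1) (Q r) (u k) ≤ K) :
    (∀ k, SmT (inv (G + u k) - inv G) (Q (7 / 4))) ∧ (∀ k, SmT (qboot_F G E μ u k) (Q (7 / 4))) ∧
      ∃ K, ∀ k, hsM (j + 1) (Q r) (inv (G + u k) - inv G) ≤ K ∧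
        hsM j (Q r) (qboot_F G E μ u k) ≤ K := by
  obtain ⟨K, hK⟩ := hK
  let t : TD ℕ := ⟨r, 7 / 4, fun _ => 1, fun _ => 0, h0, h1, fun _ => zero_le_one, fun _ => le_rfl⟩
  have hM : (tame t).Mt (j + 1) fun _ => G :=
    tame_mt1 t (show (7 / 4 : ℝ) ≤ 3 by norm_num) hG (by omega)
  have h2 : (tame t).T (j + 1) 0 fun a => u a.1 :=
    tame_T1 t (K := K) hu fun k => by simpa only [pow_zero, mul_one] using hK k
  have h3 : (tame t).T (j + 1) 0 fun a => u (a.1 + 1) :=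
    tame_T1 t (h := fun k => u (k + 1)) (K := K) (fun k => hu _) fun k => by
      simpa only [pow_zero, mul_one] using hK (k + 1)
  have h4 : (tame t).T j 0 fun _ => E :=
    tame_T1 t (h := fun _ => E) (K := hsM j (Q r) E) (fun _ => hE) fun _ => by
      simp only [pow_zero, mul_one]
      exact le_rfl
  have hN : (tame t).T (j + 1) 0 fun a => inv (G + u a.1) :=
    tame_invT t (by omega) ((hM.g.levLe (by omega)).add h2) fun a => hp a.1
  have hD : (tame t).T (j + 1) 0 fun a => inv (G + u a.1) - inv G :=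
    hN.sub (hM.h.levLe (by omega))
  have hQ : (tame t).T j 0 fun a => lowQ G (u a.1) :=
    cls_lowQ (p := 0) hM (show 8 ≤ j by omega) (by omega) h2 (hN.levLe (by omega))
      (hD.levLe (by omega))
  have hF : (tame t).T j 0 fun a => qboot_F G E μ u a.1 :=
    (((cls_lowL hM (by omega) h3).add ((h3.levLe (by omega)).cmul (2 * μ))).add (h4.cmul 2)).add
      (hQ.cmul 2)
  obtain ⟨s1, K1, -, b1⟩ := tame_out t hD
  obtain ⟨s2, K2, -, b2⟩ := tame_out t hF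
  refine ⟨fun k => s1 (k, true), fun k => s2 (k, true), max K1 K2, fun k => ⟨?_, ?_⟩⟩
  · exact le_max_of_le_left (by simpa only [pow_zero, mul_one] using (b1 k).1 true)
  · exact le_max_of_le_right (by simpa only [pow_zero, mul_one] using (b2 k).1 true)

/-- Apply `boot` with `b k = inv (G + u k) - inv G` and
`F k = lowL G (u (k + 1)) + 2 μ u (k + 1) + 2 E + 2 lowQ G (u k)` (`lich_eq`, `QQ_eq` for
`Good G (Q 3)`). Smallness of `b k` by `loc_small`. For the last hypothesis of `boot` use the class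
`tame` with index type `ℕ`, `ρ = r`, `R = 7 / 4`, `r i = 1`, `d i = 0`: `tame_mt1` at level
`j + 1`, `tame_T1` (order 0), `tame_invT`, `cls_lowL`, `cls_lowQ`, `tame_out`. Smoothness of
`b k`, `F k` on `Q (7 / 4)` comes out of the same class (level 10, `r = 3 / 2`). -/
theorem loc_boot (C0 : ℝ) : ∃ c > 0, ∀ (G E : Tn) (μ : ℝ) (u : ℕ → Tn), GoodB C0 G →
    SmT E (Q 3) → (∀ k, SymT (u k) (Q 3)) → (∀ k, hsM 10 (Q (7 / 4)) (u k) ≤ c) →
    (∀ k, ∀ y ∈ Q 3, Pop μ G (u (k + 1)) y = (-2 : ℝ) • (E y + QQ G (u k) y)) →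
    ∀ j, ∃ K, ∀ k, hsM j (Q 1) (u k) ≤ K := by
  obtain ⟨e, he, hb⟩ := boot C0
  obtain ⟨c, hc, hs⟩ := loc_small C0 e he
  refine ⟨c, hc, fun G E μ u hG hE hu hk heq => ?_⟩
  have hQ : Q (7 / 4) ⊆ Q 3 := Q_mono (by norm_num)
  have hE' : SmT E (Q (7 / 4)) := fun i j => (hE i j).mono hQ
  have hu' : ∀ k, SmT (u k) (Q (7 / 4)) := fun k i j => ((hu k).smooth i j).mono hQ
  have hp : ∀ k, ∀ y ∈ Q (7 / 4), (G y + u k y).PosDef ∧ Ell (2 * C0) (G y + u k y) :=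
    fun k y hy => ⟨(hs G _ hG (hu k) (hk k) y hy).2.1, (hs G _ hG (hu k) (hk k) y hy).2.2.1⟩
  have h10 : ∃ K, ∀ k, hsM 10 (Q (3 / 2)) (u k) ≤ K :=
    ⟨c, fun k => (hsM_cube (by norm_num) (by norm_num) 10 (hu k).smooth).trans (hk k)⟩
  obtain ⟨s1, s2, -⟩ := qboot_cls (μ := μ) (j := 9) hG hE' hu' hp le_rfl (by norm_num)
    (by norm_num) h10
  refine hb G u (fun k => inv (G + u k) - inv G) (qboot_F G E μ u) hG hu' s1 s2
    (fun k y hy => ?_) (fun k y hy => (hs G _ hG (hu k) (hk k) y hy).2.2.2) h10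
    fun j r h1 h2 hj hK => (qboot_cls hG hE' hu' hp hj (by linarith) (by linarith) hK).2.2
  have h1 := heq k y (hQ hy)
  rw [Pop, lich_eq hG.good (hu _).smooth (hQ hy), QQ_eq hG.good (hu _).smooth (hQ hy)] at h1
  simp only [qboot_F, Pi.add_apply]
  linear_combination (norm := module) -h1

/-- The limit on the unit cube: `loc_boot`, `sob_pdw` (on `Q 1`), `limF` along `atTop`. -/
theorem loc_lim (C0 : ℝ) : ∃ c > 0, ∀ (G E H : Tn) (μ : ℝ) (u : ℕ → Tn), GoodB C0 G →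
    SmT E (Q 3) → (∀ k, SymT (u k) (Q 3)) → (∀ k, hsM 10 (Q (7 / 4)) (u k) ≤ c) →
    (∀ k, ∀ y ∈ Q 3, Pop μ G (u (k + 1)) y = (-2 : ℝ) • (E y + QQ G (u k) y)) →
    (∀ y ∈ Q 1, Tendsto (fun k => u k y) atTop (𝓝 (H y))) →
    SmT H (Q 1) ∧ ∀ (w : List (Fin 4)) (i j : Fin 4), ∀ y ∈ Q 1,
      Tendsto (fun k => pdw w (fun z => u k z i j) y) atTop (𝓝 (pdw w (fun z => H z i j) y)) := by
  obtain ⟨c, hc, hb⟩ := loc_boot C0
  obtain ⟨C, hC, hs⟩ := sob_pdw one_pos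
  refine ⟨c, hc, fun G E H μ u hG hE hu hk heq hH => ?_⟩
  have key := fun i j : Fin 4 => limF atTop (isOpen_Q 1) (fun k z => u k z i j) (fun z => H z i j)
    (fun y hy => tendsto_pi_nhds.1 (tendsto_pi_nhds.1 (hH y hy) i) j)
    (fun k => ((hu k).smooth i j).mono (Q_mono (by norm_num))) fun m => by
      obtain ⟨K, hK⟩ := hb G E μ u hG hE hu hk heq (4 + m)
      refine ⟨√(C * K), fun k w hw y hy => Real.abs_le_sqrt
        ((hs 3 _ w (by norm_num) ((hu k).smooth i j) y hy).trans ?_)⟩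
      exact mul_le_mul_of_nonneg_left ((hs_mono (by omega) _ _).trans
        ((hs_le_hsM _ _ _ i j).trans (hK k))) hC
  exact ⟨fun i j => (key i j).1, fun w i j => (key i j).2 w⟩

end Pool.Agent.Lib.MP_94aef8_gt.FL
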