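import Pool.Agent.Lib.MP_94aef8_gt.F.Iter
import Pool.Agent.Lib.MP_94aef8_gt.F.QBoot

/-! The limit of the iteration is smooth. -/

open scoped Manifold ContDiff Topology ENNReal
open Matrix Filter Set MeasureTheory

namespace Pool.Agent.Lib.MP_94aef8_gt.FL

open E2

/-- `cauchySeq_of_le_geometric` with ratio `1 / 2` for every entry; `lin_le_ipM`. -/
theorem lim_matrix {G : Mat} (hG : G.PosDef) {u : ℕ → Mat} {B : ℝ}
    (h : ∀ k, ipM G (u (k + 1) - u k) (u (k + 1) - u k) ≤ B * (1 / 4) ^ k) :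
    ∃ H, Tendsto u atTop (𝓝 H) := by
  have hC : ∀ i j, |G i j| ≤ ∑ a, ∑ b, |G a b| := fun i j =>
    (Finset.single_le_sum (f := fun b => |G i b|) (fun _ _ => abs_nonneg _)
      (Finset.mem_univ j)).trans (Finset.single_le_sum (f := fun a => ∑ b, |G a b|)
        (fun _ _ => Finset.sum_nonneg fun _ _ => abs_nonneg _) (Finset.mem_univ i))
  generalize ∑ a, ∑ b, |G a b| = C at hC
  have h1 : ∀ i j, ∃ c, Tendsto (fun k => u k i j) atTop (𝓝 c) := fun i j => by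
    refine cauchySeq_tendsto_of_complete (cauchySeq_of_le_geometric (1 / 2) √(16 * C ^ 2 * B)
      (by norm_num) fun k => ?_)
    have a1 : (u (k + 1) - u k) i j ^ 2 ≤ ∑ a, ∑ b, (u (k + 1) - u k) a b ^ 2 :=
      (Finset.single_le_sum (f := fun b => (u (k + 1) - u k) i b ^ 2) (fun _ _ => sq_nonneg _)
        (Finset.mem_univ j)).trans (Finset.single_le_sum
          (f := fun a => ∑ b, (u (k + 1) - u k) a b ^ 2)
          (fun _ _ => Finset.sum_nonneg fun _ _ => sq_nonneg _) (Finset.mem_univ i))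
    have a2 := lin_le_ipM hG hC (u (k + 1) - u k)
    have a3 := mul_le_mul_of_nonneg_left (h k) (by positivity : 0 ≤ 16 * C ^ 2)
    have a4 : (1 / 4 : ℝ) ^ k = ((1 / 2) ^ k) ^ 2 := by
      rw [← pow_mul, mul_comm, pow_mul]
      norm_num
    have a5 := Real.abs_le_sqrt (a1.trans (a2.trans a3))
    rw [← mul_assoc, a4, Real.sqrt_mul' _ (sq_nonneg _), Real.sqrt_sq (by positivity),
      Matrix.sub_apply] at a5
    rwa [dist_comm, Real.dist_eq]
  choose H hH using h1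
  exact ⟨Matrix.of H, tendsto_pi_nhds.2 fun i => tendsto_pi_nhds.2 fun j => hH i j⟩

theorem limit1_cont (G : Mat) : Continuous fun A : Mat => ipM G A A :=
  (((continuous_const.matrix_mul continuous_id).matrix_mul continuous_const).matrix_mul
    continuous_id.matrix_transpose).matrix_trace

/-- The pointwise limit `h` exists by `quad_sup` (for the differences) and `lim_matrix`. In every
patch apply `loc_lim` with `G = pa σ Θ g`, `E = gpull Θ (GE g)`, `H = pa σ Θ h`, `μ = 3 σ ^ 2`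
(`quad_patch`, `pa_eq`, `pa_tendsto`); `gpull Θ h = σ ^ 2 • pa σ Θ h`; `smG_of_patches` with the
patch restricted to `Q 1` (`Pt.mono`), `invT_of_limit`. The bound of `n0` passes to the limit
(`ipM G` is continuous in the two last arguments). -/
theorem limit1 (C0 : ℝ) : ∃ β1 > 0, ∀ (Z : CM) (g : Z.M → Mat) (s : Z.M → ℝ)
    (S : Set (Z.M → Z.M)) (ϱ b : ℝ) (A : Type) (Θ : A → E4 → Z.M) (σ : A → ℝ)
    (u : ℕ → Z.M → Mat), GoodT g → 0 < ϱ → PSys g s ϱ C0 Θ σ → Itr g s S b u → b ≤ β1 * ϱ ^ 2 →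
    ∃ h, InvT S h ∧ (∀ x, n0 g h x ≤ 1 / 100) ∧ ∀ a (w : List (Fin 4)) (i j : Fin 4),
      Tendsto (fun k => pdw w (fun z => pa (σ a) (Θ a) (u k) z i j) 0) atTop
        (𝓝 (pdw w (fun z => pa (σ a) (Θ a) h z i j) 0)) := by
  obtain ⟨c, hc, hlim⟩ := loc_lim C0
  obtain ⟨K1, hK1, hq1⟩ := quad_patch C0
  obtain ⟨K2, hK2, hq2⟩ := quad_sup C0
  refine ⟨min (c / K1) (1 / (100 * K2)), lt_min (by positivity) (by positivity), ?_⟩
  intro Z g s S ϱ b A Θ σ u hg hϱ hP hu hb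
  have hϱ2 : 0 < ϱ ^ 2 := by positivity
  have hb' : ∀ k, (ϱ ^ 2)⁻¹ * NX2 g s (u k) ≤ min (c / K1) (1 / (100 * K2)) := fun k => by
    rw [inv_mul_eq_div, div_le_iff₀ hϱ2]
    exact (hu.bdd k).trans hb
  obtain ⟨B, hB⟩ := hu.cau
  have h1 : ∀ x, ∃ H, Tendsto (fun k => u k x) atTop (𝓝 H) := fun x => by
    refine lim_matrix (hg.pos x) (B := K2 * ((ϱ ^ 2)⁻¹ * B)) fun k => ?_
    have a1 := hq2 Z g (u (k + 1) - u k) s ϱ A Θ σ hg hϱ hP
      ((hu.inv (k + 1)).smooth.sub (hu.inv k).smooth) x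
    have a2 := mul_le_mul_of_nonneg_left
      (mul_le_mul_of_nonneg_left (hB k) (inv_pos.2 hϱ2).le) hK2.le
    refine (a1.trans a2).trans (le_of_eq ?_)
    ring
  choose h hh using h1
  have key : ∀ a, SmT (pa (σ a) (Θ a) h) (Q 1) ∧ ∀ (w : List (Fin 4)) (i j : Fin 4), ∀ y ∈ Q 1,
      Tendsto (fun k => pdw w (fun z => pa (σ a) (Θ a) (u k) z i j) y) atTop
        (𝓝 (pdw w (fun z => pa (σ a) (Θ a) h z i j) y)) := fun a => by
    refine hlim (pa (σ a) (Θ a) g) (gpull (Θ a) (GE g)) (pa (σ a) (Θ a) h) (3 * σ a ^ 2)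
      (fun k => pa (σ a) (Θ a) (u k)) (hP.good a) ((smG_GE hg).patch (hP.pt a))
      (fun k => pa_sym (hP.pt a) (hu.inv k) _) (fun k => ?_)
      (fun k y hy => pa_eq (hP.pt a) hy (hP.σpos a).ne' hg (hu.inv k).smooth
        (hu.inv (k + 1)).smooth (hu.good k) (hu.eq k))
      fun y _ => pa_tendsto (hh _)
    have a1 := hq1 Z g (u k) s ϱ A Θ σ hg hϱ hP (hu.inv k).smooth a
    have a2 := mul_le_mul_of_nonneg_left ((hb' k).trans (min_le_left _ _)) hK1.le
    rw [mul_div_cancel₀ _ hK1.ne'] at a2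
    exact a1.trans a2
  have hs : SmG h := by
    refine smG_of_patches fun x => ?_
    obtain ⟨a, ha⟩ := hP.cover x
    refine ⟨Θ a, Q 1, 0, (hP.pt a).mono (isOpen_Q 1) (Q_mono (by norm_num)), zero_mem_Q one_pos,
      ha, fun i j => ?_⟩
    have a1 : ContDiffOn ℝ ∞ (fun p => σ a ^ 2 * pa (σ a) (Θ a) h p i j) (Q 1) :=
      contDiffOn_const.mul ((key a).1 i j)
    refine a1.congr fun p _ => ?_
    have a2 : σ a ^ 2 ≠ 0 := pow_ne_zero 2 (hP.σpos a).ne'
    rw [pa, Matrix.smul_apply, smul_eq_mul, mul_inv_cancel_left₀ a2]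
  refine ⟨h, invT_of_limit hu.inv hs hh, fun x => ?_,
    fun a w i j => (key a).2 w i j 0 (zero_mem_Q one_pos)⟩
  refine le_of_tendsto' (((limit1_cont (g x)).tendsto (h x)).comp (hh x)) fun k => ?_
  have a1 := hq2 Z g (u k) s ϱ A Θ σ hg hϱ hP (hu.inv k).smooth x
  have a2 := mul_le_mul_of_nonneg_left ((hb' k).trans (min_le_right _ _)) hK2.le
  have a3 : K2 * (1 / (100 * K2)) = 1 / 100 := by field_simp
  rw [a3] at a2
  exact a1.trans a2

end Pool.Agent.Lib.MP_94aef8_gt.FL
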