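import Pool.Agent.Lib.MP_94aef8_gt.F.Cls
import Pool.Agent.Lib.MP_94aef8_gt.F.Boot3

/-! Principal parts and lower order parts of the operators. -/

open scoped ContDiff Topology
open Matrix Filter Set MeasureTheory

namespace Pool.Agent.Lib.MP_94aef8_gt.FL

open E2

/-- The part of order at most one of `∇²_{a b}`. -/
noncomputable def rem2 (G : Tn) (a b : Fin 4) (N : MA Fn) : MA Fn :=
  -(geo G).dm a (((geo G).w b)ᵀ * N + N * (geo G).w b) - ((geo G).w a)ᵀ * (geo G).nab b N -
    (geo G).nab b N * (geo G).w a - ∑ e, (geo G).w a e b • (geo G).nab e N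

/-- The part of order at most one of `lich`. -/
noncomputable def lowL (G h : Tn) : Tn :=
  fm (-(∑ a, ∑ b, (geo G).H a b • rem2 G a b (mf h)) - (2 : Fn) • (geo G).rring (mf h) +
    (geo G).ric * (geo G).H * mf h + mf h * (geo G).H * (geo G).ric)

/-- The part of order at most one of `QQ`. -/
noncomputable def lowQ (G h : Tn) : Tn :=
  fm (-((geo G).hf • ∑ a, ∑ b, (mf (inv (G + h)) - (geo G).H) a b • rem2 G a b (mf h)) +
    (geo G).qq (mf h) (mf (inv (G + h))))

section

variable {α : Type} {S : Cls α} {n l p : ℕ} {G h : α → Tn} {N : α → MA Fn}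

theorem cls_rem2 (hG : S.Mt n G) (hl : l ≤ n) (hN : S.R (l + 1) p N) (a b : Fin 4) :
    S.R l p fun z => rem2 (G z) a b (N z) := by
  have h0 : S.m0 ≤ n + 1 := hG.le.trans (by omega)
  have h1 := fun e => hG.gnab (l := l) (by omega) hN e
  have h2 : S.R (l + 1) p fun z => ((geo (G z)).w b)ᵀ * N z + N z * (geo (G z)).w b :=
    ((hG.gw b).tr.mulL h0 (by omega) hN).add (hN.mulR h0 (by omega) (hG.gw b))
  exact ((((h2.dm (G := G) a).neg.sub ((hG.gw0 a).tr.mulL hG.le hl (h1 b))).sub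
    ((h1 b).mulR hG.le hl (hG.gw0 a))).sub
      (Cls.R.sum fun e => Cls.R.smulL hG.le hl (hG.gw0 a e b) (h1 e)))

theorem cls_lowL (hG : S.Mt n G) (hl : l ≤ n) (hh : S.T (l + 1) p h) :
    S.T l p fun z => lowL (G z) (h z) := by
  have h1 : S.R l p fun z => -(∑ a, ∑ b, (geo (G z)).H a b • rem2 (G z) a b (mf (h z))) :=
    (Cls.R.sum fun i => Cls.R.sum fun j => Cls.R.smulL hG.le hl (hG.gH i j)
      (cls_rem2 (N := fun z => mf (h z)) hG hl hh i j)).neg
  obtain ⟨h2, h3, h4⟩ := hG.gzero (M := fun z => mf (h z)) (p := p) hl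
    (hh.levLe (l := l) (by omega))
  exact ((h1.sub h2).add h3).add h4

theorem cls_lowQ (hG : S.Mt n G) (h0 : S.m0 ≤ l) (hl : l ≤ n) (hh : S.T (l + 1) p h)
    (hN : S.T l 0 fun a => inv (G a + h a)) (hD : S.T l p fun a => inv (G a + h a) - inv (G a)) :
    S.T l (p + p) fun z => lowQ (G z) (h z) := by
  have hD' : S.R l p fun z => mf (inv (G z + h z)) - (geo (G z)).H := hD
  have h1 : S.R l (p + p) fun z => -((geo (G z)).hf •
      ∑ a, ∑ b, (mf (inv (G z + h z)) - (geo (G z)).H) a b • rem2 (G z) a b (mf (h z))) :=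
    (Cls.R.smulL h0 le_rfl (S.const _ _) (Cls.R.sum fun i => Cls.R.sum fun j =>
      Cls.R.smul h0 le_rfl (hD' i j) (cls_rem2 (N := fun z => mf (h z)) hG hl hh i j))).neg
  exact h1.add (hG.gqq (M := fun a => mf (h a)) (N := fun a => mf (inv (G a + h a))) h0 hl hh hN
    hD)

theorem cls_Pop (hG : S.Mt n G) (hl : l ≤ n) (hh : S.T (l + 2) p h) {μ : α → ℝ}
    (hμ : S.C n 0 fun a _ => μ a) : S.T l p fun z => Pop (μ z) (G z) (h z) :=
  (hG.lich hl hh).add (Cls.T.smulL hG.le hl (Cls.cmul 2 hμ) (hh.levLe (by omega)))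

theorem cls_Pop_iter (hG : S.Mt n G) {μ : α → ℝ} (hμ : S.C n 0 fun a _ => μ a) (j : ℕ)
    (hl : l + 2 * j ≤ n + 2) (hh : S.T (l + 2 * j) p h) :
    S.T l p fun z => (Pop (μ z) (G z))^[j] (h z) := by
  induction j generalizing h with
  | zero => exact hh
  | succ j ih =>
    simp only [Function.iterate_succ_apply]
    exact ih (h := fun z => Pop (μ z) (G z) (h z)) (by omega)
      (cls_Pop (l := l + 2 * j) hG (by omega) hh hμ)

end

/-- Smooth functions on an open set form a graded class. -/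
def smCls {U : Set E4} (hU : IsOpen U) : Cls Unit where
  C := fun _ _ f => ContDiffOn ℝ ∞ (f ()) U
  m0 := 0
  pts := fun _ => U
  congr := fun h e => h.congr fun y hy => (e () y hy).eq_of_nhds.symm
  const := fun _ _ => contDiffOn_const
  zero := fun _ _ => contDiffOn_const
  add := fun h h' => h.add h'
  neg := fun h => h.neg
  mul := fun _ _ h h' => h.mul h'
  der := fun i h => sm_pd hU h i
  lev := fun h => h

variable {G h : Tn} {U : Set E4}

/-- `Cls.T.inv`, `Cls.T.det`, `ContDiffOn.inv`. -/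
theorem sm_mt (hG : Good G U) (n : ℕ) : (smCls hG.isOpen).Mt n fun _ => G := by
  have h1 : (smCls hG.isOpen).T (n + 2) 0 fun _ => G := hG.smooth
  refine ⟨Nat.zero_le _, h1, Cls.T.inv (Nat.zero_le _) h1 ?_⟩
  have h2 : ContDiffOn ℝ ∞ (fun y => (G y).det) U := Cls.T.det (Nat.zero_le _) h1
  exact h2.inv fun y hy => (hG.pos y hy).det_pos.ne'

theorem sm_inv (hG : Good G U) : SmT (inv G) U := (sm_mt hG 0).h

theorem sm_Pop (hG : Good G U) (hh : SmT h U) (μ : ℝ) : SmT (Pop μ G h) U :=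
  cls_Pop (S := smCls hG.isOpen) (n := 0) (l := 0) (p := 0) (h := fun _ => h) (μ := fun _ => μ)
    (sm_mt hG 0) le_rfl hh contDiffOn_const

theorem sm_Pop_iter (hG : Good G U) (hh : SmT h U) (μ : ℝ) (j : ℕ) :
    SmT ((Pop μ G)^[j] h) U := by
  induction j with
  | zero => exact hh
  | succ j ih =>
    rw [Function.iterate_succ_apply']
    exact sm_Pop hG ih μ

/-- `pd a` is additive on differentiable functions; the entries of `w b` are smooth by `sm_mt`. -/
theorem nab2_eq (hG : Good G U) (hh : SmT h U) {y : E4} (hy : y ∈ U) (a b i j : Fin 4) :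
    nab2 G a b h y i j = pd a (pd b fun z => h z i j) y + rem2 G a b (mf h) i j y := by
  have hU := hG.isOpen
  have hM := sm_mt hG 0
  have hN : (smCls hU).R 1 0 fun _ => mf h := hh
  have h2 : (smCls hU).R 1 0 fun _ => ((geo G).w b)ᵀ * mf h + mf h * (geo G).w b :=
    ((hM.gw b).tr.mulL (Nat.zero_le _) le_rfl hN).add (hN.mulR (Nat.zero_le _) le_rfl (hM.gw b))
  have h3 : ContDiffOn ℝ ∞ ((((geo G).w b)ᵀ * mf h + mf h * (geo G).w b) i j) U := h2 i j
  have h4 : ContDiffOn ℝ ∞ (pd b fun z => h z i j) U := sm_pd hU (hh i j) b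
  have e1 : (geo G).nab b (mf h) i j =
      (pd b fun z => h z i j) + -(((geo G).w b)ᵀ * mf h + mf h * (geo G).w b) i j := by
    change (pd b fun z => h z i j) - (((geo G).w b)ᵀ * mf h) i j - (mf h * (geo G).w b) i j = _
    rw [Matrix.add_apply]
    ring
  have e2 : pd a ((geo G).nab b (mf h) i j) y = pd a (pd b fun z => h z i j) y -
      pd a ((((geo G).w b)ᵀ * mf h + mf h * (geo G).w b) i j) y := by
    rw [e1, pd_add (sm_diff hU h4 hy) (sm_diff hU h3 hy).neg, pd_neg]
    rfl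
  change pd a ((geo G).nab b (mf h) i j) y - (((geo G).w a)ᵀ * (geo G).nab b (mf h)) i j y -
    ((geo G).nab b (mf h) * (geo G).w a) i j y -
      (∑ e, (geo G).w a e b • (geo G).nab e (mf h)) i j y =
    pd a (pd b fun z => h z i j) y +
      (-pd a ((((geo G).w b)ᵀ * mf h + mf h * (geo G).w b) i j) y -
        (((geo G).w a)ᵀ * (geo G).nab b (mf h)) i j y - ((geo G).nab b (mf h) * (geo G).w a) i j y -
          (∑ e, (geo G).w a e b • (geo G).nab e (mf h)) i j y)
  rw [e2]
  ring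

theorem prin_sum (hG : Good G U) (hh : SmT h U) {y : E4} (hy : y ∈ U) (c : Tn) (i j : Fin 4) :
    (∑ a, ∑ b, mf c a b • (geo G).nab2 a b (mf h)) i j y =
      prin c h y i j + (∑ a, ∑ b, mf c a b • rem2 G a b (mf h)) i j y := by
  have e : ∀ a b, (geo G).nab2 a b (mf h) i j y =
      pd a (pd b fun z => h z i j) y + rem2 G a b (mf h) i j y :=
    fun a b => nab2_eq hG hh hy a b i j
  simp only [Matrix.sum_apply, Finset.sum_apply, Matrix.smul_apply, smul_eq_mul, Pi.mul_apply, e,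
    prin, Matrix.of_apply, mul_add, Finset.sum_add_distrib]
  rfl

theorem lich_eq (hG : Good G U) (hh : SmT h U) {y : E4} (hy : y ∈ U) :
    lich G h y = -prin (inv G) h y + lowL G h y := by
  ext i j
  have e := prin_sum hG hh hy (inv G) i j
  change -(∑ a, ∑ b, mf (inv G) a b • (geo G).nab2 a b (mf h)) i j y -
    ((2 : Fn) • (geo G).rring (mf h)) i j y + ((geo G).ric * (geo G).H * mf h) i j y +
      (mf h * (geo G).H * (geo G).ric) i j y = -prin (inv G) h y i j +
    (-(∑ a, ∑ b, mf (inv G) a b • rem2 G a b (mf h)) i j y -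
      ((2 : Fn) • (geo G).rring (mf h)) i j y + ((geo G).ric * (geo G).H * mf h) i j y +
        (mf h * (geo G).H * (geo G).ric) i j y)
  rw [e]
  ring

theorem QQ_eq (hG : Good G U) (hh : SmT h U) {y : E4} (hy : y ∈ U) :
    QQ G h y = -((1 / 2 : ℝ) • prin (inv (G + h) - inv G) h y) + lowQ G h y := by
  ext i j
  have e := prin_sum hG hh hy (inv (G + h) - inv G) i j
  change -((1 / 2 : ℝ) * (∑ a, ∑ b, mf (inv (G + h) - inv G) a b • (geo G).nab2 a b (mf h)) i j y) +
    (geo G).qq (mf h) (mf (inv (G + h))) i j y =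
      -((1 / 2 : ℝ) * prin (inv (G + h) - inv G) h y i j) +
    (-((1 / 2 : ℝ) * (∑ a, ∑ b, mf (inv (G + h) - inv G) a b • rem2 G a b (mf h)) i j y) +
      (geo G).qq (mf h) (mf (inv (G + h))) i j y)
  rw [e]
  ring

end Pool.Agent.Lib.MP_94aef8_gt.FL
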