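import Pool.Agent.Lib.MP_94aef8_gt.F.Iter
import Pool.Agent.Lib.MP_94aef8_gt.F.Cv
import Pool.Agent.Lib.MP_94aef8_gt.F.Prin

/-! The equation and the bound pass to the limit. -/

open scoped Manifold ContDiff Topology ENNReal
open Matrix Filter Set MeasureTheory

namespace Pool.Agent.Lib.MP_94aef8_gt.FL

open E2

section Local

variable {G H : Tn} {U : Set E4} {u : ℕ → Tn} {x : E4}

/-- The family `fun a => a.elim H u` lies in `cv atTop x` at every level. -/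
theorem cv_of_jets (hU : IsOpen U) (hx : x ∈ U) (hu : ∀ k, SmT (u k) U) (hH : SmT H U)
    (e : ∀ (w : List (Fin 4)) (i j : Fin 4),
      Tendsto (fun k => pdw w (fun z => u k z i j) x) atTop (𝓝 (pdw w (fun z => H z i j) x)))
    (m : ℕ) : (cv atTop x).T m 0 fun a : Option ℕ => a.elim H u := fun i j =>
  ⟨Eventually.of_forall fun k => ((hu k i j).contDiffAt (hU.mem_nhds hx)).of_le (mod_cast le_top),
    ((hH i j).contDiffAt (hU.mem_nhds hx)).of_le (mod_cast le_top), fun w _ => e w i j⟩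

theorem cv_mt_fix (hG : Good G U) (hx : x ∈ U) (n : ℕ) :
    (cv (atTop : Filter ℕ) x).Mt n fun _ => G :=
  cv_mt (fun i j => cv_fix (((hG.smooth i j).contDiffAt (hG.isOpen.mem_nhds hx)).of_le
    (WithTop.coe_le_coe.2 le_top))) (hG.pos x hx).det_pos.ne'

/-- `cls_Pop_iter`, `cv_limT`. -/
theorem lim_Pop (hG : Good G U) (hx : x ∈ U) (hu : ∀ k, SmT (u k) U) (hH : SmT H U)
    (e : ∀ (w : List (Fin 4)) (i j : Fin 4),
      Tendsto (fun k => pdw w (fun z => u k z i j) x) atTop (𝓝 (pdw w (fun z => H z i j) x)))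
    (μ : ℝ) (j : ℕ) :
    Tendsto (fun k => (Pop μ G)^[j] (u k) x) atTop (𝓝 ((Pop μ G)^[j] H x)) :=
  cv_limT (cls_Pop_iter (l := 0) (μ := fun _ => μ) (cv_mt_fix hG hx (2 * j)) (cv_const _ μ) j
    (by omega) (cv_of_jets hG.isOpen hx hu hH e _))

/-- `Cls.Mt.QQ` with order `0`, `cv_invT`. -/
theorem lim_QQ (hG : Good G U) (hx : x ∈ U) (hu : ∀ k, SmT (u k) U) (hH : SmT H U)
    (e : ∀ (w : List (Fin 4)) (i j : Fin 4),
      Tendsto (fun k => pdw w (fun z => u k z i j) x) atTop (𝓝 (pdw w (fun z => H z i j) x)))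
    (hd : (G x + H x).det ≠ 0) : Tendsto (fun k => QQ G (u k) x) atTop (𝓝 (QQ G H x)) := by
  have h1 := cv_mt_fix hG hx 0
  have h2 := cv_invT ((h1.g.levLe (l := 0) (by omega)).add (cv_of_jets hG.isOpen hx hu hH e 0)) hd
  exact cv_limT (h1.QQ le_rfl le_rfl (cv_of_jets hG.isOpen hx hu hH e _) h2
    (h2.sub (h1.h.levLe (by omega))))

end Local

/-- At `x = Θ a 0`. Equation: `pa_eq`, `lim_Pop` with `j = 1` composed with `k ↦ k + 1`, `lim_QQ`,
uniqueness of limits, then `pa_pow`, `pa_Q`, `pa_inj`. Bound: `n0 g ((GP g)^[j] (u k)) x` tends to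
`n0 g ((GP g)^[j] h) x` by `pa_n0`, `pa_pow`, `lim_Pop`; `NX2_eq`, `fatou`. -/
theorem limit2 {Z : CM} {g h : Z.M → Mat} {s : Z.M → ℝ} {S : Set (Z.M → Z.M)} {ϱ C0 b : ℝ}
    {A : Type} {Θ : A → E4 → Z.M} {σ : A → ℝ} {u : ℕ → Z.M → Mat} (hg : GoodT g)
    (hP : PSys g s ϱ C0 Θ σ) (hu : Itr g s S b u) (hh : SmG h) (hg' : GoodT (g + h))
    (e : ∀ a (w : List (Fin 4)) (i j : Fin 4),
      Tendsto (fun k => pdw w (fun z => pa (σ a) (Θ a) (u k) z i j) 0) atTop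
        (𝓝 (pdw w (fun z => pa (σ a) (Θ a) h z i j) 0))) :
    (∀ x, GE g x + (1 / 2 : ℝ) • GP g h x + GQ g h x = 0) ∧ NX2 g s h ≤ b := by
  have hz : (0 : E4) ∈ Q 3 := zero_mem_Q (by norm_num)
  have hs : ∀ k, SmG (u k) := fun k => (hu.inv k).smooth
  have hG : ∀ a, Good (pa (σ a) (Θ a) g) (Q 3) := fun a => (hP.good a).good
  have hL := fun a j => lim_Pop (hG a) hz (fun k => pa_sm (hP.pt a) (hs k) (σ a))
    (pa_sm (hP.pt a) hh (σ a)) (e a) (3 * σ a ^ 2) j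
  refine ⟨fun x => ?_, ?_⟩
  · obtain ⟨a, rfl⟩ := hP.cover x
    have h0 := (hP.σpos a).ne'
    have h2 : σ a ^ 2 ≠ 0 := pow_ne_zero 2 h0
    have hd : (pa (σ a) (Θ a) g 0 + pa (σ a) (Θ a) h 0).det ≠ 0 := by
      rw [← Pi.add_apply, ← pa_add]
      exact (((hP.pt a).posDef hz (hg'.pos _)).smul (by positivity)).det_pos.ne'
    have l1 := (hL a 1).comp (tendsto_add_atTop_nat 1)
    have l2 := ((lim_QQ (hG a) hz (fun k => pa_sm (hP.pt a) (hs k) (σ a))
      (pa_sm (hP.pt a) hh (σ a)) (e a) hd).const_add (gpull (Θ a) (GE g) 0)).const_smul (-2 : ℝ)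
    have l3 := tendsto_nhds_unique l1 (l2.congr fun k =>
      (pa_eq (hP.pt a) hz h0 hg (hs k) (hs (k + 1)) (hu.good k) (hu.eq k)).symm)
    have l4 : gpull (Θ a) (GE g) 0 = σ a ^ 2 • pa (σ a) (Θ a) (GE g) 0 := by
      rw [pa, smul_smul, mul_inv_cancel₀ h2, one_smul]
    rw [pa_pow (hP.pt a) hz h0 hg hh, pa_Q (hP.pt a) hz h0 hg hh hg', l4, pow_one, ← smul_add,
      smul_comm] at l3
    have l5 := pa_inj (h := GP g h) (k := (-2 : ℝ) • (GE g + GQ g h)) (hP.pt a) hz h0 (by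
      rw [pa_smul, pa_add]
      exact smul_right_injective _ h2 l3)
    rw [l5, Pi.smul_apply, Pi.add_apply]
    module
  · have key : ∀ j x, Tendsto (fun k => n0 g ((GP g)^[j] (u k)) x) atTop
        (𝓝 (n0 g ((GP g)^[j] h) x)) := fun j x => by
      obtain ⟨a, rfl⟩ := hP.cover x
      have h0 := (hP.σpos a).ne'
      have e1 : ∀ v, SmG v → pa (σ a) (Θ a) ((GP g)^[j] v) 0 = ((σ a ^ 2) ^ j)⁻¹ •
          (Pop (3 * σ a ^ 2) (pa (σ a) (Θ a) g))^[j] (pa (σ a) (Θ a) v) 0 := fun v hv => by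
        rw [pa_pow (hP.pt a) hz h0 hg hv, inv_smul_smul₀ (by positivity)]
      have e2 := (hL a j).const_smul ((σ a ^ 2) ^ j)⁻¹
      have e3 : Continuous fun k : Mat => ipM (pa (σ a) (Θ a) g 0) k k := by
        unfold ipM
        fun_prop
      simp only [pa_n0 (hP.pt a) hz h0, e1 _ hh, e1 _ (hs _)]
      exact (e3.tendsto _).comp e2
    rw [NX2_eq hg hP.cont hP.pos hh]
    refine fatou hg (fun k => dX_cont hg hP.cont hP.pos (hs k)) (dX_cont hg hP.cont hP.pos hh)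
      (fun k => dX_nonneg hg hP.pos _) (fun x => ?_)
      fun k => (NX2_eq hg hP.cont hP.pos (hs k)).symm.trans_le (hu.bdd k)
    exact ((key 0 x).const_mul _).add
      (tendsto_finsetSum _ fun i _ => (key (i + 1) x).const_mul _)

end Pool.Agent.Lib.MP_94aef8_gt.FL
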