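import Pool.Agent.Lib.MP_94aef8_gt.F.LinA

/-! Second order expansion of the volume density. -/

open scoped ContDiff Topology
open Matrix Filter Set MeasureTheory

namespace Pool.Agent.Lib.MP_94aef8_gt.FL

theorem linc_diag (A : Mat) (hs : Aᵀ = A) : ∃ l : Fin 4 → ℝ, (1 + A).det = ∏ i, (1 + l i) ∧
    A.trace = ∑ i, l i ∧ ∑ i, ∑ j, A i j * A i j = ∑ i, l i ^ 2 := by
  have hA : A.IsHermitian := by
    unfold Matrix.IsHermitian
    rw [conjTranspose_eq_transpose_of_trivial, hs]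
  set U : Mat := (hA.eigenvectorUnitary : Mat) with hU
  set D : Mat := diagonal hA.eigenvalues with hD
  have h1 : U * star U = 1 := Unitary.coe_mul_star_self hA.eigenvectorUnitary
  have h2 : star U * U = 1 := Unitary.coe_star_mul_self hA.eigenvectorUnitary
  have hsp : A = U * D * star U := by
    have := hA.spectral_theorem
    rw [Unitary.conjStarAlgAut_apply] at this
    simpa using this
  refine ⟨hA.eigenvalues, ?_, ?_, ?_⟩
  · have e : 1 + A = U * (1 + D) * star U := by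
      rw [mul_add, add_mul, mul_one, h1, ← hsp]
    have e2 : (1 + D : Mat) = diagonal fun i => 1 + hA.eigenvalues i := by
      rw [hD, ← diagonal_one, diagonal_add]
    have e3 : U.det * (star U).det = 1 := by rw [← det_mul, h1, det_one]
    rw [e, det_mul, det_mul, e2, det_diagonal, mul_right_comm, e3, one_mul]
  · simpa using hA.trace_eq_sum_eigenvalues
  · have e : ∑ i, ∑ j, A i j * A i j = (A * A).trace := by
      simp only [Matrix.trace, diag_apply, mul_apply]
      refine Finset.sum_congr rfl fun i _ => Finset.sum_congr rfl fun j _ => ?_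
      have : A j i = A i j := by
        conv_lhs => rw [← hs]
        rfl
      rw [this]
    have e2 : A * A = U * (D * D) * star U := by
      conv_lhs => rw [hsp]
      calc U * D * star U * (U * D * star U) = U * D * (star U * U) * D * star U := by
            simp only [Matrix.mul_assoc]
        _ = U * (D * D) * star U := by rw [h2]; simp only [Matrix.mul_assoc, Matrix.one_mul]
    rw [e, e2, trace_mul_cycle, h2, Matrix.one_mul, hD, diagonal_mul_diagonal, trace_diagonal]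
    simp only [sq]

theorem linc_sqrt {u : ℝ} (hu : 0 ≤ 1 + u) : |√(1 + u) - 1 - u / 2| ≤ u ^ 2 := by
  have h0 := Real.sqrt_nonneg (1 + u)
  have h1 := Real.sq_sqrt hu
  set t := √(1 + u) with ht
  have e : u = t ^ 2 - 1 := by linarith
  have e2 : t - 1 - u / 2 = -((t - 1) ^ 2 / 2) := by rw [e]; ring
  have e3 : u ^ 2 = (t - 1) ^ 2 * (t + 1) ^ 2 := by rw [e]; ring
  rw [e2, abs_neg, abs_of_nonneg (by positivity), e3]
  have h2 : 1 ≤ (t + 1) ^ 2 := by nlinarith
  nlinarith [sq_nonneg (t - 1)]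

theorem linc_two {a b : ℝ} (h : a ^ 2 + b ^ 2 ≤ 1 / 100) :
    (a + b + a * b) ^ 2 ≤ 4 * (a ^ 2 + b ^ 2) := by
  have h1 : a ^ 2 * b ^ 2 ≤ a ^ 2 * (1 / 100) :=
    mul_le_mul_of_nonneg_left (by linarith [sq_nonneg a]) (sq_nonneg a)
  linarith [sq_nonneg (a - b), sq_nonneg (a - a * b), sq_nonneg (b - a * b), sq_nonneg a,
    sq_nonneg b]

theorem linc_pq {p q s : ℝ} (h : p ^ 2 + q ^ 2 ≤ 4 * s) (hs : s ≤ 1 / 100) :
    |√((1 + p) * (1 + q)) - 1 - (p + q + p * q) / 2| ≤ 24 * s := by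
  have hp := sq_nonneg p
  have hq := sq_nonneg q
  have hp1 : 0 ≤ 1 + p := by linarith [sq_nonneg (p + 1)]
  have hq1 : 0 ≤ 1 + q := by linarith [sq_nonneg (q + 1)]
  have e : (1 + p) * (1 + q) = 1 + (p + q + p * q) := by ring
  have h1 := linc_sqrt (e ▸ mul_nonneg hp1 hq1)
  have hpq : p ^ 2 * q ^ 2 ≤ p ^ 2 * 1 := mul_le_mul_of_nonneg_left (by linarith) hp
  rw [e]
  refine h1.trans ?_
  linarith [sq_nonneg (p - q), sq_nonneg (p - p * q), sq_nonneg (q - p * q)]

theorem linc_scal {a b c d : ℝ} (h : a ^ 2 + b ^ 2 + c ^ 2 + d ^ 2 ≤ 1 / 100) :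
    |√((1 + a) * (1 + b) * (1 + c) * (1 + d)) - 1 - (a + b + c + d) / 2| ≤
      26 * (a ^ 2 + b ^ 2 + c ^ 2 + d ^ 2) := by
  have ha := sq_nonneg a
  have hb := sq_nonneg b
  have hc := sq_nonneg c
  have hd := sq_nonneg d
  have hp := linc_two (a := a) (b := b) (by linarith)
  have hq := linc_two (a := c) (b := d) (by linarith)
  obtain ⟨p, hpd⟩ : ∃ p, p = a + b + a * b := ⟨_, rfl⟩
  obtain ⟨q, hqd⟩ : ∃ q, q = c + d + c * d := ⟨_, rfl⟩
  have e : (1 + a) * (1 + b) * (1 + c) * (1 + d) = (1 + p) * (1 + q) := by rw [hpd, hqd]; ring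
  have e2 : a + b + c + d = p + q - a * b - c * d := by rw [hpd, hqd]; ring
  rw [← hpd] at hp
  rw [← hqd] at hq
  clear hpd hqd
  have h1 := linc_pq (p := p) (q := q) (by linarith) h
  rw [e, e2]
  rw [abs_le] at h1 ⊢
  constructor
  · linarith [h1.1, sq_nonneg (a + b), sq_nonneg (c + d), sq_nonneg (p + q)]
  · linarith [h1.2, sq_nonneg (a - b), sq_nonneg (c - d), sq_nonneg (p - q)]

/-- With `B` of `ipM_eq` and the symmetric matrix `A = B h Bᵀ`: `B G Bᵀ = 1`, so the quotient of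
determinants is `det (1 + A)`, the trace is `trace A` and `ipM G h h = fro A`. Either diagonalise
`A` (`det (1 + A) = ∏ (1 + λ i)`, `∑ λ i ^ 2 ≤ 1 / 100`) or bound `det (1 + A) - 1 - trace A` by
`fro A`; then use `|√(1 + u) - 1 - u / 2| ≤ u ^ 2` for `|u| ≤ 1 / 2`. -/
theorem sqrt_det : ∃ K > 0, ∀ G h : Mat, G.PosDef → hᵀ = h → ipM G h h ≤ 1 / 100 →
    |√((G + h).det / G.det) - 1 - (G⁻¹ * h).trace / 2| ≤ K * ipM G h h := by
  refine ⟨26, by norm_num, fun G h hG hs hle => ?_⟩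
  obtain ⟨B, hB, hinv, hip⟩ := ipM_eq hG
  have hGd : G.det ≠ 0 := hG.det_pos.ne'
  have h1 : G * Bᵀ * B = 1 := by
    rw [Matrix.mul_assoc, ← hinv, mul_nonsing_inv _ (isUnit_iff_ne_zero.2 hGd)]
  have h2 : B * G * Bᵀ = 1 := by
    rw [Matrix.mul_assoc]; exact mul_eq_one_comm.1 h1
  have hA : (B * h * Bᵀ)ᵀ = B * h * Bᵀ := by
    rw [transpose_mul, transpose_mul, transpose_transpose, hs, Matrix.mul_assoc]
  obtain ⟨l, hl1, hl2, hl3⟩ := linc_diag _ hA
  have e1 : (G + h).det / G.det = (1 + B * h * Bᵀ).det := by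
    have e : 1 + B * h * Bᵀ = B * (G + h) * Bᵀ := by rw [mul_add, add_mul, h2]
    have e' : B.det * G.det * B.det = 1 := by
      have := congrArg Matrix.det h2
      rwa [det_mul, det_mul, det_transpose, det_one] at this
    rw [e, det_mul, det_mul, det_transpose, div_eq_iff hGd]
    linear_combination -(G + h).det * e'
  have e2 : (G⁻¹ * h).trace = (B * h * Bᵀ).trace := by
    rw [hinv, trace_mul_cycle B h Bᵀ]
  rw [hip, hl3] at hle
  rw [e1, e2, hip, hl1, hl2, hl3]
  simp only [Fin.sum_univ_four, Fin.prod_univ_four] at hle ⊢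
  exact linc_scal hle

end Pool.Agent.Lib.MP_94aef8_gt.FL
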