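import Pool.Agent.Lib.MP_94aef8_gt.F.Quad
import Pool.Agent.Lib.MP_94aef8_gt.F.LinC
import Pool.Agent.Lib.MP_94aef8_gt.C.Div

/-! The volume of the solution. -/

open scoped Manifold ContDiff Topology ENNReal
open Matrix Filter Set MeasureTheory

namespace Pool.Agent.Lib.MP_94aef8_gt.FL

/-- `volT_univ_rat`; `sqrt_det` and `n0_le_NX2` bound the integral of
`rat g (g + h) - 1 - trg g h / 2`. The trace of the equation is
`trg (GRic g) + 12 + trg (GP g h) / 2 + trg (GQ g h) = 0`; integrate, `int_trg_GP`, `quad_tr`. All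
functions are continuous (`sm_trg`, `sm_rat`, `sm_n0`), `GoodT.integrable`. -/
theorem vol_est (C0 : ℝ) : ∃ c > 0, ∃ K, 0 ≤ K ∧ ∀ (Z : CM) (g h : Z.M → Mat) (s : Z.M → ℝ)
    (S : Set (Z.M → Z.M)) (ϱ : ℝ) (A : Type) (Θ : A → E4 → Z.M) (σ : A → ℝ), GoodT g → 0 < ϱ →
    PSys g s ϱ C0 Θ σ → InvT S h → GoodT (g + h) → (∀ x, n0 g h x ≤ 1 / 100) →
    NX2 g s h ≤ c * ϱ ^ 2 → (∀ x, GE g x + (1 / 2 : ℝ) • GP g h x + GQ g h x = 0) →
    |(volT (g + h) univ).toReal + 1 / 6 * ∫ x, (trg g (GRic g) x + 6) ∂volT g| ≤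
      K * NX2 g s h := by
  obtain ⟨c, hc, K1, hK1, H1⟩ := quad_tr C0
  obtain ⟨K2, hK2, H2⟩ := sqrt_det
  refine ⟨c, hc, K2 * max C0 1 ^ 2 + K1 / 6, by positivity,
    fun Z g h s S ϱ A Θ σ hg hϱ hP hh hg' h0 hN he => ?_⟩
  have h1 := H1 Z g h s S ϱ A Θ σ hg hϱ hP hh hg' hN
  have h2 := n0_le_NX2 hP hg hh.smooth
  have i1 := hg.integrable (sm_rat hg hg').continuous
  have i2 := hg.integrable (sm_trg hg hh.smooth).continuous
  have i4 := hg.integrable (sm_trg hg (smG_GP hg hh.smooth)).continuous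
  have i5 := hg.integrable (sm_trg hg (smG_GQ hg hh.smooth hg')).continuous
  have i6 := hg.integrable (sm_n0 hg hh.smooth).continuous
  have i7 : ∀ a : ℝ, Integrable (fun _ : Z.M => a) (volT g) := fun a =>
    hg.integrable continuous_const
  have e1 : ∀ x, trg g (GRic g) x + 6 =
      -6 - 1 / 2 * trg g (GP g h) x - trg g (GQ g h) x := fun x => by
    have h3 := congrArg (fun X => ((g x)⁻¹ * X).trace) (he x)
    simp only [GE, Matrix.mul_add, Matrix.mul_smul, Matrix.trace_add, Matrix.trace_smul,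
      Matrix.mul_zero, Matrix.trace_zero, smul_eq_mul,
      Matrix.nonsing_inv_mul _ (hg.pos x).det_pos.ne'.isUnit, Matrix.trace_one,
      Fintype.card_fin] at h3
    simp only [trg]
    push_cast at h3
    linarith
  have e2 : ∫ x, (trg g (GRic g) x + 6) ∂volT g = -6 * ∫ _ : Z.M, (1 : ℝ) ∂volT g -
      3 * ∫ x, trg g h x ∂volT g - ∫ x, trg g (GQ g h) x ∂volT g := by
    simp only [e1]
    have i8 : Integrable (fun x => -6 - 1 / 2 * trg g (GP g h) x) (volT g) :=
      (i7 _).sub (i4.const_mul _)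
    rw [integral_sub i8 i5, integral_sub (i7 _) (i4.const_mul _),
      integral_const_mul, int_trg_GP hg hh.smooth, ← integral_const_mul (-6), mul_one]
    ring
  have e3 : ∫ x, (rat g (g + h) x - 1 - trg g h x / 2) ∂volT g =
      ∫ x, rat g (g + h) x ∂volT g - ∫ _ : Z.M, (1 : ℝ) ∂volT g -
        (∫ x, trg g h x ∂volT g) / 2 := by
    have i8 : Integrable (fun x => rat g (g + h) x - 1) (volT g) := i1.sub (i7 _)
    rw [integral_sub i8 (i2.div_const _), integral_sub i1 (i7 _), integral_div]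
  have h3 : |∫ x, (rat g (g + h) x - 1 - trg g h x / 2) ∂volT g| ≤
      K2 * ∫ x, n0 g h x ∂volT g := by
    rw [← integral_const_mul]
    refine abs_integral_le_integral_abs.trans (integral_mono_of_nonneg
      (Eventually.of_forall fun x => abs_nonneg _) (i6.const_mul _)
      (Eventually.of_forall fun x => ?_))
    exact H2 (g x) (h x) (hg.pos x) (hh.symm x) (h0 x)
  have h4 := (abs_integral_le_integral_abs (μ := volT g) (f := trg g (GQ g h))).trans h1
  have h5 := mul_le_mul_of_nonneg_left h2 hK2.le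
  rw [volT_univ_rat hg hg', e2]
  rw [e3] at h3
  have h6 := abs_le.1 h3
  have h7 := abs_le.1 h4
  rw [abs_le]
  constructor <;> linarith [h6.1, h6.2, h7.1, h7.2]

end Pool.Agent.Lib.MP_94aef8_gt.FL
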