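import Pool.Agent.Lib.MP_94aef8_gt.F.Limit1
import Pool.Agent.Lib.MP_94aef8_gt.F.Limit2
import Pool.Agent.Lib.MP_94aef8_gt.F.Vol
import Pool.Agent.Lib.MP_94aef8_gt.C.Ein

/-! The fixed point and the volume of the Einstein metric. -/

open scoped Manifold ContDiff Topology ENNReal
open Matrix Filter Set MeasureTheory Real

namespace Pool.Agent.Lib.MP_94aef8_gt

open FL

/-- The fixed point and the volume of the Einstein metric. -/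
theorem thmF (C0 : ℝ) : ∃ c > 0, ∃ C, ∀ (Z : CM) (g : Z.M → Mat) (s : Z.M → ℝ)
    (S : Set (Z.M → Z.M)) (ϱ Λ : ℝ) (A : Type) (Θ : A → E4 → Z.M) (σ : A → ℝ),
    GoodT g → (∀ F ∈ S, IsoM g F) → 0 < ϱ → ϱ ≤ 1 → PSys g s ϱ C0 Θ σ → 1 ≤ Λ →
    (∀ h, InvT S h → NX2 g s h ≤ Λ * NY2 g s (GP g h)) → Λ ^ 2 * NY2 g s (GE g) ≤ c * ϱ ^ 2 →
    ∃ g' : Z.M → Mat, GoodT g' ∧ (∀ x, GRic g' x = (-3 : ℝ) • g' x) ∧
      |(volT g' univ).toReal + 1 / 6 * ∫ x, (trg g (GRic g) x + 6) ∂volT g| ≤ C * ϱ ^ 2 := by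
  obtain ⟨β1, hβ, h1⟩ := limit1 C0
  obtain ⟨c2, hc2, K, hK, h2⟩ := vol_est C0
  obtain ⟨c, hc, h3⟩ := iter C0 (min β1 c2) (lt_min hβ hc2)
  refine ⟨c, hc, K * c2, fun Z g s S ϱ Λ A Θ σ hg hS hϱ _ hP hΛ hL hE => ?_⟩
  obtain ⟨u, hu⟩ := h3 Z g s S ϱ Λ A Θ σ hg hS hϱ hP hΛ hL hE
  obtain ⟨h, hh, hn, hj⟩ := h1 Z g s S ϱ _ A Θ σ u hg hϱ hP hu
    (mul_le_mul_of_nonneg_right (min_le_left _ _) (sq_nonneg _))
  have hg' : GoodT (g + h) := hh.good_add hg fun x => (hn x).trans_lt (by norm_num)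
  obtain ⟨he, hb⟩ := limit2 hg hP hu hh.smooth hg' hj
  have hb' : NX2 g s h ≤ c2 * ϱ ^ 2 :=
    hb.trans (mul_le_mul_of_nonneg_right (min_le_right _ _) (sq_nonneg _))
  refine ⟨g + h, hg', einstein_of_eq hg hh.smooth hg' he,
    (h2 Z g h s S ϱ A Θ σ hg hϱ hP hh hg' hn hb' he).trans ?_⟩
  rw [mul_assoc]
  exact mul_le_mul_of_nonneg_left hb' hK

end Pool.Agent.Lib.MP_94aef8_gt
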