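import Pool.Agent.Lib.MP_94aef8_gt.F.Scal
import Pool.Agent.Lib.MP_94aef8_gt.C.Loc2
import Pool.Agent.Lib.MP_94aef8_gt.C.Vol2
import Pool.Agent.Lib.MP_94aef8_gt.C.Glue

/-! Components in a patch of given scale; the densities of the norms. -/

open scoped Manifold ContDiff Topology ENNReal
open Matrix Filter Set MeasureTheory

namespace Pool.Agent.Lib.MP_94aef8_gt.FL

variable {M : Type} [TopologicalSpace M] [T2Space M] [CompactSpace M] [ChartedSpace E4 M]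
  [IsManifold (𝓡 4) ∞ M] [MeasurableSpace M] [BorelSpace M]

/-- The scale invariant components of `h` in the patch `Θ` of scale `σ`. -/
noncomputable def pa (σ : ℝ) (Θ : E4 → M) (h : M → Mat) : Tn := fun y => (σ ^ 2)⁻¹ • gpull Θ h y

/-- The density of `NY2`. -/
noncomputable def dY (g : M → Mat) (s : M → ℝ) (f : M → Mat) (x : M) : ℝ :=
  ∑ i ∈ Finset.range 5, s x ^ (4 * i + 2) * n0 g ((GP g)^[i] f) x

/-- The density of `NX2`. -/
noncomputable def dX (g : M → Mat) (s : M → ℝ) (h : M → Mat) (x : M) : ℝ :=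
  (s x ^ 2)⁻¹ * n0 g h x + dY g s (GP g h) x

variable {g h k f : M → Mat} {s : M → ℝ} {Θ : E4 → M} {U : Set E4} {σ : ℝ} {y : E4}
  {S : Set (M → M)}

theorem pa_sm (hΘ : Pt Θ U) (hh : SmG h) (σ : ℝ) : SmT (pa σ Θ h) U :=
  smo_smul ((σ ^ 2)⁻¹) (hh.patch hΘ)

theorem pa_sym (hΘ : Pt Θ U) (hh : InvT S h) (σ : ℝ) : SymT (pa σ Θ h) U :=
  ⟨pa_sm hΘ hh.smooth σ, fun p _ => by
    rw [pa, transpose_smul, (gpull_symm (hh.symm (Θ p))).eq]⟩

theorem pa_add (σ : ℝ) (Θ : E4 → M) (h k : M → Mat) :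
    pa σ Θ (h + k) = pa σ Θ h + pa σ Θ k := by
  funext y
  simp only [pa, gpull_add, Pi.add_apply, smul_add]

theorem pa_sub (σ : ℝ) (Θ : E4 → M) (h k : M → Mat) :
    pa σ Θ (h - k) = pa σ Θ h - pa σ Θ k := by
  funext y
  simp only [pa, gpull_sub, Pi.sub_apply, smul_sub]

theorem pa_smul (σ : ℝ) (Θ : E4 → M) (c : ℝ) (h : M → Mat) :
    pa σ Θ (c • h) = fun y => c • pa σ Θ h y := by
  funext y
  simp only [pa, gpull_smul, Pi.smul_apply]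
  exact smul_comm _ _ _

theorem pa_inj (hΘ : Pt Θ U) (hy : y ∈ U) (hσ : σ ≠ 0) (e : pa σ Θ h y = pa σ Θ k y) :
    h (Θ y) = k (Θ y) :=
  conj_inj (hΘ.isUnit hy) (smul_right_injective Mat (inv_ne_zero (pow_ne_zero 2 hσ)) e)

theorem pa_tendsto {u : ℕ → M → Mat} (e : Tendsto (fun i => u i (Θ y)) atTop (𝓝 (h (Θ y)))) :
    Tendsto (fun i => pa σ Θ (u i) y) atTop (𝓝 (pa σ Θ h y)) := by
  have hc : Continuous fun A : Mat => (σ ^ 2)⁻¹ • ((jm Θ y)ᵀ * A * jm Θ y) := by fun_prop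
  exact (hc.tendsto _).comp e

theorem pa_n0 (hΘ : Pt Θ U) (hy : y ∈ U) (hσ : σ ≠ 0) (g h : M → Mat) :
    n0 g h (Θ y) = ipM (pa σ Θ g y) (pa σ Θ h y) (pa σ Θ h y) := by
  have h2 : σ ^ 2 ≠ 0 := pow_ne_zero 2 hσ
  rw [hΘ.n0_eq hy, pa, pa, lin_ipM_scale _ _ _ (inv_ne_zero h2), lin_ipM_smul_left,
    lin_ipM_smul_right]
  field_simp

/-- `Pop_iter_scale` with `c = d = (σ ^ 2)⁻¹`, `μ = 3`; `PP = Pop 3`; `Pt.GP_iter_eq`. -/
theorem pa_pow (hΘ : Pt Θ U) (hy : y ∈ U) (hσ : σ ≠ 0) (hg : GoodT g) (hh : SmG h) (j : ℕ) :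
    (Pop (3 * σ ^ 2) (pa σ Θ g))^[j] (pa σ Θ h) y = (σ ^ 2) ^ j • pa σ Θ ((GP g)^[j] h) y := by
  have h2 : σ ^ 2 ≠ 0 := pow_ne_zero 2 hσ
  have h3 := congrFun (Pop_iter_scale (inv_ne_zero h2) 3 (σ ^ 2)⁻¹ (gpull Θ g) (gpull Θ h) j) y
  have h4 : Pop 3 (gpull Θ g) = PP (gpull Θ g) := by
    funext k p
    rw [Pop, PP]
    norm_num
  rw [inv_inv, mul_comm _ (3 : ℝ), h4, ← hΘ.GP_iter_eq hy hg hh, mul_smul] at h3
  exact h3

theorem pa_GD (hΘ : Pt Θ U) (hy : y ∈ U) (hσ : σ ≠ 0) (hg : GoodT g) (hh : SmG h) :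
    ipD (pa σ Θ g) (pa σ Θ h) (pa σ Θ h) y = σ ^ 2 * GD g h h (Θ y) := by
  have h2 : σ ^ 2 ≠ 0 := pow_ne_zero 2 hσ
  have h3 := congrFun (ipD_scale (inv_ne_zero h2) (σ ^ 2)⁻¹ (gpull Θ g) (gpull Θ h)) y
  rw [hΘ.GD_eq hy hg hh hh]
  refine h3.trans ?_
  field_simp

theorem pa_Q (hΘ : Pt Θ U) (hy : y ∈ U) (hσ : σ ≠ 0) (hg : GoodT g) (hh : SmG h)
    (hg' : GoodT (g + h)) : QQ (pa σ Θ g) (pa σ Θ h) y = σ ^ 2 • pa σ Θ (GQ g h) y := by
  have h2 : σ ^ 2 ≠ 0 := pow_ne_zero 2 hσ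
  have h3 := congrFun (QQ_scale (inv_ne_zero h2) (gpull Θ g) (gpull Θ h)) y
  rw [pa, smul_inv_smul₀ h2, hΘ.GQ_eq hy hg hh hg']
  exact h3

theorem pa_eq (hΘ : Pt Θ U) (hy : y ∈ U) (hσ : σ ≠ 0) (hg : GoodT g) (hh : SmG h) (hk : SmG k)
    (hg' : GoodT (g + h)) (e : GP g k = (-2 : ℝ) • (GE g + GQ g h)) :
    Pop (3 * σ ^ 2) (pa σ Θ g) (pa σ Θ k) y =
      (-2 : ℝ) • (gpull Θ (GE g) y + QQ (pa σ Θ g) (pa σ Θ h) y) := by
  have h2 : σ ^ 2 ≠ 0 := pow_ne_zero 2 hσ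
  have h3 := pa_pow hΘ hy hσ hg hk 1
  rw [Function.iterate_one, Function.iterate_one, pow_one, pa, smul_inv_smul₀ h2, e, gpull_smul,
    gpull_add] at h3
  rw [h3, pa_Q hΘ hy hσ hg hh hg', pa, smul_inv_smul₀ h2]
  rfl

theorem smG_iter (hg : GoodT g) (hh : SmG h) (j : ℕ) : SmG ((GP g)^[j] h) :=
  smG_GP_iter hg hh j

theorem dY_nonneg (hg : GoodT g) (hs : ∀ x, 0 < s x) (f : M → Mat) (x : M) :
    0 ≤ dY g s f x :=
  Finset.sum_nonneg fun _ _ => mul_nonneg (pow_nonneg (hs x).le _) (n0_nonneg hg _ x)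

theorem dX_nonneg (hg : GoodT g) (hs : ∀ x, 0 < s x) (h : M → Mat) (x : M) :
    0 ≤ dX g s h x :=
  add_nonneg (mul_nonneg (inv_nonneg.2 (sq_nonneg _)) (n0_nonneg hg _ x)) (dY_nonneg hg hs _ x)

theorem patch_cont1 (hg : GoodT g) (hc : Continuous s) (hf : SmG f) (i : ℕ) :
    Continuous fun x => s x ^ (4 * i + 2) * n0 g ((GP g)^[i] f) x :=
  (hc.pow _).mul (sm_n0 hg (smG_GP_iter hg hf i)).continuous

theorem patch_cont2 (hg : GoodT g) (hc : Continuous s) (hs : ∀ x, 0 < s x) (hh : SmG h) :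
    Continuous fun x => (s x ^ 2)⁻¹ * n0 g h x :=
  ((hc.pow 2).inv₀ fun x => pow_ne_zero 2 (hs x).ne').mul (sm_n0 hg hh).continuous

theorem dY_cont (hg : GoodT g) (hc : Continuous s) (hf : SmG f) : Continuous (dY g s f) :=
  continuous_finsetSum _ fun i _ => patch_cont1 hg hc hf i

theorem dX_cont (hg : GoodT g) (hc : Continuous s) (hs : ∀ x, 0 < s x) (hh : SmG h) :
    Continuous (dX g s h) :=
  (patch_cont2 hg hc hs hh).add (dY_cont hg hc (smG_GP hg hh))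

theorem NY2_eq (hg : GoodT g) (hc : Continuous s) (hf : SmG f) :
    NY2 g s f = ∫ x, dY g s f x ∂volT g :=
  (integral_finsetSum _ fun i _ => hg.integrable (patch_cont1 hg hc hf i)).symm

theorem NX2_eq (hg : GoodT g) (hc : Continuous s) (hs : ∀ x, 0 < s x) (hh : SmG h) :
    NX2 g s h = ∫ x, dX g s h x ∂volT g := by
  rw [NX2, NY2_eq hg hc (smG_GP hg hh)]
  exact (integral_add (hg.integrable (patch_cont2 hg hc hs hh))
    (hg.integrable (dY_cont hg hc (smG_GP hg hh)))).symm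

theorem NY2_nonneg (hg : GoodT g) (hs : ∀ x, 0 < s x) (f : M → Mat) : 0 ≤ NY2 g s f :=
  Finset.sum_nonneg fun _ _ => integral_nonneg fun x =>
    mul_nonneg (pow_nonneg (hs x).le _) (n0_nonneg hg _ x)

theorem NX2_nonneg (hg : GoodT g) (hs : ∀ x, 0 < s x) (h : M → Mat) : 0 ≤ NX2 g s h :=
  add_nonneg (integral_nonneg fun x =>
    mul_nonneg (inv_nonneg.2 (sq_nonneg _)) (n0_nonneg hg _ x)) (NY2_nonneg hg hs _)

theorem NY2_smul (g : M → Mat) (s : M → ℝ) (c : ℝ) (f : M → Mat) :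
    NY2 g s (c • f) = c ^ 2 * NY2 g s f := by
  simp only [NY2, Finset.mul_sum]
  refine Finset.sum_congr rfl fun i _ => ?_
  rw [← integral_const_mul]
  refine integral_congr_ae (Eventually.of_forall fun x => ?_)
  simp only [GP_iter_smul, n0, Pi.smul_apply, lin_ipM_smul_left, lin_ipM_smul_right]
  ring

theorem NY2_add_le (hg : GoodT g) (hc : Continuous s) (hs : ∀ x, 0 < s x) (hf : SmG f)
    (hk : SmG k) : NY2 g s (f + k) ≤ 2 * NY2 g s f + 2 * NY2 g s k := by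
  have h1 := hg.integrable (dY_cont hg hc hf)
  have h2 := hg.integrable (dY_cont hg hc hk)
  rw [NY2_eq hg hc hf, NY2_eq hg hc hk, NY2_eq hg hc (hf.add hk), ← integral_const_mul,
    ← integral_const_mul, ← integral_add (h1.const_mul 2) (h2.const_mul 2)]
  refine integral_mono (hg.integrable (dY_cont hg hc (hf.add hk)))
    ((h1.const_mul 2).add (h2.const_mul 2)) fun x => ?_
  simp only [dY, Finset.mul_sum, ← Finset.sum_add_distrib]
  refine Finset.sum_le_sum fun i _ => ?_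
  have h3 := mul_le_mul_of_nonneg_left
    (lin_ipM_add_le (hg.pos x) ((GP g)^[i] f x) ((GP g)^[i] k x))
    (pow_nonneg (hs x).le (4 * i + 2))
  simp only [GP_iter_add hg hf hk, n0, Pi.add_apply]
  linarith

theorem NX2_zero (g : M → Mat) (s : M → ℝ) : NX2 g s 0 = 0 := by
  have h1 := NY2_smul g s 0 0
  rw [zero_smul] at h1
  rw [NX2, GP_zero, h1]
  simp [n0, lin_ipM_zero_left]

end Pool.Agent.Lib.MP_94aef8_gt.FL
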