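import Pool.Agent.Lib.MP_94aef8_gt.F.Tame
import Pool.Agent.Lib.MP_94aef8_gt.F.Prin

/-! Estimates on one cube, uniform in the metric. -/

open scoped ContDiff Topology
open Matrix Filter Set MeasureTheory

namespace Pool.Agent.Lib.MP_94aef8_gt.FL

open E2

/-- Real numbers in a bounded set, as constant functions. -/
theorem tame_num {ι : Type} (t : TD ι) {μ : ι → ℝ} {B : ℝ} (h : ∀ i, |μ i| ≤ B) (m : ℕ) :
    (tame t).C m 0 fun a _ => μ a.1 := by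
  have h0 := hs_nonneg m (Q t.ρ) fun _ => 1
  refine ⟨fun _ => contDiffOn_const, B ^ 2 * hs m (Q t.ρ) fun _ => 1, by positivity,
    fun i => ⟨fun _ => ?_, ?_⟩⟩
  · have e : (fun _ : E4 => μ i) = μ i • fun _ : E4 => (1 : ℝ) := by
      ext y
      simp
    change hs m (Q t.ρ) (fun _ => μ i) ≤ _
    rw [e, hs_smul, pow_zero, mul_one]
    exact mul_le_mul_of_nonneg_right (sq_le_sq' (abs_le.1 (h i)).1 (abs_le.1 (h i)).2) h0
  · change t.r i * hs m (Q t.ρ) ((fun _ => μ i) - fun _ => μ i) ≤ _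
    rw [sub_self, hs_zero, mul_zero]
    have := t.d0 i
    positivity

/-- The data for a family of tensors measured by their own norm. -/
noncomputable def qloc_td {ι : Type} (m : ℕ) (h : ι → Tn) : TD ι :=
  ⟨3 / 2, 7 / 4, fun i => hsM m (Q (3 / 2)) (h i), fun _ => 0, by norm_num, by norm_num,
    fun _ => hsM_nonneg _ _ _, fun _ => le_rfl⟩

theorem qloc_T {ι : Type} (m : ℕ) {h : ι → Tn} (hs : ∀ i, SmT (h i) (Q (7 / 4))) :
    (tame (qloc_td m h)).T m 1 fun a => h a.1 :=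
  tame_T1 (qloc_td m h) (K := 1) hs fun i => by
    rw [one_mul, pow_one]
    exact le_rfl

theorem qloc_pt {ι : Type} {m : ℕ} {h : ι → Tn} {f : ι → Fn}
    (hf : (tame (qloc_td m h)).C 8 (1 + 1) fun a => f a.1) :
    ∃ K, 0 ≤ K ∧ ∀ i, |f i 0| ≤ K * hsM m (Q (3 / 2)) (h i) := by
  obtain ⟨hs, K, hK, hb⟩ := hf
  obtain ⟨C, hC, h1⟩ := xD1 (r := 3 / 2) (by norm_num)
  refine ⟨√(C * K), Real.sqrt_nonneg _, fun i => ?_⟩
  have h2 : f i 0 ^ 2 ≤ C * MP_94aef8_gt.hs 4 (Q (3 / 2)) (f i) :=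
    h1 (7 / 4) (f i) (by norm_num) (hs (i, true)) 0 fun k => by simp
  have h3 : MP_94aef8_gt.hs 8 (Q (3 / 2)) (f i) ≤ K * hsM m (Q (3 / 2)) (h i) ^ (1 + 1) :=
    (hb i).1 true
  have h4 := hs_mono (j := 4) (k := 8) (by norm_num) (Q (3 / 2)) (f i)
  have h5 := hsM_nonneg m (Q (3 / 2)) (h i)
  refine abs_le_of_sq_le_sq' ?_ (by positivity) |> abs_le.2
  rw [mul_pow, Real.sq_sqrt (mul_nonneg hC hK), mul_assoc]
  exact h2.trans (mul_le_mul_of_nonneg_left (h4.trans h3) hC)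

/-- Index type: the subtype of all `(G, μ, f)` with the hypotheses; `r = hsM 8 (Q (3 / 2)) f`,
`d = 0`, `ρ = 3 / 2`, `R = 7 / 4`. `tame_mt`, `tame_T1` (order 1), `cls_Pop_iter` at level
`8 - 2 j`, `tame_out`, `hsM_mono`, `hsM_cube`; one constant for the five values of `j`. -/
theorem loc_pow (C0 : ℝ) : ∃ K, 0 ≤ K ∧ ∀ (G f : Tn) (μ : ℝ), GoodB C0 G → 0 ≤ μ → μ ≤ 3 →
    SmT f (Q (7 / 4)) → ∀ j ≤ 4,
      hsM 0 (Q 1) ((Pop μ G)^[j] f) ≤ K * hsM 8 (Q (3 / 2)) f := by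
  let ι : Type := {x : Tn × Tn × ℝ //
    GoodB C0 x.1 ∧ 0 ≤ x.2.2 ∧ x.2.2 ≤ 3 ∧ SmT x.2.1 (Q (7 / 4))}
  let t : TD ι := qloc_td 8 fun i => i.1.2.1
  have hG : (tame t).Mt 10 fun a => a.1.1.1 :=
    tame_mt t (by norm_num [t, qloc_td]) (G := fun i => i.1.1) fun i => i.2.1
  have hμ : (tame t).C 10 0 fun a _ => a.1.1.2.2 :=
    tame_num t (μ := fun i => i.1.2.2) (B := 3)
      (fun i => abs_le.2 ⟨by linarith [i.2.2.1], i.2.2.2.1⟩) 10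
  have hf : (tame t).T 8 1 fun a => a.1.1.2.1 := qloc_T 8 fun i : ι => i.2.2.2.2
  have h1 : ∀ j : Fin 5, ∃ K, 0 ≤ K ∧ ∀ i : ι,
      hsM 0 (Q 1) ((Pop i.1.2.2 i.1.1)^[j] i.1.2.1) ≤ K * hsM 8 (Q (3 / 2)) i.1.2.1 := fun j => by
    have hj := j.2
    obtain ⟨hs, K, hK, hb⟩ := tame_out t
      (cls_Pop_iter (l := 0) hG hμ j (by omega) (hf.levLe (by omega)))
    refine ⟨K, hK, fun i => ?_⟩
    have h2 := (hb i).1 true
    rw [pow_one] at h2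
    exact (hsM_cube (r' := 3 / 2) (R := 7 / 4) (by norm_num) (by norm_num) 0 (hs (i, true))).trans h2
  choose K hK hb using h1
  refine ⟨∑ j, K j, Finset.sum_nonneg fun j _ => hK j, fun G f μ h1 h2 h3 h4 j hj => ?_⟩
  refine (hb ⟨j, by omega⟩ ⟨(G, f, μ), h1, h2, h3, h4⟩).trans ?_
  exact mul_le_mul_of_nonneg_right
    (Finset.single_le_sum (fun j _ => hK j) (Finset.mem_univ _)) (hsM_nonneg _ _ _)

/-- Same method with `r = hsM 10 (Q (3 / 2)) h`: `Cls.Mt.ipT`, `Cls.Mt.ipD` at level 8 give order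
2, then `xD1` at the point `0`. -/
theorem loc_pt (C0 : ℝ) : ∃ K, 0 ≤ K ∧ ∀ G h : Tn, GoodB C0 G → SmT h (Q (7 / 4)) →
    |ipT G h h 0| ≤ K * hsM 10 (Q (3 / 2)) h ∧ |ipD G h h 0| ≤ K * hsM 10 (Q (3 / 2)) h := by
  let ι : Type := {x : Tn × Tn // GoodB C0 x.1 ∧ SmT x.2 (Q (7 / 4))}
  let t : TD ι := qloc_td 10 fun i => i.1.2
  have hG : (tame t).Mt 10 fun a => a.1.1.1 :=
    tame_mt t (by norm_num [t, qloc_td]) (G := fun i => i.1.1) fun i => i.2.1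
  have hf : (tame t).T 10 1 fun a => a.1.1.2 := qloc_T 10 fun i : ι => i.2.2
  obtain ⟨K₁, hK₁, h1⟩ := qloc_pt (f := fun i : ι => ipT i.1.1 i.1.2 i.1.2)
    (hG.ipT (l := 8) le_rfl (by norm_num) (hf.levLe (by norm_num)) (hf.levLe (by norm_num)))
  obtain ⟨K₂, hK₂, h2⟩ := qloc_pt (f := fun i : ι => ipD i.1.1 i.1.2 i.1.2)
    (hG.ipD (l := 8) le_rfl (by norm_num) (hf.levLe (by norm_num)) (hf.levLe (by norm_num)))
  refine ⟨K₁ + K₂, add_nonneg hK₁ hK₂, fun G h h3 h4 => ?_⟩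
  have h5 := hsM_nonneg 10 (Q (3 / 2)) h
  exact ⟨(h1 ⟨(G, h), h3, h4⟩).trans (mul_le_mul_of_nonneg_right (le_add_of_nonneg_right hK₂) h5),
    (h2 ⟨(G, h), h3, h4⟩).trans (mul_le_mul_of_nonneg_right (le_add_of_nonneg_left hK₁) h5)⟩

/-- `sobM` on the cube of radius `7 / 4`, `posDef_add`, `inv_diff_bound`. -/
theorem loc_small (C0 e : ℝ) (he : 0 < e) : ∃ c > 0, ∀ G h : Tn, GoodB C0 G → SymT h (Q 3) →
    hsM 10 (Q (7 / 4)) h ≤ c → ∀ y ∈ Q (7 / 4), fro (h y) ≤ e ∧ (G y + h y).PosDef ∧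
      Ell (2 * C0) (G y + h y) ∧ ∀ i j, |((G y + h y)⁻¹ - (G y)⁻¹) i j| ≤ e := by
  have hQ : Q (7 / 4) ⊆ Q 3 := Q_mono (by norm_num)
  by_cases hC0 : 0 < C0
  swap
  · exact ⟨1, one_pos, fun G h hG _ _ y hy =>
      absurd (Ell.pos (hG.good.pos y (hQ hy)) (hG.ell y (hQ hy))) hC0⟩
  obtain ⟨C, hC, hs⟩ := sobM (r := 7 / 4) (by norm_num)
  obtain ⟨e₁, h0, h1, h2⟩ : ∃ e₁, 0 < e₁ ∧ e₁ ≤ 1 / (8 * C0) ∧ e₁ ≤ e / (32 * C0 ^ 2) :=
    ⟨min _ _, lt_min (by positivity) (by positivity), min_le_left _ _, min_le_right _ _⟩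
  refine ⟨min e (e₁ ^ 2) / C, div_pos (lt_min he (by positivity)) hC, fun G h hG hh hc y hy => ?_⟩
  have h3 : fro (h y) ≤ min e (e₁ ^ 2) := by
    refine (hs 3 h (by norm_num) hh.smooth y hy).trans ?_
    have h4 := (hsM_mono (j := 4) (k := 10) (by norm_num) (Q (7 / 4)) h).trans hc
    rw [le_div_iff₀ hC] at h4
    linarith
  have h4 : ∀ i j, |h y i j| ≤ e₁ := fun i j =>
    abs_le.2 (abs_le_of_sq_le_sq' ((sq_le_fro _ i j).trans (h3.trans (min_le_right _ _))) h0.le)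
  have hp := hG.good.pos y (hQ hy)
  have hE : Ell C0 (G y) := hG.ell y (hQ hy)
  have hsy := hh.symm y (hQ hy)
  obtain ⟨h5, h6⟩ := posDef_add hp hE hsy fun i j => (h4 i j).trans h1
  refine ⟨h3.trans (min_le_left _ _), h5, h6, fun i j =>
    (inv_diff_bound hp hE hsy h1 h4 i j).trans ?_⟩
  rw [le_div_iff₀ (by positivity)] at h2
  linarith

theorem qloc_fam {ι : Type} {C0 : ℝ} {G : ι → Tn} {h : ι × Bool → Tn} {r : ι → ℝ}
    (hG : ∀ i, GoodB C0 (G i)) (hs : ∀ a, SmT (h a) (Q 3))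
    (hr : ∀ i b, hsM 10 (Q (7 / 4)) (h (i, b)) ≤ r i) (h1 : ∀ i, r i ≤ 1)
    (hp : ∀ a : ι × Bool, ∀ y ∈ Q (7 / 4),
      (G a.1 y + h a y).PosDef ∧ Ell (2 * C0) (G a.1 y + h a y)) :
    ∃ K, 0 ≤ K ∧ ∀ i, (∀ b, hsM 8 (Q (3 / 2)) (QQ (G i) (h (i, b))) ≤ K * r i ^ 2) ∧
      r i * hsM 8 (Q (3 / 2)) (QQ (G i) (h (i, true)) - QQ (G i) (h (i, false))) ≤
        K * r i ^ 2 * hsM 10 (Q (3 / 2)) (h (i, true) - h (i, false)) := by
  let t : TD ι := ⟨3 / 2, 7 / 4, r, fun i => hsM 10 (Q (3 / 2)) (h (i, true) - h (i, false)),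
    by norm_num, by norm_num, fun i => (hsM_nonneg _ _ _).trans (hr i true),
    fun i => hsM_nonneg _ _ _⟩
  have hQ : Q (7 / 4) ⊆ Q 3 := Q_mono (by norm_num)
  have m1 : (tame t).Mt 10 fun a => G a.1 := tame_mt t (by norm_num : (7 / 4 : ℝ) ≤ 3) hG
  have m2 : (tame t).T 10 1 h := tame_T t (K := 1) (fun a i j => (hs a i j).mono hQ)
    (fun i b => by
      rw [one_mul, pow_one]
      exact (hsM_cube (r := 3 / 2) (by norm_num) (by norm_num) 10 (hs _)).trans (hr i b))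
    fun i => by rw [one_mul, pow_one]
  have m3 : (tame t).T 8 0 fun a => inv (G a.1 + h a) :=
    tame_invT t le_rfl ((m1.g.levLe (by norm_num)).add
      ((m2.levLe (by norm_num)).ordLe (tame_ord t h1) zero_le_one)) hp
  have m4 := m1.invDiff (l := 8) le_rfl (by norm_num) (m2.levLe (by norm_num)) m3 fun a y hy =>
    eventually_of_mem ((isOpen_Q _).mem_nhds hy) fun z hz =>
      ⟨((hG a.1).good.pos z (hQ hz)).det_pos.ne', (hp a z hz).1.det_pos.ne'⟩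
  exact (tame_out t (m1.QQ (l := 8) le_rfl (by norm_num) m2 m3 m4)).2

/-- Index type: the subtype of all `(G, h, h', r)` with the hypotheses, `c ≤ 1` from `loc_small`,
`d = hsM 10 (Q (3 / 2)) (h - h')`; the pair is `fun a => if a.2 then h else h'` (or `cond`).
`tame_T` (level 10, order 1), `tame_ord`, `tame_invT` for `G + h`, `Cls.Mt.invDiff`,
`Cls.Mt.QQ` at level 8, `tame_out`, divide by `r`. -/
theorem loc_Q (C0 : ℝ) : ∃ c > 0, ∃ K, 0 ≤ K ∧ ∀ (G h h' : Tn) (r : ℝ), GoodB C0 G →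
    SymT h (Q 3) → SymT h' (Q 3) → hsM 10 (Q (7 / 4)) h ≤ r → hsM 10 (Q (7 / 4)) h' ≤ r →
    0 < r → r ≤ c → hsM 8 (Q (3 / 2)) (QQ G h) ≤ K * r ^ 2 ∧
      hsM 8 (Q (3 / 2)) (QQ G h - QQ G h') ≤ K * r * hsM 10 (Q (3 / 2)) (h - h') := by
  obtain ⟨c, hc, H⟩ := loc_small C0 1 one_pos
  obtain ⟨K, hK, hz⟩ := qloc_fam (C0 := C0)
    (ι := {z : Tn × (Bool → Tn) × ℝ // GoodB C0 z.1 ∧ (∀ b, SymT (z.2.1 b) (Q 3) ∧
      hsM 10 (Q (7 / 4)) (z.2.1 b) ≤ z.2.2) ∧ z.2.2 ≤ min c 1})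
    (G := fun z => z.1.1) (h := fun a => a.1.1.2.1 a.2) (r := fun z => z.1.2.2)
    (fun z => z.2.1) (fun a => (a.1.2.2.1 a.2).1.smooth) (fun z b => (z.2.2.1 b).2)
    (fun z => z.2.2.2.trans (min_le_right _ _)) fun a y hy =>
      have := H _ _ a.1.2.1 (a.1.2.2.1 a.2).1
        ((a.1.2.2.1 a.2).2.trans (a.1.2.2.2.trans (min_le_left _ _))) y hy
      ⟨this.2.1, this.2.2.1⟩
  refine ⟨min c 1, lt_min hc one_pos, K, hK, fun G h h' r hG hh hh' e e' hr hrc => ?_⟩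
  obtain ⟨h1, h2⟩ := hz ⟨(G, fun b => cond b h h', r), hG,
    fun b => by cases b; exacts [⟨hh', e'⟩, ⟨hh, e⟩], hrc⟩
  refine ⟨h1 true, le_of_mul_le_mul_left (h2.trans_eq ?_) hr⟩
  change K * r ^ 2 * hsM 10 (Q (3 / 2)) (h - h') = _
  ring

/-- `loc_Q` with `h' = h` and every `r` between the norm and `c`; let `r` decrease to the norm
(take half of the constant `c`; `ge_of_tendsto` along `𝓝[>]`). -/
theorem loc_Q0 (C0 : ℝ) : ∃ c > 0, ∃ K, 0 ≤ K ∧ ∀ G h : Tn, GoodB C0 G → SymT h (Q 3) →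
    hsM 10 (Q (7 / 4)) h ≤ c →
      hsM 8 (Q (3 / 2)) (QQ G h) ≤ K * hsM 10 (Q (7 / 4)) h ^ 2 := by
  obtain ⟨c, hc, K, hK, H⟩ := loc_Q C0
  refine ⟨c / 2, half_pos hc, K, hK, fun G h hG hh e => ?_⟩
  have h0 := hsM_nonneg 10 (Q (7 / 4)) h
  have h1 : Tendsto (fun r : ℝ => K * r ^ 2) (𝓝[>] hsM 10 (Q (7 / 4)) h)
      (𝓝 (K * hsM 10 (Q (7 / 4)) h ^ 2)) :=
    ((continuous_const.mul (continuous_pow 2)).tendsto _).mono_left nhdsWithin_le_nhds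
  refine ge_of_tendsto h1 ?_
  filter_upwards [Ioc_mem_nhdsGT (e.trans_lt (half_lt_self hc))] with r hr
  exact (H G h h r hG hh hh hr.1.le hr.1.le (h0.trans_lt hr.1) hr.2).1

end Pool.Agent.Lib.MP_94aef8_gt.FL
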