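import Pool.Agent.Lib.MP_94aef8_gt.F.Patch
import Pool.Agent.Lib.MP_94aef8_gt.F.QLoc

/-! Estimates in one good patch. -/

open scoped Manifold ContDiff Topology ENNReal
open Matrix Filter Set MeasureTheory

namespace Pool.Agent.Lib.MP_94aef8_gt.FL

open E2

theorem patch2_sub : Q 2 ⊆ Q 3 := Q_mono (by norm_num)

theorem patch2_int {Z : CM} {Θ : E4 → Z.M} (hΘ : Pt Θ (Q 3)) {F : Z.M → ℝ} (hF : Continuous F) :
    IntegrableOn (fun y => F (Θ y)) (Q 2) :=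
  integrableOn_Q (by norm_num) (hF.comp_continuousOn hΘ.continuousOn)

theorem patch2_mono {Z : CM} {Θ : E4 → Z.M} (hΘ : Pt Θ (Q 3)) {F F' : Z.M → ℝ} {a b : ℝ}
    (hF : Continuous F) (hF' : Continuous F') (h : ∀ y ∈ Q 3, a * F (Θ y) ≤ b * F' (Θ y)) :
    a * ∫ y in Q 2, F (Θ y) ≤ b * ∫ y in Q 2, F' (Θ y) := by
  rw [← integral_const_mul, ← integral_const_mul]
  exact setIntegral_mono_on ((patch2_int hΘ hF).const_mul a) ((patch2_int hΘ hF').const_mul b)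
    (isOpen_Q 2).measurableSet fun y hy => h y (patch2_sub hy)

theorem patch2_zero (C0 : ℝ) : ∃ K, 0 ≤ K ∧ ∀ (Z : CM) (g f : Z.M → Mat) (s : Z.M → ℝ)
    (Θ : E4 → Z.M) (σ : ℝ), GoodT g → GPt g s C0 Θ σ → SmG f →
    hsM 0 (Q 2) (pa σ Θ f) ≤ K * ∫ y in Q 2, n0 g f (Θ y) := by
  obtain ⟨K, hK, H⟩ := ipM_cmp C0
  refine ⟨K, hK.le, fun Z g f s Θ σ hg hp hf => ?_⟩
  have hs := pa_sm hp.pt hf σ
  have hc : ContinuousOn (fun y => fro (pa σ Θ f y)) (Q 3) :=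
    continuousOn_finsetSum _ fun i _ => continuousOn_finsetSum _ fun j _ =>
      (hs i j).continuousOn.pow 2
  rw [hsM_zero_eq (by norm_num : (2 : ℝ) < 3) hs, ← integral_const_mul]
  refine setIntegral_mono_on (integrableOn_Q (by norm_num) hc)
    ((patch2_int hp.pt (sm_n0 hg hf).continuous).const_mul K) (isOpen_Q 2).measurableSet
    fun y hy => ?_
  have hy' := patch2_sub hy
  rw [pa_n0 hp.pt hy' hp.σpos.ne']
  exact (H _ _ (hp.good.good.pos y hy') (hp.good.ell y hy')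
    fun i j => hp.good.bdd i j [] (by simp) y hy').2

theorem patch2_pow {C0 σ t : ℝ} (hσ : 0 < σ) (ht : 0 < t) (h : σ ≤ C0 * t) {i : ℕ} (hi : i < 5) :
    ((σ ^ 2) ^ (i + 1)) ^ 2 ≤ (1 + |C0|) ^ 18 * σ ^ 2 * t ^ (4 * i + 2) := by
  have h1 : 1 ≤ 1 + |C0| := le_add_of_nonneg_right (abs_nonneg _)
  have h2 : σ ≤ (1 + |C0|) * t :=
    h.trans (mul_le_mul_of_nonneg_right (by linarith [le_abs_self C0]) ht.le)
  calc ((σ ^ 2) ^ (i + 1)) ^ 2 = σ ^ (4 * i + 2) * σ ^ 2 := by ring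
    _ ≤ ((1 + |C0|) * t) ^ (4 * i + 2) * σ ^ 2 := by gcongr
    _ = (1 + |C0|) ^ (4 * i + 2) * σ ^ 2 * t ^ (4 * i + 2) := by rw [mul_pow, mul_right_comm]
    _ ≤ _ := by
      gcongr
      omega

/-- `xD3` with `m = 5`, radii `7 / 4 < 2`, `μ = 3 σ ^ 2`; `hsM_zero_eq`, `pa_pow`, `ipM_cmp`,
`pa_n0`; for `j = i + 1` use `σ ^ (4 i + 4) ≤ σ ^ 2 (C0 s) ^ (4 i + 2)`
(`Function.iterate_succ_apply`). All integrands are continuous on `Q 3` (`integrableOn_Q`,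
`Pt.continuousOn`). -/
theorem patch_low (C0 : ℝ) : ∃ K, 0 ≤ K ∧ ∀ (Z : CM) (g h : Z.M → Mat) (s : Z.M → ℝ)
    (Θ : E4 → Z.M) (σ : ℝ), GoodT g → Continuous s → (∀ x, 0 < s x) → GPt g s C0 Θ σ → SmG h →
    hsM 10 (Q (7 / 4)) (pa σ Θ h) ≤ K * ((∫ y in Q 2, n0 g h (Θ y)) +
      σ ^ 2 * ∫ y in Q 2, dY g s (GP g h) (Θ y)) := by
  obtain ⟨C, hC, H⟩ := xD3 C0 (m := 5) le_rfl (r := 7 / 4) (r' := 2) (by norm_num) (by norm_num)
    (by norm_num)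
  obtain ⟨K, hK, H0⟩ := patch2_zero C0
  refine ⟨C * (K * (1 + 5 * (1 + |C0|) ^ 18)), by positivity, fun Z g h s Θ σ hg hc hs hp hh => ?_⟩
  have hσ := hp.σpos
  have hI : 0 ≤ ∫ y in Q 2, n0 g h (Θ y) := integral_nonneg fun y => n0_nonneg hg h _
  have hJ : 0 ≤ ∫ y in Q 2, dY g s (GP g h) (Θ y) := integral_nonneg fun y => dY_nonneg hg hs _ _
  have h1 : ∀ i ∈ Finset.range 5, hsM 0 (Q 2) ((Pop (3 * σ ^ 2) (pa σ Θ g))^[i + 1] (pa σ Θ h)) ≤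
      K * ((1 + |C0|) ^ 18 * σ ^ 2 * ∫ y in Q 2, dY g s (GP g h) (Θ y)) := by
    intro i hi
    have hi' := smG_iter hg hh (i + 1)
    rw [hsM_congr (isOpen_Q 2) 0 fun y hy => pa_pow hp.pt (patch2_sub hy) hσ.ne' hg hh (i + 1),
      hsM_smul]
    refine (mul_le_mul_of_nonneg_left (H0 Z g _ s Θ σ hg hp hi') (sq_nonneg _)).trans ?_
    rw [mul_left_comm]
    refine mul_le_mul_of_nonneg_left (patch2_mono hp.pt (sm_n0 hg hi').continuous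
      (dY_cont hg hc (smG_GP hg hh)) fun y hy => ?_) hK
    refine (mul_le_mul_of_nonneg_right (patch2_pow hσ (hs _) (hp.sge y hy) (Finset.mem_range.1 hi))
      (n0_nonneg hg _ _)).trans ?_
    rw [mul_assoc]
    refine mul_le_mul_of_nonneg_left ?_ (by positivity)
    exact Finset.single_le_sum (f := fun i => s (Θ y) ^ (4 * i + 2) *
      n0 g ((GP g)^[i] (GP g h)) (Θ y))
      (fun j _ => mul_nonneg (pow_pos (hs _) _).le (n0_nonneg hg _ _)) hi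
  have h2 := Finset.sum_le_card_nsmul _ _ _ h1
  have h3 := H0 Z g h s Θ σ hg hp hh
  rw [Finset.card_range, nsmul_eq_mul, Nat.cast_ofNat] at h2
  refine (H (pa σ Θ g) _ (3 * σ ^ 2) hp.good (by positivity) (by nlinarith [hp.σle])
    (pa_sm hp.pt hh σ)).trans ?_
  rw [mul_assoc C, Finset.sum_range_succ']
  refine mul_le_mul_of_nonneg_left ((add_le_add h2 h3).trans ?_) hC
  generalize (∫ y in Q 2, n0 g h (Θ y)) = I at hI
  generalize (∫ y in Q 2, dY g s (GP g h) (Θ y)) = J at hJ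
  have hB : 0 ≤ (1 + |C0|) ^ 18 := by positivity
  generalize (1 + |C0|) ^ 18 = B at hB
  have h4 : 0 ≤ K * (5 * B * I + σ ^ 2 * J) := by positivity
  linarith

/-- `n0 ≤ C0 ^ 2 σ ^ 2 (s ^ 2)⁻¹ n0` on the patch. -/
theorem patch_lowX (C0 : ℝ) : ∃ K, 0 ≤ K ∧ ∀ (Z : CM) (g h : Z.M → Mat) (s : Z.M → ℝ)
    (Θ : E4 → Z.M) (σ : ℝ), GoodT g → Continuous s → (∀ x, 0 < s x) → GPt g s C0 Θ σ → SmG h →
    hsM 10 (Q (7 / 4)) (pa σ Θ h) ≤ K * σ ^ 2 * ∫ y in Q 2, dX g s h (Θ y) := by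
  obtain ⟨K, hK, H⟩ := patch_low C0
  refine ⟨K * (C0 ^ 2 + 1), by positivity, fun Z g h s Θ σ hg hc hs hp hh => ?_⟩
  have hX := dX_cont hg hc hs hh
  have h1 := patch2_mono (a := 1) (b := C0 ^ 2 * σ ^ 2) hp.pt (sm_n0 hg hh).continuous hX
    fun y hy => by
      have h2 : 1 ≤ C0 ^ 2 * σ ^ 2 * (s (Θ y) ^ 2)⁻¹ := by
        rw [← div_eq_mul_inv, one_le_div₀ (pow_pos (hs _) 2), ← mul_pow]
        exact pow_le_pow_left₀ (hs _).le (hp.sle y hy) 2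
      refine (mul_le_mul_of_nonneg_right h2 (n0_nonneg hg _ _)).trans ?_
      rw [mul_assoc]
      exact mul_le_mul_of_nonneg_left (le_add_of_nonneg_right (dY_nonneg hg hs _ _))
        (by positivity)
  have h3 := patch2_mono (a := σ ^ 2) (b := σ ^ 2) hp.pt (dY_cont hg hc (smG_GP hg hh)) hX
    fun y _ => mul_le_mul_of_nonneg_left (le_add_of_nonneg_left
      (mul_nonneg (by positivity) (n0_nonneg hg _ _))) (sq_nonneg _)
  refine (H Z g h s Θ σ hg hc hs hp hh).trans ?_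
  rw [mul_assoc K, mul_assoc K]
  refine mul_le_mul_of_nonneg_left ?_ hK
  linarith

/-- `loc_pt`, `pa_n0`, `pa_GD`, `patch_low`. -/
theorem patch_pt (C0 : ℝ) : ∃ K, 0 ≤ K ∧ ∀ (Z : CM) (g h : Z.M → Mat) (s : Z.M → ℝ)
    (Θ : E4 → Z.M) (σ : ℝ), GoodT g → Continuous s → (∀ x, 0 < s x) → GPt g s C0 Θ σ → SmG h →
    n0 g h (Θ 0) + σ ^ 2 * |GD g h h (Θ 0)| ≤ K * ((∫ y in Q 2, n0 g h (Θ y)) +
      σ ^ 2 * ∫ y in Q 2, dY g s (GP g h) (Θ y)) := by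
  obtain ⟨K, hK, H⟩ := patch_low C0
  obtain ⟨K', hK', H'⟩ := loc_pt C0
  refine ⟨2 * (K' * K), by positivity, fun Z g h s Θ σ hg hc hs hp hh => ?_⟩
  have h0 : (0 : E4) ∈ Q 3 := fun i => by simp
  have hsm := pa_sm hp.pt hh σ
  obtain ⟨h1, h2⟩ := H' (pa σ Θ g) _ hp.good (smo_mono hsm (Q_mono (by norm_num)))
  have h3 := mul_le_mul_of_nonneg_left ((hsM_cube (r := 3 / 2) (by norm_num) (by norm_num) 10
    hsm).trans (H Z g h s Θ σ hg hc hs hp hh)) hK'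
  rw [ipT, ← pa_n0 hp.pt h0 hp.σpos.ne'] at h1
  rw [pa_GD hp.pt h0 hp.σpos.ne' hg hh, abs_mul, abs_sq] at h2
  linarith [le_abs_self (n0 g h (Θ 0))]

/-- `s ^ (4 i + 2) ≤ (C0 σ) ^ (4 i + 2)`, `pa_n0`, `pa_pow`, `ipM_smul`, `ipM_cmp`,
`hsM_zero_eq`, `loc_pow`. -/
theorem patch_up (C0 : ℝ) : ∃ K, 0 ≤ K ∧ ∀ (Z : CM) (g f : Z.M → Mat) (s : Z.M → ℝ)
    (Θ : E4 → Z.M) (σ : ℝ), GoodT g → Continuous s → (∀ x, 0 < s x) → GPt g s C0 Θ σ → SmG f →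
    ∫ y in Q 1, dY g s f (Θ y) ≤ K * σ ^ 2 * hsM 8 (Q (3 / 2)) (pa σ Θ f) := by
  obtain ⟨K1, hK1, h1⟩ := ipM_cmp C0
  obtain ⟨K2, hK2, h2⟩ := loc_pow C0
  have hC : ∀ i : ℕ, 0 ≤ C0 ^ (4 * i + 2) := fun i => Even.pow_nonneg ⟨2 * i + 1, by ring⟩ _
  refine ⟨(∑ i ∈ Finset.range 5, C0 ^ (4 * i + 2)) * K1 * K2,
    mul_nonneg (mul_nonneg (Finset.sum_nonneg fun i _ => hC i) hK1.le) hK2, ?_⟩
  intro Z g f s Θ σ hg _ hs hP hf
  have hB : GoodB C0 (pa σ Θ g) := hP.good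
  have hσ := hP.σpos
  have hF := pa_sm hP.pt hf σ
  have hS : ∀ j, SmT ((Pop (3 * σ ^ 2) (pa σ Θ g))^[j] (pa σ Θ f)) (Q 3) :=
    fun j => sm_Pop_iter hB.good hF _ j
  have hI : ∀ j, IntegrableOn
      (fun y => fro ((Pop (3 * σ ^ 2) (pa σ Θ g))^[j] (pa σ Θ f) y)) (Q 1) := fun j =>
    integrableOn_Q (R := 3) (by norm_num) (continuousOn_finsetSum _ fun a _ =>
      continuousOn_finsetSum _ fun b _ => (hS j a b).continuousOn.pow 2)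
  have hpt : ∀ y ∈ Q 1, dY g s f (Θ y) ≤ ∑ i ∈ Finset.range 5, C0 ^ (4 * i + 2) * K1 * σ ^ 2 *
      fro ((Pop (3 * σ ^ 2) (pa σ Θ g))^[i] (pa σ Θ f) y) := by
    intro y hy
    have hy3 : y ∈ Q 3 := Q_mono (by norm_num) hy
    refine Finset.sum_le_sum fun i _ => ?_
    have a1 : s (Θ y) ^ (4 * i + 2) ≤ (C0 * σ) ^ (4 * i + 2) :=
      pow_le_pow_left₀ (hs _).le (hP.sle y hy3) _
    have a2 : n0 g ((GP g)^[i] f) (Θ y) ≤ K1 * fro (pa σ Θ ((GP g)^[i] f) y) := by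
      rw [pa_n0 hP.pt hy3 hσ.ne']
      exact (h1 _ _ (hB.good.pos y hy3) (hB.ell y hy3)
        fun a b => hB.bdd a b [] (Nat.zero_le _) y hy3).1
    rw [pa_pow hP.pt hy3 hσ.ne' hg hf, fro_smul]
    refine (mul_le_mul a1 a2 (n0_nonneg hg _ _) ((pow_nonneg (hs _).le _).trans a1)).trans_eq ?_
    ring
  have hQ : MeasurableSet (Q 1) := (isOpen_Q 1).measurableSet
  refine (integral_mono_of_nonneg (ae_of_all _ fun y => dY_nonneg hg hs f (Θ y))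
    (integrable_finsetSum _ fun i _ => (hI i).const_mul _)
    (ae_restrict_of_forall_mem hQ hpt)).trans ?_
  rw [integral_finsetSum _ fun i _ => (hI i).const_mul _, Finset.sum_mul, Finset.sum_mul,
    Finset.sum_mul, Finset.sum_mul]
  refine Finset.sum_le_sum fun i hi => ?_
  have b1 := h2 _ _ (3 * σ ^ 2) hB (by positivity)
    (by nlinarith [hP.σle]) (fun a b => (hF a b).mono (Q_mono (by norm_num))) i
    (Nat.lt_succ_iff.1 (Finset.mem_range.1 hi))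
  rw [hsM_zero_eq (R := 3) (by norm_num) (hS i)] at b1
  rw [integral_const_mul]
  refine (mul_le_mul_of_nonneg_left b1
    (mul_nonneg (mul_nonneg (hC i) hK1.le) (sq_nonneg σ))).trans_eq ?_
  ring

/-- `pa_n0`, `ipM_cmp`, `sobM`. -/
theorem patch_sup (C0 : ℝ) : ∃ K, 0 ≤ K ∧ ∀ (Z : CM) (g f : Z.M → Mat) (s : Z.M → ℝ)
    (Θ : E4 → Z.M) (σ : ℝ), GPt g s C0 Θ σ → SmG f → ∀ y ∈ Q (3 / 2),
    n0 g f (Θ y) ≤ K * hsM 4 (Q (3 / 2)) (pa σ Θ f) := by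
  obtain ⟨K1, hK1, h1⟩ := ipM_cmp C0
  obtain ⟨K2, hK2, h2⟩ := sobM (r := 3 / 2) (by norm_num)
  refine ⟨K1 * K2, by positivity, ?_⟩
  intro Z g f s Θ σ hP hf y hy
  have hB : GoodB C0 (pa σ Θ g) := hP.good
  have hy3 : y ∈ Q 3 := Q_mono (by norm_num) hy
  rw [pa_n0 hP.pt hy3 hP.σpos.ne', mul_assoc]
  exact (h1 _ _ (hB.good.pos y hy3) (hB.ell y hy3)
    fun a b => hB.bdd a b [] (Nat.zero_le _) y hy3).1.trans (mul_le_mul_of_nonneg_left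
      (h2 3 _ (by norm_num) (pa_sm hP.pt hf σ) y hy) hK1.le)

end Pool.Agent.Lib.MP_94aef8_gt.FL
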