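import Pool.Agent.Lib.MP_94aef8_gt.F.Patch2
import Pool.Agent.Lib.MP_94aef8_gt.F.Chain

/-! The quadratic estimates on the manifold. -/

open scoped Manifold ContDiff Topology ENNReal
open Matrix Filter Set MeasureTheory

namespace Pool.Agent.Lib.MP_94aef8_gt.FL

open E2

/-- `patch_lowX`, `mult_real`, `NX2_eq`. -/
theorem quad_patch (C0 : ℝ) : ∃ K, 0 < K ∧ ∀ (Z : CM) (g h : Z.M → Mat) (s : Z.M → ℝ) (ϱ : ℝ)
    (A : Type) (Θ : A → E4 → Z.M) (σ : A → ℝ), GoodT g → 0 < ϱ → PSys g s ϱ C0 Θ σ → SmG h →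
    ∀ a, hsM 10 (Q (7 / 4)) (pa (σ a) (Θ a) h) ≤ K * ((ϱ ^ 2)⁻¹ * NX2 g s h) := by
  obtain ⟨K, hK, e⟩ := patch_lowX C0
  refine ⟨K * max C0 1 + 1, by positivity, fun Z g h s ϱ A Θ σ hg hϱ hP hh a => ?_⟩
  have h1 := mult_real hP hg (dX_cont hg hP.cont hP.pos hh) (dX_nonneg hg hP.pos h) a
  rw [← NX2_eq hg hP.cont hP.pos hh] at h1
  have h2 := NX2_nonneg hg hP.pos h
  have h3 := hP.σpos a
  calc _ ≤ K * σ a ^ 2 * (max C0 1 * ((ϱ * σ a) ^ 2)⁻¹ * NX2 g s h) :=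
        (e Z g h s _ _ hg hP.cont hP.pos (gpt hP a) hh).trans (by gcongr)
    _ = K * max C0 1 * ((ϱ ^ 2)⁻¹ * NX2 g s h) := by field_simp
    _ ≤ _ := by gcongr; linarith

/-- `PSys.cover`, `patch_sup`, `quad_patch`. -/
theorem quad_sup (C0 : ℝ) : ∃ K, 0 < K ∧ ∀ (Z : CM) (g h : Z.M → Mat) (s : Z.M → ℝ) (ϱ : ℝ)
    (A : Type) (Θ : A → E4 → Z.M) (σ : A → ℝ), GoodT g → 0 < ϱ → PSys g s ϱ C0 Θ σ → SmG h →
    ∀ x, n0 g h x ≤ K * ((ϱ ^ 2)⁻¹ * NX2 g s h) := by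
  obtain ⟨K, hK, e⟩ := quad_patch C0
  obtain ⟨K', hK', e'⟩ := patch_sup C0
  refine ⟨(K' + 1) * K, by positivity, fun Z g h s ϱ A Θ σ hg hϱ hP hh x => ?_⟩
  obtain ⟨a, rfl⟩ := hP.cover x
  have h1 := ((hsM_mono (by norm_num : 4 ≤ 10) _ _).trans (hsM_cube (by norm_num : (3 / 2 : ℝ) ≤ 7 / 4)
    (by norm_num) 10 (pa_sm (hP.pt a) hh (σ a)))).trans (e Z g h s ϱ A Θ σ hg hϱ hP hh a)
  have h2 := hsM_nonneg 4 (Q (3 / 2)) (pa (σ a) (Θ a) h)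
  rw [mul_assoc]
  exact (e' Z g h s _ _ (gpt hP a) hh 0 (zero_mem_Q (by norm_num))).trans
    (mul_le_mul (by linarith) h1 h2 (by positivity))

theorem quad_key (C0 : ℝ) : ∃ K, 0 ≤ K ∧ ∀ (Z : CM) (g f u : Z.M → Mat) (s : Z.M → ℝ) (ϱ L : ℝ)
    (A : Type) (Θ : A → E4 → Z.M) (σ : A → ℝ), GoodT g → PSys g s ϱ C0 Θ σ → SmG f → SmG u →
    0 ≤ L → (∀ a, hsM 8 (Q (3 / 2)) (fun y => σ a ^ 2 • pa (σ a) (Θ a) f y) ≤
      L * hsM 10 (Q (7 / 4)) (pa (σ a) (Θ a) u)) → NY2 g s f ≤ K * L * NX2 g s u := by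
  obtain ⟨KU, hU0, hU⟩ := patch_up C0
  obtain ⟨KL, hL0, hL⟩ := patch_lowX C0
  have hm : (0 : ℝ) ≤ max C0 1 := zero_le_one.trans (le_max_right _ _)
  refine ⟨max C0 1 * (KU * KL), by positivity, fun Z g f u s ϱ L A Θ σ hg P hf hu hL' e => ?_⟩
  rw [NY2_eq hg P.cont hf, NX2_eq hg P.cont P.pos hu]
  refine (chain_real P hg (dY_cont hg P.cont hf) (dX_cont hg P.cont P.pos hu)
    (dY_nonneg hg P.pos f) (dX_nonneg hg P.pos u) (L := KU * KL * L) (by positivity)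
    fun a => ?_).trans_eq (by ring)
  have h1 := hU Z g f s _ _ hg P.cont P.pos (gpt P a) hf
  have h2 := (e a).trans (mul_le_mul_of_nonneg_left
    (hL Z g u s _ _ hg P.cont P.pos (gpt P a) hu) hL')
  rw [hsM_smul] at h2
  have hσ : 0 < σ a ^ 2 := pow_pos (P.σpos a) 2
  have h3 : σ a ^ 2 * hsM 8 (Q (3 / 2)) (pa (σ a) (Θ a) f) ≤
      KL * L * ∫ y in Q 2, dX g s u (Θ a y) :=
    le_of_mul_le_mul_left (h2.trans_eq' (by ring) |>.trans_eq (by ring)) hσ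
  refine h1.trans ?_
  rw [mul_assoc, mul_assoc KU, mul_assoc KU]
  exact mul_le_mul_of_nonneg_left h3 hU0

/-- `quad_sup` and `InvT.good_add` give the metric. In a patch `pa σ Θ (GQ g h)` is
`(σ ^ 2)⁻¹ • QQ ..` on `Q 3` (`pa_Q`, `hsM_congr`, `hsM_smul`). `patch_up`, then `loc_Q0` with
one factor bounded by `quad_patch` (`≤ K β`) and the other by `patch_lowX`; `chain_real`. For the
difference use `loc_Q` with `r = K β`, `pa_sub`, `hsM_cube`. -/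
theorem quad (C0 : ℝ) : ∃ c > 0, ∃ K, 0 ≤ K ∧ ∀ (Z : CM) (g h h' : Z.M → Mat) (s : Z.M → ℝ)
    (S : Set (Z.M → Z.M)) (ϱ β : ℝ) (A : Type) (Θ : A → E4 → Z.M) (σ : A → ℝ), GoodT g → 0 < ϱ →
    PSys g s ϱ C0 Θ σ → InvT S h → InvT S h' → 0 < β → β ≤ c → NX2 g s h ≤ β * ϱ ^ 2 →
    NX2 g s h' ≤ β * ϱ ^ 2 → GoodT (g + h) ∧ NY2 g s (GQ g h) ≤ K * β * NX2 g s h ∧
      NY2 g s (GQ g h - GQ g h') ≤ K * β * NX2 g s (h - h') := by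
  obtain ⟨K1, h10, h1⟩ := quad_patch C0
  obtain ⟨K2, h20, h2⟩ := quad_sup C0
  obtain ⟨K3, h30, h3⟩ := quad_key C0
  obtain ⟨c0, hc0, K4, h40, h4⟩ := loc_Q0 C0
  obtain ⟨c1, hc1, K5, h50, h5⟩ := loc_Q C0
  refine ⟨min (min (c0 / K1) (c1 / K1)) (1 / 2 / K2), by positivity, K3 * ((K4 + K5) * K1),
    by positivity, fun Z g h h' s S ϱ β A Θ σ hg hϱ P hh hh' hβ hc e e' => ?_⟩
  have b0 : K1 * β ≤ c0 :=
    (le_div_iff₀' h10).1 (hc.trans ((min_le_left _ _).trans (min_le_left _ _)))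
  have b1 : K1 * β ≤ c1 :=
    (le_div_iff₀' h10).1 (hc.trans ((min_le_left _ _).trans (min_le_right _ _)))
  have b2 : K2 * β ≤ 1 / 2 := (le_div_iff₀' h20).1 (hc.trans (min_le_right _ _))
  have key : ∀ u : Z.M → Mat, InvT S u → NX2 g s u ≤ β * ϱ ^ 2 → GoodT (g + u) ∧
      ∀ a, hsM 10 (Q (7 / 4)) (pa (σ a) (Θ a) u) ≤ K1 * β := fun u hu eu => by
    have : (ϱ ^ 2)⁻¹ * NX2 g s u ≤ β := (inv_mul_le_iff₀' (pow_pos hϱ 2)).2 eu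
    exact ⟨hu.good_add hg fun x => ((h2 Z g u s ϱ A Θ σ hg hϱ P hu.smooth x).trans
      ((mul_le_mul_of_nonneg_left this h20.le).trans b2)).trans_lt (by norm_num), fun a =>
      (h1 Z g u s ϱ A Θ σ hg hϱ P hu.smooth a).trans (mul_le_mul_of_nonneg_left this h10.le)⟩
  obtain ⟨g1, k1⟩ := key h hh e
  obtain ⟨g2, k2⟩ := key h' hh' e'
  have hs3 : Q (3 / 2) ⊆ Q 3 := Q_mono (by norm_num)
  have hL : 0 ≤ (K4 + K5) * (K1 * β) := by positivity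
  refine ⟨g1, (h3 Z g _ h s ϱ _ A Θ σ hg P (smG_GQ hg hh.smooth g1) hh.smooth hL
    fun a => ?_).trans_eq (by ring), (h3 Z g _ (h - h') s ϱ _ A Θ σ hg P
      ((smG_GQ hg hh.smooth g1).sub (smG_GQ hg hh'.smooth g2)) (hh.smooth.sub hh'.smooth) hL
    fun a => ?_).trans_eq (by ring)⟩
  · rw [← hsM_congr (isOpen_Q _) 8 fun y hy =>
      pa_Q (P.pt a) (hs3 hy) (P.σpos a).ne' hg hh.smooth g1]
    refine (h4 _ _ (P.good a) (pa_sym (P.pt a) hh _) ((k1 a).trans b0)).trans ?_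
    have p := hsM_nonneg 10 (Q (7 / 4)) (pa (σ a) (Θ a) h)
    rw [sq, ← mul_assoc]
    refine mul_le_mul_of_nonneg_right ?_ p
    exact mul_le_mul (le_add_of_nonneg_right h50) (k1 a) p (by positivity)
  · have q : EqOn (QQ (pa (σ a) (Θ a) g) (pa (σ a) (Θ a) h) -
        QQ (pa (σ a) (Θ a) g) (pa (σ a) (Θ a) h'))
        (fun y => σ a ^ 2 • pa (σ a) (Θ a) (GQ g h - GQ g h') y) (Q (3 / 2)) := fun y hy => by
      rw [Pi.sub_apply, pa_Q (P.pt a) (hs3 hy) (P.σpos a).ne' hg hh.smooth g1,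
        pa_Q (P.pt a) (hs3 hy) (P.σpos a).ne' hg hh'.smooth g2, pa_sub]
      exact (smul_sub _ _ _).symm
    rw [← hsM_congr (isOpen_Q _) 8 q]
    refine (h5 _ _ _ _ (P.good a) (pa_sym (P.pt a) hh _) (pa_sym (P.pt a) hh' _) (k1 a) (k2 a)
      (by positivity) b1).2.trans ?_
    rw [← pa_sub]
    exact mul_le_mul (mul_le_mul_of_nonneg_right (le_add_of_nonneg_left h40) (by positivity))
      (hsM_cube (by norm_num) (by norm_num) _ (pa_sm (P.pt a) (hh.smooth.sub hh'.smooth) _))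
      (hsM_nonneg _ _ _) hL

/-- On `Q 1`: `trg ^ 2 ≤ 4 n0` (`tr_sq_le`), `patch_sup` for `GQ g h`, `loc_Q0`, so that
`|trg g (GQ g h) (Θ y)| ≤ K (σ ^ 2)⁻¹ hsM 10 (Q (7 / 4)) (pa σ Θ h)`; the cube has finite volume;
`patch_lowX`, `chain_real`. -/
theorem quad_tr (C0 : ℝ) : ∃ c > 0, ∃ K, 0 ≤ K ∧ ∀ (Z : CM) (g h : Z.M → Mat) (s : Z.M → ℝ)
    (S : Set (Z.M → Z.M)) (ϱ : ℝ) (A : Type) (Θ : A → E4 → Z.M) (σ : A → ℝ), GoodT g → 0 < ϱ →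
    PSys g s ϱ C0 Θ σ → InvT S h → GoodT (g + h) → NX2 g s h ≤ c * ϱ ^ 2 →
    ∫ x, |trg g (GQ g h) x| ∂volT g ≤ K * NX2 g s h := by
  obtain ⟨K₀, hK₀, e₀⟩ := quad_patch C0
  obtain ⟨K₁, hK₁, e₁⟩ := patch_lowX C0
  obtain ⟨K₂, hK₂, e₂⟩ := patch_sup C0
  obtain ⟨c, hc, K₃, hK₃, e₃⟩ := loc_Q0 C0
  have hv : 0 ≤ volume.real (Q 1) := measureReal_nonneg
  refine ⟨c / K₀, by positivity, max C0 1 * (volume.real (Q 1) * (√(4 * K₂ * K₃) * K₁)),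
    by positivity, fun Z g h s S ϱ A Θ σ hg hϱ hP hh hg' hs => ?_⟩
  have hQ := smG_GQ hg hh.smooth hg'
  rw [NX2_eq hg hP.cont hP.pos hh.smooth]
  refine chain_real hP hg (sm_trg hg hQ).continuous.abs (dX_cont hg hP.cont hP.pos hh.smooth)
    (fun _ => abs_nonneg _) (dX_nonneg hg hP.pos h) (by positivity) fun a => ?_
  have hσ := hP.σpos a
  have h0 := hsM_nonneg 10 (Q (7 / 4)) (pa (σ a) (Θ a) h)
  have h1 := e₁ Z g h s _ _ hg hP.cont hP.pos (gpt hP a) hh.smooth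
  have h2 : hsM 10 (Q (7 / 4)) (pa (σ a) (Θ a) h) ≤ c :=
    (e₀ Z g h s ϱ A Θ σ hg hϱ hP hh.smooth a).trans <|
      calc _ ≤ K₀ * ((ϱ ^ 2)⁻¹ * (c / K₀ * ϱ ^ 2)) := by gcongr
        _ = c := by field_simp
  have h3 := e₃ (pa (σ a) (Θ a) g) _ (hP.good a) (pa_sym (hP.pt a) hh (σ a)) h2
  rw [hsM_congr (isOpen_Q _) 8 (k := fun y => σ a ^ 2 • pa (σ a) (Θ a) (GQ g h) y) fun y hy =>
    pa_Q (hP.pt a) (Q_mono (by norm_num) hy) hσ.ne' hg hh.smooth hg', hsM_smul] at h3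
  generalize hsM 10 (Q (7 / 4)) (pa (σ a) (Θ a) h) = H at h0 h1 h3
  generalize ∫ y in Q 2, dX g s h (Θ a y) = D at h1 ⊢
  have h4 : ∀ y ∈ Q 1, |trg g (GQ g h) (Θ a y)| ≤ √(4 * K₂ * K₃) * K₁ * D := fun y hy => by
    have h5 := (e₂ Z g _ s _ _ (gpt hP a) hQ y (Q_mono (by norm_num) hy)).trans
      (mul_le_mul_of_nonneg_left (hsM_mono (by norm_num : 4 ≤ 8) _ _) hK₂)
    have h6 : trg g (GQ g h) (Θ a y) ^ 2 ≤ 4 * n0 g (GQ g h) (Θ a y) := tr_sq_le (hg.pos _) _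
    have h7 : (σ a ^ 2 * trg g (GQ g h) (Θ a y)) ^ 2 ≤ (√(4 * K₂ * K₃) * H) ^ 2 := by
      rw [mul_pow, mul_pow, Real.sq_sqrt (by positivity)]
      calc _ ≤ (σ a ^ 2) ^ 2 * (4 * (K₂ * hsM 8 (Q (3 / 2)) (pa (σ a) (Θ a) (GQ g h)))) := by
            gcongr; linarith
        _ = 4 * K₂ * ((σ a ^ 2) ^ 2 * hsM 8 (Q (3 / 2)) (pa (σ a) (Θ a) (GQ g h))) := by ring
        _ ≤ 4 * K₂ * (K₃ * H ^ 2) := by gcongr
        _ = _ := by ring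
    have h8 := abs_le_of_sq_le_sq h7 (by positivity)
    rw [abs_mul, abs_of_pos (by positivity)] at h8
    refine le_of_mul_le_mul_left (h8.trans ?_) (by positivity : 0 < σ a ^ 2)
    calc _ ≤ √(4 * K₂ * K₃) * (K₁ * σ a ^ 2 * D) := by gcongr
      _ = _ := by ring
  calc _ ≤ ∫ _ in Q 1, √(4 * K₂ * K₃) * K₁ * D :=
        setIntegral_mono_on (integrableOn_Q (by norm_num : (1 : ℝ) < 3)
          ((sm_trg hg hQ).continuous.abs.comp_continuousOn (hP.pt a).continuousOn))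
          (integrableOn_Q (by norm_num : (1 : ℝ) < 3) continuousOn_const)
          (isOpen_Q 1).measurableSet h4
    _ = _ := by rw [setIntegral_const, smul_eq_mul]; ring

end Pool.Agent.Lib.MP_94aef8_gt.FL
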