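import Pool.Agent.Lib.MP_94aef8_gt.F.LinA
import Pool.Agent.Lib.MP_94aef8_gt.E2.Hs
import Pool.Agent.Lib.MP_94aef8_gt.DefsEq

/-! Behaviour of the operators under homotheties of the domain and of the tensors. -/

open scoped ContDiff Topology
open Matrix Filter Set MeasureTheory

namespace Pool.Agent.Lib.MP_94aef8_gt.FL

/-- The homothety with centre value `x0` and ratio `σ`. -/
noncomputable def aff (x0 : E4) (σ : ℝ) (y : E4) : E4 := x0 + σ • y

theorem aff_zero_one : aff 0 1 = id := by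
  funext y
  simp [aff]

variable {x0 : E4} {σ c : ℝ}

/-- No differentiability is needed: `fderiv_const_smul_field`, `fderiv_comp_smul`,
`fderiv_comp_add_left` (or compose with a continuous linear equivalence). -/
theorem pd_aff (hσ : σ ≠ 0) (d : ℝ) (f : Fn) (i : Fin 4) :
    pd i (fun y => d * f (aff x0 σ y)) = fun y => d * σ * pd i f (aff x0 σ y) := by
  funext y
  have h1 : (fun y => d * f (aff x0 σ y)) = d • fun y => (fun z => f (x0 + z)) (σ • y) := rfl
  rw [pd, h1, fderiv_const_smul_field, Pi.smul_apply, fderiv_comp_smul (f := fun z => f (x0 + z)),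
    fderiv_comp_add_left]
  simp [pd, aff, mul_assoc]

theorem pdw_aff (hσ : σ ≠ 0) (d : ℝ) (f : Fn) (w : List (Fin 4)) :
    pdw w (fun y => d * f (aff x0 σ y)) = fun y => d * σ ^ w.length * pdw w f (aff x0 σ y) := by
  induction w with
  | nil => simp [pdw]
  | cons i w ih =>
    rw [pdw, ih, pd_aff hσ, List.length_cons, pow_succ, ← mul_assoc]
    rfl

/-- The structure `g'` is the image of `g` under `φ`, up to the factors `σ` and `c`. -/
structure scal_Rel (φ : Fn →+* Fn) (σ c : ℝ) (g g' : Geo Fn) : Prop where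
  D : ∀ i (d : ℝ) f, g'.D i (d • φ f) = (d * σ) • φ (g.D i f)
  hf : g'.hf = φ g.hf
  G : g'.G = c • g.G.map φ
  H : g'.H = c⁻¹ • g.H.map φ

section Rel

variable {φ : Fn →+* Fn} {g g' : Geo Fn}

theorem scal_dm (r : scal_Rel φ σ c g g') (a : Fin 4) (d : ℝ) (M : MA Fn) :
    g'.dm a (d • M.map φ) = (d * σ) • (g.dm a M).map φ := by
  ext1 i j
  simp only [Geo.dm, Matrix.map_apply, Matrix.smul_apply, r.D]

theorem scal_w (r : scal_Rel φ σ c g g') (hc : c ≠ 0) (a : Fin 4) :
    g'.w a = σ • (g.w a).map φ := by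
  ext1 k j
  simp only [Geo.w, Matrix.of_apply, Matrix.map_apply, Matrix.smul_apply, r.G, r.H, r.hf, r.D, map_mul, map_sum,
    map_add, map_sub, ← smul_add, ← smul_sub, smul_mul_smul_comm, inv_mul_cancel_left₀ hc]
  rw [← Finset.smul_sum, mul_smul_comm]

theorem scal_rm (r : scal_Rel φ σ c g g') (hc : c ≠ 0) (a b : Fin 4) :
    g'.rm a b = (σ * σ) • (g.rm a b).map φ := by
  simp only [Geo.rm, scal_w r hc, scal_dm r, smul_mul_smul_comm]
  simp only [← RingHom.mapMatrix_apply, map_add, map_sub, map_mul, smul_add, smul_sub]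

theorem scal_ric (r : scal_Rel φ σ c g g') (hc : c ≠ 0) :
    g'.ric = (σ * σ) • g.ric.map φ := by
  ext1 j k
  simp only [Geo.ric, Matrix.of_apply, Matrix.map_apply, Matrix.smul_apply, scal_w r hc, r.D, map_mul, map_sum,
    map_add, map_sub, ← smul_add, ← smul_sub, smul_mul_smul_comm, ← Finset.smul_sum]

theorem scal_nab (r : scal_Rel φ σ c g g') (hc : c ≠ 0) (a : Fin 4) (d : ℝ) (h : MA Fn) :
    g'.nab a (d • h.map φ) = (d * σ) • (g.nab a h).map φ := by
  simp only [Geo.nab, scal_w r hc, scal_dm r, transpose_smul, ← transpose_map,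
    smul_mul_smul_comm, mul_comm σ d]
  simp only [← RingHom.mapMatrix_apply, map_sub, map_mul, smul_sub]

theorem scal_nab2 (r : scal_Rel φ σ c g g') (hc : c ≠ 0) (a b : Fin 4) (d : ℝ) (h : MA Fn) :
    g'.nab2 a b (d • h.map φ) = (d * σ * σ) • (g.nab2 a b h).map φ := by
  ext1 i j
  simp only [Geo.nab2, scal_nab r hc, scal_w r hc, Matrix.sub_apply, Matrix.sum_apply, Matrix.map_apply, Matrix.smul_apply,
    smul_eq_mul, smul_mul_smul_comm, map_sub, map_sum, map_mul, mul_comm σ (d * σ),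
    ← Finset.smul_sum, smul_sub]

theorem scal_lich (r : scal_Rel φ σ c g g') (hc : c ≠ 0) (d : ℝ) (h : MA Fn) :
    g'.lich (d • h.map φ) = (σ ^ 2 * c⁻¹ * d) • (g.lich h).map φ := by
  have e1 : g'.rough (d • h.map φ) = (σ ^ 2 * c⁻¹ * d) • (g.rough h).map φ := by
    ext1 i j
    simp only [Geo.rough, scal_nab2 r hc, r.H, Matrix.neg_apply, Matrix.sum_apply, Matrix.map_apply, Matrix.smul_apply,
      smul_eq_mul, smul_mul_smul_comm, map_neg, map_sum, map_mul, ← Finset.smul_sum, smul_neg]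
    congr 2
    ring
  have e2 : g'.rring (d • h.map φ) = (σ ^ 2 * c⁻¹ * d) • (g.rring h).map φ := by
    ext1 i j
    simp only [Geo.rring, scal_rm r hc, r.H, smul_mul_smul_comm, ← Matrix.map_mul, Matrix.of_apply,
      Matrix.map_apply, Matrix.smul_apply, map_sum, ← Finset.smul_sum]
    congr 1
    ring
  have e3 : ((2 : Fn) • g.rring h).map φ = (2 : Fn) • (g.rring h).map φ := by
    ext1 i j
    simp only [Matrix.map_apply, Matrix.smul_apply, smul_eq_mul, map_mul, map_ofNat]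
  have e4 : σ * σ * c⁻¹ * d = σ ^ 2 * c⁻¹ * d := by ring
  have e5 : d * c⁻¹ * (σ * σ) = σ ^ 2 * c⁻¹ * d := by ring
  simp only [Geo.lich, e1, e2, scal_ric r hc, r.H, smul_mul_smul_comm, e4, e5,
    smul_comm (2 : Fn) (σ ^ 2 * c⁻¹ * d), ← e3]
  simp only [← RingHom.mapMatrix_apply, map_sub, map_add, map_mul, smul_sub, smul_add]

theorem scal_ipT (r : scal_Rel φ σ c g g') (d e : ℝ) (h k : MA Fn) :
    g'.ipT (d • h.map φ) (e • k.map φ) = (c⁻¹ * d * c⁻¹ * e) • φ (g.ipT h k) := by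
  simp only [Geo.ipT, r.H, transpose_smul, ← transpose_map, smul_mul_smul_comm, ← Matrix.map_mul,
    trace_smul]
  simp only [trace, diag_apply, Matrix.map_apply, map_sum]

theorem scal_ipD (r : scal_Rel φ σ c g g') (hc : c ≠ 0) (d : ℝ) (h : MA Fn) :
    g'.ipD (d • h.map φ) (d • h.map φ) = (σ ^ 2 * c⁻¹ ^ 3 * d ^ 2) • φ (g.ipD h h) := by
  simp only [Geo.ipD, scal_nab r hc, scal_ipT r, r.H, Matrix.map_apply, Matrix.smul_apply, smul_mul_smul_comm,
    map_sum, map_mul, ← Finset.smul_sum]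
  congr 1
  ring

end Rel

/-- Composition with the homothety. -/
noncomputable def scal_phi (x0 : E4) (σ : ℝ) : Fn →+* Fn :=
  RingHom.pi fun y => Pi.evalRingHom (fun _ : E4 => ℝ) (aff x0 σ y)

theorem scal_mf (d : ℝ) (h : Tn) :
    mf (fun y => d • h (aff x0 σ y)) = d • (mf h).map (scal_phi x0 σ) := rfl

theorem scal_rel (hσ : σ ≠ 0) (hc : c ≠ 0) (G : Tn) :
    scal_Rel (scal_phi x0 σ) σ c (geo G) (geo fun y => c • G (aff x0 σ y)) := by
  refine ⟨fun i d f => pd_aff hσ d f i, rfl, rfl, ?_⟩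
  have h1 : inv (fun y => c • G (aff x0 σ y)) = fun y => c⁻¹ • inv G (aff x0 σ y) := by
    funext y
    by_cases h : IsUnit (G (aff x0 σ y)).det
    · simpa [inv, Units.smul_def] using Matrix.inv_smul' (G (aff x0 σ y)) (Units.mk0 c hc) h
    · have h2 : ¬IsUnit (c • G (aff x0 σ y)).det := by
        rw [det_smul]
        exact fun h3 => h (isUnit_of_mul_isUnit_right h3)
      simp only [inv, nonsing_inv_apply_not_isUnit _ h, nonsing_inv_apply_not_isUnit _ h2,
        smul_zero]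
  change mf (inv _) = _
  rw [h1]
  rfl

/-- First `w` (factor `σ`), then `rm`, `ric` (factor `σ ^ 2`), `nab` (factor `σ d`), `nab2`,
`rough`, `rring`; all as identities of functions, by `pd_aff` and `inv_smul'`. -/
theorem lich_aff (hσ : σ ≠ 0) (hc : c ≠ 0) (d : ℝ) (G h : Tn) :
    lich (fun y => c • G (aff x0 σ y)) (fun y => d • h (aff x0 σ y)) =
      fun y => (σ ^ 2 * c⁻¹ * d) • lich G h (aff x0 σ y) := by
  rw [lich, scal_mf, scal_lich (scal_rel hσ hc G) hc]
  rfl

theorem Pop_aff (hσ : σ ≠ 0) (hc : c ≠ 0) (μ d : ℝ) (G h : Tn) :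
    Pop (σ ^ 2 * c⁻¹ * μ) (fun y => c • G (aff x0 σ y)) (fun y => d • h (aff x0 σ y)) =
      fun y => (σ ^ 2 * c⁻¹ * d) • Pop μ G h (aff x0 σ y) := by
  funext y
  simp only [Pop, lich_aff hσ hc, smul_add, smul_smul]
  congr 2
  ring

theorem Pop_iter_aff (hσ : σ ≠ 0) (hc : c ≠ 0) (μ d : ℝ) (G h : Tn) (j : ℕ) :
    (Pop (σ ^ 2 * c⁻¹ * μ) fun y => c • G (aff x0 σ y))^[j] (fun y => d • h (aff x0 σ y)) =
      fun y => ((σ ^ 2 * c⁻¹) ^ j * d) • (Pop μ G)^[j] h (aff x0 σ y) := by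
  induction j with
  | zero => simp
  | succ j ih =>
    rw [Function.iterate_succ_apply', ih, Pop_aff hσ hc, Function.iterate_succ_apply',
      pow_succ' _ j, mul_assoc _ _ d]

theorem ipD_aff (hσ : σ ≠ 0) (hc : c ≠ 0) (d : ℝ) (G h : Tn) :
    ipD (fun y => c • G (aff x0 σ y)) (fun y => d • h (aff x0 σ y)) (fun y => d • h (aff x0 σ y)) =
      fun y => σ ^ 2 * c⁻¹ ^ 3 * d ^ 2 * ipD G h h (aff x0 σ y) := by
  rw [ipD, scal_mf, scal_ipD (scal_rel hσ hc G) hc]
  rfl

theorem Pop_iter_scale (hc : c ≠ 0) (μ d : ℝ) (G h : Tn) (j : ℕ) :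
    (Pop (c⁻¹ * μ) fun y => c • G y)^[j] (fun y => d • h y) =
      fun y => (c⁻¹ ^ j * d) • (Pop μ G)^[j] h y := by
  simpa [aff_zero_one] using Pop_iter_aff (x0 := 0) one_ne_zero hc μ d G h j

theorem ipD_scale (hc : c ≠ 0) (d : ℝ) (G h : Tn) :
    ipD (fun y => c • G y) (fun y => d • h y) (fun y => d • h y) =
      fun y => c⁻¹ ^ 3 * d ^ 2 * ipD G h h y := by
  simpa [aff_zero_one] using ipD_aff (x0 := 0) one_ne_zero hc d G h

section ScalB

variable {A B : Type} [CommRing A] [CommRing B]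

/-- The structure with scaled metric. -/
def scalb_sc (c : Geo A) (s t : A) : Geo A := ⟨c.D, c.hf, s • c.G, t • c.H⟩

theorem scalb_QQ (c : Geo A) {s t : A} (hst : t * s = 1) (hD : ∀ i a, c.D i (s * a) = s * c.D i a)
    (h K : MA A) : (scalb_sc c s t).QQ (s • h) (t • K) = c.QQ h K := by
  have ts : ∀ x y : A, t * x * (s * y) = x * y := fun x y => by
    rw [mul_mul_mul_comm, hst, one_mul]
  have tsm : ∀ X Y : MA A, t • X * s • Y = X * Y := fun X Y => by
    rw [Matrix.smul_mul, Matrix.mul_smul, smul_smul, hst, one_smul]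
  have eD : (scalb_sc c s t).D = c.D := rfl
  have ef : (scalb_sc c s t).hf = c.hf := rfl
  have eH : (scalb_sc c s t).H = t • c.H := rfl
  have dm : ∀ a M, (scalb_sc c s t).dm a M = c.dm a M := fun _ _ => rfl
  have w : ∀ a, (scalb_sc c s t).w a = c.w a := fun a => by
    ext k j
    simp only [Geo.w, scalb_sc, Matrix.of_apply, Matrix.smul_apply, smul_eq_mul, hD, ← mul_add,
      ← mul_sub, ts]
  have rm : ∀ a b, (scalb_sc c s t).rm a b = c.rm a b := fun a b => by simp only [Geo.rm, w, dm]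
  have n1 : ∀ a k, c.nab a (s • k) = s • c.nab a k := fun a k => by
    have : c.dm a (s • k) = s • c.dm a k := by
      ext i j
      simp only [Geo.dm, Matrix.map_apply, Matrix.smul_apply, smul_eq_mul, hD]
    simp only [Geo.nab, this, Matrix.mul_smul, Matrix.smul_mul, smul_sub]
  have nab : ∀ a k, (scalb_sc c s t).nab a k = c.nab a k := fun a k => by simp only [Geo.nab, w, dm]
  have nab2 : ∀ a b, (scalb_sc c s t).nab2 a b (s • h) = s • c.nab2 a b h := fun a b => by
    simp only [Geo.nab2, w, nab, n1, smul_sub, Finset.smul_sum, smul_comm s]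
  have low : ∀ a, (scalb_sc c s t).low (s • h) a = s • c.low h a := fun a => by
    ext l j
    simp only [Geo.low, nab, n1, ef, Matrix.of_apply, Matrix.smul_apply, smul_eq_mul, ← mul_add,
      ← mul_sub, mul_left_comm s]
  have cdf : ∀ a, (scalb_sc c s t).cdf (s • h) (t • K) a = c.cdf h K a := fun a => by
    simp only [Geo.cdf, low, tsm]
  have wl : (scalb_sc c s t).wl (s • h) (t • K) = c.wl h K := by
    funext l
    simp only [Geo.wl, low, Matrix.smul_apply, smul_eq_mul, ts]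
  have cu : ∀ K, (scalb_sc c s t).cu (t • K) (s • h) = c.cu K h := fun K => by
    ext j k
    simp only [Geo.cu, rm, ef, Matrix.of_apply, Matrix.mul_smul, Matrix.smul_mul, ← smul_add,
      Matrix.smul_apply, smul_eq_mul, ← mul_add, ts]
  simp only [Geo.QQ, Geo.qq, eH, ef, ← smul_sub, cu, cdf, wl, nab, n1, nab2, low, tsm,
    Matrix.mul_smul _ t, Matrix.smul_apply, smul_eq_mul, ts, smul_smul, mul_right_comm t _ s, hst,
    one_mul]

/-- A ring homomorphism that respects the structures. -/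
structure scalb_Hom (φ : A →+* B) (c : Geo A) (c' : Geo B) : Prop where
  D : ∀ i a, φ (c.D i a) = c'.D i (φ a)
  hf : φ c.hf = c'.hf
  G : φ.mapMatrix c.G = c'.G
  H : φ.mapMatrix c.H = c'.H

theorem scalb_nat {φ : A →+* B} {c : Geo A} {c' : Geo B} (e : scalb_Hom φ c c') (h k : MA A) :
    φ.mapMatrix (c.lich h) = c'.lich (φ.mapMatrix h) ∧
      φ (c.ipD h k) = c'.ipD (φ.mapMatrix h) (φ.mapMatrix k) := by
  have ap : ∀ (M : MA A) i j, φ (M i j) = φ.mapMatrix M i j := fun _ _ _ => rfl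
  have tp : ∀ M : MA A, φ.mapMatrix Mᵀ = (φ.mapMatrix M)ᵀ := fun _ => rfl
  have sm : ∀ (a : A) (M : MA A), φ.mapMatrix (a • M) = φ a • φ.mapMatrix M := fun a M => by
    ext i j
    exact map_mul φ a (M i j)
  have tr : ∀ M : MA A, φ M.trace = (φ.mapMatrix M).trace := fun M => map_sum φ _ _
  have dm : ∀ a M, φ.mapMatrix (c.dm a M) = c'.dm a (φ.mapMatrix M) := fun a M => by
    ext i j
    exact e.D a (M i j)
  have w : ∀ a, φ.mapMatrix (c.w a) = c'.w a := fun a => by
    ext k j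
    rw [← ap]
    simp only [Geo.w, Matrix.of_apply, map_mul, map_sum, map_add, map_sub, e.D, e.hf, ap, e.G, e.H]
  have rm : ∀ a b, φ.mapMatrix (c.rm a b) = c'.rm a b := fun a b => by
    simp only [Geo.rm, map_mul, map_add, map_sub, dm, w]
  have ric : φ.mapMatrix c.ric = c'.ric := by
    ext k j
    rw [← ap]
    simp only [Geo.ric, Matrix.of_apply, map_mul, map_sum, map_add, map_sub, e.D, ap, w]
  have nab : ∀ a k, φ.mapMatrix (c.nab a k) = c'.nab a (φ.mapMatrix k) := fun a k => by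
    simp only [Geo.nab, map_mul, map_sub, dm, tp, w]
  have rring : φ.mapMatrix (c.rring h) = c'.rring (φ.mapMatrix h) := by
    ext k j
    rw [← ap]
    simp only [Geo.rring, Matrix.of_apply, map_sum, ap, map_mul, rm, e.H]
  constructor
  · simp only [Geo.lich, Geo.rough, Geo.nab2, map_add, map_sub, map_neg, map_sum, map_mul, sm, ap,
      nab, w, rring, ric, e.H, map_ofNat]
  · simp only [Geo.ipD, Geo.ipT, map_sum, map_mul, tr, tp, ap, nab, e.H]

/-- The structure on germs. -/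
noncomputable def scalb_germ (G : Tn) (y : E4) : Geo (Germ (𝓝 y) ℝ) :=
  ⟨fun i => Quotient.map' (pd i) fun _ _ e =>
      (EventuallyEq.eventuallyEq_nhds e).mono fun _ e => E2.pd_congr e i,
    Germ.coeRingHom _ fun _ => 1 / 2, (Germ.coeRingHom _).mapMatrix (mf G),
    (Germ.coeRingHom _).mapMatrix (mf (inv G))⟩

theorem scalb_hom (G : Tn) (y : E4) : scalb_Hom (Germ.coeRingHom _) (geo G) (scalb_germ G y) :=
  ⟨fun _ _ => rfl, rfl, rfl, rfl⟩

theorem scalb_mf {h h' : Tn} {y : E4} (e : h =ᶠ[𝓝 y] h') :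
    (Germ.coeRingHom (𝓝 y)).mapMatrix (mf h) = (Germ.coeRingHom _).mapMatrix (mf h') := by
  ext i j
  exact Germ.coe_eq.2 (e.mono fun p e => congrFun (congrFun e i) j)

theorem scalb_germ_eq {G G' : Tn} {y : E4} (e : G =ᶠ[𝓝 y] G') :
    scalb_germ G y = scalb_germ G' y := by
  rw [scalb_germ, scalb_germ, scalb_mf e,
    scalb_mf (h := inv G) (h' := inv G') (e.mono fun p e => by rw [inv, inv, e])]

end ScalB

/-- The connection and the curvature do not change, `nab`, `nab2`, `low` get the factor `c`, the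
inverses get the factor `c⁻¹`. -/
theorem QQ_scale (hc : c ≠ 0) (G h : Tn) :
    QQ (fun y => c • G y) (fun y => c • h y) = QQ G h := by
  have e1 : ∀ (d : ℝ) (k : Tn), mf (fun y => d • k y) = (fun _ => d : Fn) • mf k := fun _ _ => rfl
  have e2 : ∀ k : Tn, inv (fun y => c • k y) = fun y => c⁻¹ • inv k y := fun k =>
    funext fun y => inv_smul' (k y) hc
  have e3 : ((fun y => c • G y) + fun y => c • h y) = fun y => c • (G + h) y :=
    funext fun y => (smul_add c (G y) (h y)).symm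
  rw [QQ, QQ, e3, geo, e2, e2, e1, e1, e1, e1]
  exact congrArg fm (scalb_QQ (geo G) (funext fun _ => inv_mul_cancel₀ hc)
    (fun i a => E2.pd_smul c a i) _ _)

/-- The operators are local. Show by unfolding that `w`, `rm`, `ric`, `nab`, `nab2` agree near the
point (`Filter.EventuallyEq`, `E2.pd_congr`, `eventually_eventually_nhds`). -/
theorem Pop_congr {G G' h h' : Tn} {y : E4} (μ : ℝ) (e1 : G =ᶠ[𝓝 y] G') (e2 : h =ᶠ[𝓝 y] h') :
    Pop μ G h =ᶠ[𝓝 y] Pop μ G' h' := by
  have e : (Germ.coeRingHom (𝓝 y)).mapMatrix ((geo G).lich (mf h)) =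
      (Germ.coeRingHom _).mapMatrix ((geo G').lich (mf h')) := by
    rw [(scalb_nat (scalb_hom G y) _ 0).1, (scalb_nat (scalb_hom G' y) _ 0).1, scalb_mf e2,
      scalb_germ_eq e1]
  have e' : ∀ᶠ p in 𝓝 y, ∀ i j, (geo G).lich (mf h) i j p = (geo G').lich (mf h') i j p :=
    eventually_all.2 fun i => eventually_all.2 fun j => Germ.coe_eq.1 (congrFun (congrFun e i) j)
  filter_upwards [e', e2] with p h1 h2
  rw [Pop, Pop, h2]
  exact congrArg (· + _) (Matrix.ext h1)

theorem Pop_iter_congr {G G' h h' : Tn} {y : E4} (μ : ℝ) (e1 : G =ᶠ[𝓝 y] G') (e2 : h =ᶠ[𝓝 y] h')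
    (j : ℕ) : (Pop μ G)^[j] h =ᶠ[𝓝 y] (Pop μ G')^[j] h' := by
  induction j with
  | zero => exact e2
  | succ j ih =>
    rw [Function.iterate_succ_apply', Function.iterate_succ_apply']
    exact Pop_congr μ e1 ih

theorem ipD_congr {G G' h h' : Tn} {y : E4} (e1 : G =ᶠ[𝓝 y] G') (e2 : h =ᶠ[𝓝 y] h') :
    ipD G h h y = ipD G' h' h' y := by
  refine EventuallyEq.eq_of_nhds (Germ.coe_eq.1 ?_)
  refine (scalb_nat (scalb_hom G y) _ _).2.trans (Eq.trans ?_ (scalb_nat (scalb_hom G' y) _ _).2.symm)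
  rw [scalb_mf e2, scalb_germ_eq e1]

end Pool.Agent.Lib.MP_94aef8_gt.FL
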