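import Pool.Agent.Lib.MP_94aef8_gt.F.Cls
import Pool.Agent.Lib.MP_94aef8_gt.F.Hs2
import Pool.Agent.Lib.MP_94aef8_gt.F.LinB

/-! The class of pairs of families with Sobolev bounds and Lipschitz bounds. -/

open scoped ContDiff Topology
open Matrix Filter Set MeasureTheory

namespace Pool.Agent.Lib.MP_94aef8_gt.FL

open E2

variable {ι : Type}

/-- Both members have squared norm `O(r ^ p)`, their difference `O(r ^ (p - 1) d)`. -/
def TameC (ρ R : ℝ) (r d : ι → ℝ) (m p : ℕ) (f : ι × Bool → Fn) : Prop :=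
  (∀ a, ContDiffOn ℝ ∞ (f a) (Q R)) ∧ ∃ K, 0 ≤ K ∧ ∀ i, (∀ b, hs m (Q ρ) (f (i, b)) ≤ K * r i ^ p) ∧
    r i * hs m (Q ρ) (f (i, true) - f (i, false)) ≤ K * r i ^ p * d i

/-- The data of the class. -/
structure TD (ι : Type) where
  ρ : ℝ
  R : ℝ
  r : ι → ℝ
  d : ι → ℝ
  ρ0 : 0 < ρ
  ρR : ρ < R
  r0 : ∀ i, 0 ≤ r i
  d0 : ∀ i, 0 ≤ d i

variable (t : TD ι) {m l p q : ℕ} {f g : ι × Bool → Fn}

theorem tame_congr (h : TameC t.ρ t.R t.r t.d m p f) (e : ∀ a, ∀ y ∈ Q t.R, f a =ᶠ[𝓝 y] g a) :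
    TameC t.ρ t.R t.r t.d m p g := by
  obtain ⟨h1, K, hK, h2⟩ := h
  have e1 : ∀ a, EqOn (f a) (g a) (Q t.R) := fun a y hy => (e a y hy).self_of_nhds
  have e2 : ∀ a, EqOn (f a) (g a) (Q t.ρ) := fun a => (e1 a).mono (Q_mono t.ρR.le)
  refine ⟨fun a => (h1 a).congr (e1 a).symm, K, hK, fun i => ⟨fun b => ?_, ?_⟩⟩
  · rw [← hs_congr (isOpen_Q _) m (e2 (i, b))]
    exact (h2 i).1 b
  · have e3 : EqOn (f (i, true) - f (i, false)) (g (i, true) - g (i, false)) (Q t.ρ) :=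
      fun y hy => by simp only [Pi.sub_apply, e2 _ hy]
    rw [← hs_congr (isOpen_Q _) m e3]
    exact (h2 i).2

theorem tame_const (m : ℕ) (c : ℝ) : TameC t.ρ t.R t.r t.d m 0 fun _ _ => c := by
  refine ⟨fun _ => contDiffOn_const, hs m (Q t.ρ) fun _ => c, hs_nonneg _ _ _,
    fun i => ⟨fun _ => by rw [pow_zero, mul_one], ?_⟩⟩
  rw [sub_self, hs_zero, mul_zero, pow_zero, mul_one]
  exact mul_nonneg (hs_nonneg _ _ _) (t.d0 i)

theorem tame_zero (m p : ℕ) : TameC t.ρ t.R t.r t.d m p fun _ => 0 := by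
  refine ⟨fun _ => contDiffOn_const, 0, le_rfl, fun i => ⟨fun _ => ?_, ?_⟩⟩
  · rw [hs_zero, zero_mul]
  · rw [sub_self, hs_zero, mul_zero, zero_mul, zero_mul]

theorem tame_add (h : TameC t.ρ t.R t.r t.d m p f) (h' : TameC t.ρ t.R t.r t.d m p g) :
    TameC t.ρ t.R t.r t.d m p fun a => f a + g a := by
  obtain ⟨h1, K, hK, h2⟩ := h
  obtain ⟨h1', K', hK', h2'⟩ := h'
  refine ⟨fun a => (h1 a).add (h1' a), 2 * K + 2 * K', by positivity, fun i => ⟨fun b => ?_, ?_⟩⟩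
  · have a1 := hs_add2 t.ρR m (h1 (i, b)) (h1' (i, b))
    have a2 := (h2 i).1 b
    have a3 := (h2' i).1 b
    linarith
  · have a1 := hs_add2 t.ρR m (f := f (i, true) - f (i, false)) (g := g (i, true) - g (i, false))
      ((h1 _).sub (h1 _)) ((h1' _).sub (h1' _))
    have a2 := (h2 i).2
    have a3 := (h2' i).2
    have a4 := mul_le_mul_of_nonneg_left a1 (t.r0 i)
    rw [add_sub_add_comm]
    linarith

theorem tame_neg (h : TameC t.ρ t.R t.r t.d m p f) :
    TameC t.ρ t.R t.r t.d m p fun a => -f a := by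
  obtain ⟨h1, K, hK, h2⟩ := h
  refine ⟨fun a => (h1 a).neg, K, hK, fun i => ⟨fun b => ?_, ?_⟩⟩
  · rw [hs_neg]
    exact (h2 i).1 b
  · rw [← neg_sub', hs_neg]
    exact (h2 i).2

/-- `f g - f' g' = (f - f') g + f' (g - g')`, `hs_add2`, `xD2`. -/
theorem tame_mul (hm : 8 ≤ m) (hl : l ≤ m) (h : TameC t.ρ t.R t.r t.d m p f)
    (h' : TameC t.ρ t.R t.r t.d l q g) :
    TameC t.ρ t.R t.r t.d l (p + q) fun a => f a * g a := by
  obtain ⟨h1, K, hK, h2⟩ := h
  obtain ⟨h1', K', hK', h2'⟩ := h'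
  obtain ⟨C, hC, h3⟩ := xD2 t.ρ0 hl (by omega : 7 ≤ m)
  refine ⟨fun a => (h1 a).mul (h1' a), 4 * C * K * K', by positivity, fun i => ⟨fun b => ?_, ?_⟩⟩
  · have a1 := h3 t.R _ _ t.ρR (h1 (i, b)) (h1' (i, b))
    have a2 := mul_le_mul ((h2 i).1 b) ((h2' i).1 b) (hs_nonneg _ _ _)
      (mul_nonneg hK (pow_nonneg (t.r0 i) _))
    have a3 := mul_le_mul_of_nonneg_left a2 hC
    have a4 : 0 ≤ C * K * K' * (t.r i ^ p * t.r i ^ q) := by
      have := t.r0 i
      positivity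
    rw [pow_add]
    linarith
  · have s1 : ContDiffOn ℝ ∞ (f (i, true) - f (i, false)) (Q t.R) := (h1 _).sub (h1 _)
    have s2 : ContDiffOn ℝ ∞ (g (i, true) - g (i, false)) (Q t.R) := (h1' _).sub (h1' _)
    have e : f (i, true) * g (i, true) - f (i, false) * g (i, false) =
        (f (i, true) - f (i, false)) * g (i, true) +
          f (i, false) * (g (i, true) - g (i, false)) := by ring
    have a1 := hs_add2 t.ρR l (f := (f (i, true) - f (i, false)) * g (i, true))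
      (g := f (i, false) * (g (i, true) - g (i, false))) (s1.mul (h1' _)) ((h1 _).mul s2)
    have a2 := h3 t.R _ _ t.ρR s1 (h1' (i, true))
    have a3 := h3 t.R _ _ t.ρR (h1 (i, false)) s2
    have r0 := t.r0 i
    have d0 := t.d0 i
    have a4 := mul_le_mul (h2 i).2 ((h2' i).1 true) (hs_nonneg _ _ _) (by positivity)
    have a5 := mul_le_mul ((h2 i).1 false) (h2' i).2 (mul_nonneg r0 (hs_nonneg _ _ _))
      (by positivity)
    have a6 := mul_le_mul_of_nonneg_left a1 r0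
    have a7 := mul_le_mul_of_nonneg_left a2 r0
    have a8 := mul_le_mul_of_nonneg_left a3 r0
    have a9 := mul_le_mul_of_nonneg_left a4 hC
    have a10 := mul_le_mul_of_nonneg_left a5 hC
    rw [e, pow_add]
    linarith

theorem tame_der (i : Fin 4) (h : TameC t.ρ t.R t.r t.d (m + 1) p f) :
    TameC t.ρ t.R t.r t.d m p fun a => pd i (f a) := by
  obtain ⟨h1, K, hK, h2⟩ := h
  refine ⟨fun a => sm_pd (isOpen_Q _) (h1 a) i, K, hK,
    fun j => ⟨fun b => (hs_pd _ _ _ _).trans ((h2 j).1 b), ?_⟩⟩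
  have e : EqOn (pd i (f (j, true)) - pd i (f (j, false))) (pd i (f (j, true) - f (j, false)))
      (Q t.ρ) := fun y hy => by
    have a1 := sm_diff (isOpen_Q _) (h1 (j, true)) (Q_mono t.ρR.le hy)
    have a2 := sm_diff (isOpen_Q _) (h1 (j, false)) (Q_mono t.ρR.le hy)
    rw [sub_eq_add_neg (f (j, true)), pd_add a1 a2.neg, pd_neg, Pi.sub_apply, Pi.neg_apply,
      sub_eq_add_neg]
  rw [hs_congr (isOpen_Q _) m e]
  exact (mul_le_mul_of_nonneg_left (hs_pd _ _ _ _) (t.r0 j)).trans (h2 j).2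

theorem tame_lev (h : TameC t.ρ t.R t.r t.d (m + 1) p f) : TameC t.ρ t.R t.r t.d m p f := by
  obtain ⟨h1, K, hK, h2⟩ := h
  exact ⟨h1, K, hK, fun i => ⟨fun b => (hs_le_succ _ _ _).trans ((h2 i).1 b),
    (mul_le_mul_of_nonneg_left (hs_le_succ _ _ _) (t.r0 i)).trans (h2 i).2⟩⟩

/-- The graded class. -/
def tame : Cls (ι × Bool) where
  C := TameC t.ρ t.R t.r t.d
  m0 := 8
  pts := fun _ => Q t.R
  congr := tame_congr t
  const := tame_const t
  zero := tame_zero t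
  add := tame_add t
  neg := tame_neg t
  mul := tame_mul t
  der := tame_der t
  lev := tame_lev t

theorem tame_ord (h1 : ∀ i, t.r i ≤ 1) : (tame t).Ord := by
  rintro m p f ⟨h2, K, hK, h3⟩
  have e : ∀ i, K * t.r i ^ (p + 1) ≤ K * t.r i ^ p := fun i =>
    mul_le_mul_of_nonneg_left (pow_le_pow_of_le_one (t.r0 i) (h1 i) p.le_succ) hK
  exact ⟨h2, K, hK, fun i => ⟨fun b => ((h3 i).1 b).trans (e i),
    (h3 i).2.trans (mul_le_mul_of_nonneg_right (e i) (t.d0 i))⟩⟩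

/-- `hs_inv`; the difference is `- (f - f') f⁻¹ f'⁻¹` on the cube. -/
theorem tame_inv (hm : 8 ≤ m) {c : ℝ} (hc : 0 < c) (h : (tame t).C m 0 f)
    (hf : ∀ a, ∀ y ∈ Q t.R, c ≤ |f a y|) : (tame t).C m 0 fun a y => (f a y)⁻¹ := by
  obtain ⟨hs1, K, hK, h1⟩ := h
  obtain ⟨C, hC, h2⟩ := hs_inv t.ρ0 hc hm K
  obtain ⟨D, hD, h3⟩ := xD2 t.ρ0 (le_refl m) (by omega : 7 ≤ m)
  have hne : ∀ a, ∀ y ∈ Q t.R, f a y ≠ 0 := fun a y hy => abs_pos.1 (hc.trans_le (hf a y hy))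
  have hsm : ∀ a, ContDiffOn ℝ ∞ (fun y => (f a y)⁻¹) (Q t.R) := fun a => (hs1 a).inv (hne a)
  have hb : ∀ i b, hs m (Q t.ρ) (fun y => (f (i, b) y)⁻¹) ≤ C := fun i b =>
    h2 t.R _ t.ρR (hs1 _) (hf _) (by simpa using (h1 i).1 b)
  refine ⟨hsm, C + D * C * (D * C) * K, by positivity, fun i => ⟨fun b => ?_, ?_⟩⟩
  · rw [pow_zero, mul_one]
    exact (hb i b).trans (le_add_of_nonneg_right (by positivity))
  · have e : EqOn ((fun y => (f (i, true) y)⁻¹) - fun y => (f (i, false) y)⁻¹)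
        ((fun y => (f (i, true) y)⁻¹) *
          ((fun y => (f (i, false) y)⁻¹) * -(f (i, true) - f (i, false)))) (Q t.ρ) := by
      intro y hy
      have e1 := hne (i, true) y (Q_mono t.ρR.le hy)
      have e2 := hne (i, false) y (Q_mono t.ρR.le hy)
      simp only [Pi.sub_apply, Pi.mul_apply, Pi.neg_apply]
      field_simp
      ring
    have hd : ContDiffOn ℝ ∞ (-(f (i, true) - f (i, false))) (Q t.R) :=
      ((hs1 _).sub (hs1 _)).neg
    have h4 := h3 t.R _ _ t.ρR (hsm (i, false)) hd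
    have h5 := h3 t.R _ ((fun y => (f (i, false) y)⁻¹) * -(f (i, true) - f (i, false))) t.ρR
      (hsm (i, true)) ((hsm _).mul hd)
    rw [hs_neg] at h4
    have h6 := (h1 i).2
    have h7 := hs_nonneg m (Q t.ρ) (f (i, true) - f (i, false))
    have h8 : hs m (Q t.ρ) ((fun y => (f (i, true) y)⁻¹) - fun y => (f (i, false) y)⁻¹) ≤
        D * C * (D * C * hs m (Q t.ρ) (f (i, true) - f (i, false))) := by
      rw [hs_congr (isOpen_Q _) m e]
      refine h5.trans (mul_le_mul (by gcongr; exact hb i true)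
        (h4.trans (by gcongr; exact hb i false)) (hs_nonneg _ _ _) (by positivity))
    have hr := t.r0 i
    have hd0 := t.d0 i
    rw [pow_zero, mul_one] at h6 ⊢
    calc _ ≤ t.r i * (D * C * (D * C * hs m (Q t.ρ) (f (i, true) - f (i, false)))) := by gcongr
      _ = D * C * (D * C) * (t.r i * hs m (Q t.ρ) (f (i, true) - f (i, false))) := by ring
      _ ≤ D * C * (D * C) * (K * t.d i) := by gcongr
      _ = D * C * (D * C) * K * t.d i := by ring
      _ ≤ _ := by gcongr; exact le_add_of_nonneg_left hC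

theorem tame_T {h : ι × Bool → Tn} {K : ℝ} (hs : ∀ a, SmT (h a) (Q t.R))
    (h1 : ∀ i b, hsM m (Q t.ρ) (h (i, b)) ≤ K * t.r i ^ p)
    (h2 : ∀ i, t.r i * hsM m (Q t.ρ) (h (i, true) - h (i, false)) ≤ K * t.r i ^ p * t.d i) :
    (tame t).T m p h := by
  intro a b
  refine ⟨fun c => hs c a b, max K 0, le_max_right _ _, fun i => ⟨fun c => ?_, ?_⟩⟩
  · have hr := t.r0 i
    exact ((hs_le_hsM m _ (h (i, c)) a b).trans (h1 i c)).trans (by gcongr; exact le_max_left _ _)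
  · have hr := t.r0 i
    have hd := t.d0 i
    exact ((mul_le_mul_of_nonneg_left (hs_le_hsM m _ (h (i, true) - h (i, false)) a b) hr).trans
      (h2 i)).trans (by gcongr; exact le_max_left _ _)

theorem tame_T1 {h : ι → Tn} {K : ℝ} (hs : ∀ i, SmT (h i) (Q t.R))
    (h1 : ∀ i, hsM m (Q t.ρ) (h i) ≤ K * t.r i ^ p) : (tame t).T m p fun a => h a.1 := by
  refine tame_T t (K := max K 0) (fun a => hs a.1) (fun i _ => ?_) fun i => ?_
  · have hr := t.r0 i
    exact (h1 i).trans (by gcongr; exact le_max_left _ _)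
  · have hr := t.r0 i
    have hd := t.d0 i
    have e : hsM m (Q t.ρ) (h i - h i) = 0 := by
      rw [sub_self]
      exact Finset.sum_eq_zero fun a _ => Finset.sum_eq_zero fun b _ => hs_zero _ _
    dsimp only
    rw [e, mul_zero]
    positivity

theorem tame_out {h : ι × Bool → Tn} (hh : (tame t).T m p h) :
    (∀ a, SmT (h a) (Q t.R)) ∧ ∃ K, 0 ≤ K ∧ ∀ i, (∀ b, hsM m (Q t.ρ) (h (i, b)) ≤ K * t.r i ^ p) ∧
      t.r i * hsM m (Q t.ρ) (h (i, true) - h (i, false)) ≤ K * t.r i ^ p * t.d i := by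
  choose K hK h1 using fun a b => (hh a b).2
  refine ⟨fun c a b => (hh a b).1 c, ∑ a, ∑ b, K a b,
    Finset.sum_nonneg fun a _ => Finset.sum_nonneg fun b _ => hK a b, fun i => ⟨fun c => ?_, ?_⟩⟩
  · simp only [hsM, Finset.sum_mul]
    exact Finset.sum_le_sum fun a _ => Finset.sum_le_sum fun b _ => (h1 a b i).1 c
  · simp only [hsM, Finset.sum_mul, Finset.mul_sum]
    exact Finset.sum_le_sum fun a _ => Finset.sum_le_sum fun b _ => (h1 a b i).2

/-- A family of uniformly elliptic matrix fields in the class has its inverse in the class: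
`Cls.T.det`, `det_lower`, `tame_inv`, `Cls.T.inv`. -/
theorem tame_invT (hm : 8 ≤ m) {G : ι × Bool → Tn} {C : ℝ} (hG : (tame t).T m 0 G)
    (hp : ∀ a, ∀ y ∈ Q t.R, (G a y).PosDef ∧ Ell C (G a y)) :
    (tame t).T m 0 fun a => inv (G a) := by
  refine Cls.T.inv (S := tame t) hm hG (tame_inv t (c := (max C 1 ^ 4)⁻¹) hm (by positivity)
    (Cls.T.det (S := tame t) hm hG) fun a y hy => ?_)
  obtain ⟨h1, h2⟩ := hp a y hy
  have hC := Ell.pos h1 h2
  refine le_trans ?_ ((det_lower h1 h2).trans (le_abs_self _))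
  gcongr
  exact le_max_left _ _

/-- `hs_Cb` at level 12. If the index type is empty everything is trivial. -/
theorem tame_mt (hR : t.R ≤ 3) {G : ι → Tn} {C0 : ℝ} (hG : ∀ i, GoodB C0 (G i)) :
    (tame t).Mt 10 fun a => G a.1 := by
  obtain ⟨C, -, hC⟩ := hs_Cb 12 t.ρ
  have h1 : (tame t).T 12 0 fun a => G a.1 := by
    refine tame_T1 t (K := ∑ _a : Fin 4, ∑ _b : Fin 4, C * C0 ^ 2)
      (fun i a b => ((hG i).good.smooth a b).mono (Q_mono hR)) fun i => ?_
    rw [pow_zero, mul_one]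
    exact Finset.sum_le_sum fun a _ => Finset.sum_le_sum fun b _ => hC _ _ fun w hw y hy =>
      (hG i).bdd a b w hw y (Q_mono (t.ρR.le.trans hR) hy)
  exact ⟨(by norm_num : 8 ≤ 10), h1, tame_invT t (C := C0) (by norm_num) h1 fun a y hy =>
    ⟨(hG a.1).good.pos y (Q_mono hR hy), (hG a.1).ell y (Q_mono hR hy)⟩⟩

/-- One fixed smooth metric lies in the class at every level. -/
theorem tame_mt1 (hR : t.R ≤ 3) {G : Tn} {C0 : ℝ} (hG : GoodB C0 G) {n : ℕ} (hn : 8 ≤ n) :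
    (tame t).Mt n fun _ => G := by
  have h1 : (tame t).T (n + 2) 0 fun _ => G :=
    tame_T1 t (h := fun _ => G) (K := hsM (n + 2) (Q t.ρ) G)
      (fun _ a b => (hG.good.smooth a b).mono (Q_mono hR)) fun i => by rw [pow_zero, mul_one]
  exact ⟨hn, h1, tame_invT t (C := C0) (by omega) h1 fun _ y hy =>
    ⟨hG.good.pos y (Q_mono hR hy), hG.ell y (Q_mono hR hy)⟩⟩

end Pool.Agent.Lib.MP_94aef8_gt.FL
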